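import Pool.Agent.Work.MP_f94384_co.Flag.Sym

/-!
# Item PADD: sum of positive semidefinite matrices
-/

set_option autoImplicit false

open Finset

namespace Pool.Agent.Work.MP_f94384_co.Flag

/-- Item PADD. -/
theorem pr_PADD : PADD := by
  intro n Y Y' h h'
  obtain ⟨s, b, hb⟩ := h
  obtain ⟨s', b', hb'⟩ := h'
  refine ⟨s + s', fun a p => if a < s then b a p else b' (a - s) p, fun p hp q hq => ?_⟩
  rw [Finset.sum_range_add]
  have h1 : ∑ a ∈ range s, (if a < s then b a p else b' (a - s) p) *
      (if a < s then b a q else b' (a - s) q) = ∑ a ∈ range s, b a p * b a q := by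
    refine Finset.sum_congr rfl fun a ha => ?_
    rw [Finset.mem_range] at ha
    rw [if_pos ha, if_pos ha]
  have h2 : ∑ a ∈ range s', (if s + a < s then b (s + a) p else b' (s + a - s) p) *
      (if s + a < s then b (s + a) q else b' (s + a - s) q) =
      ∑ a ∈ range s', b' a p * b' a q := by
    refine Finset.sum_congr rfl fun a _ => ?_
    have h3 : ¬ s + a < s := by omega
    rw [if_neg h3, if_neg h3, Nat.add_sub_cancel_left]
  rw [h1, h2, ← hb p hp q hq, ← hb' p hp q hq]
  push_cast
  ring

end Pool.Agent.Work.MP_f94384_co.Flag
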