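import Pool.Agent.Work.MP_f94384_co.Flag.Sym

/-!
# Item PDD: diagonally dominant matrices
-/

set_option autoImplicit false

open Finset

namespace Pool.Agent.Work.MP_f94384_co.Flag

/-- positive semidefiniteness of a real table -/
def PDD_psd (n : ℕ) (Y : ℕ → ℕ → ℝ) : Prop :=
  ∃ (s : ℕ) (b : ℕ → ℕ → ℝ), ∀ p < n, ∀ q < n, Y p q = ∑ a ∈ range s, b a p * b a q

open Matrix in
theorem PDD_of_form {m : ℕ} {R : ℕ → ℕ → ℝ} (hs : ∀ p < m, ∀ q < m, R p q = R q p)
    (hf : ∀ x : Fin m → ℝ, 0 ≤ ∑ p : Fin m, ∑ q : Fin m, x p * R p q * x q) : PDD_psd m R := by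
  let A : Matrix (Fin m) (Fin m) ℝ := Matrix.of fun i j => R i j
  have hA : A.PosSemidef := by
    refine PosSemidef.of_dotProduct_mulVec_nonneg ?_ fun x => ?_
    · ext i j
      simp only [conjTranspose_apply, A, of_apply, star_trivial]
      exact hs j j.2 i i.2
    · have := hf x
      simp only [dotProduct, mulVec, A, of_apply, star_trivial]
      refine le_trans this (le_of_eq ?_)
      refine Finset.sum_congr rfl fun p _ => ?_
      rw [Finset.mul_sum]
      exact Finset.sum_congr rfl fun q _ => by rw [mul_assoc]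
  open scoped MatrixOrder in
  obtain ⟨B, hB⟩ := CStarAlgebra.nonneg_iff_eq_star_mul_self.mp hA.nonneg
  refine ⟨m, fun a p => if h : a < m ∧ p < m then B ⟨a, h.1⟩ ⟨p, h.2⟩ else 0,
    fun p hp q hq => ?_⟩
  have h1 : R p q = A ⟨p, hp⟩ ⟨q, hq⟩ := rfl
  rw [h1, hB, Matrix.mul_apply, Finset.sum_range]
  refine Finset.sum_congr rfl fun a _ => ?_
  simp [Matrix.star_apply, hp, hq]

/-- diagonally dominant symmetric tables -/
theorem PDD_of_dd {m : ℕ} {R : ℕ → ℕ → ℝ} (hs : ∀ p < m, ∀ q < m, R p q = R q p)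
    (hd : ∀ p < m, ∑ q ∈ range m, |R p q| ≤ 2 * R p p) : PDD_psd m R := by
  refine PDD_of_form hs fun x => ?_
  have h1 : ∀ p q : Fin m, -(|R p q| * (x p ^ 2 + x q ^ 2) / 2) +
      (if p = q then 2 * R p p * x p ^ 2 else 0) ≤ x p * R p q * x q := by
    intro p q
    by_cases hpq : p = q
    · subst hpq
      rw [if_pos rfl]
      have h2 : 0 ≤ R p p := by
        have h3 := hd p p.2
        have h4 : 0 ≤ ∑ q ∈ range m, |R p q| := Finset.sum_nonneg fun _ _ => abs_nonneg _
        linarith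
      rw [abs_of_nonneg h2]
      nlinarith
    · rw [if_neg hpq, add_zero]
      have h3 := abs_nonneg (R p q)
      rcases abs_cases (R p q) with ⟨h4, _⟩ | ⟨h4, h5⟩
      · rw [h4] at h3 ⊢
        nlinarith [mul_nonneg h3 (sq_nonneg (x p + x q))]
      · rw [h4] at h3 ⊢
        nlinarith [mul_nonneg h3 (sq_nonneg (x p - x q))]
  have h2 : ∑ p : Fin m, ∑ q : Fin m, (-(|R p q| * (x p ^ 2 + x q ^ 2) / 2) +
      (if p = q then 2 * R p p * x p ^ 2 else 0)) ≤
      ∑ p : Fin m, ∑ q : Fin m, x p * R p q * x q :=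
    Finset.sum_le_sum fun p _ => Finset.sum_le_sum fun q _ => h1 p q
  refine le_trans ?_ h2
  have h3 : ∑ p : Fin m, ∑ q : Fin m, (-(|R p q| * (x p ^ 2 + x q ^ 2) / 2) +
      (if p = q then 2 * R p p * x p ^ 2 else 0)) =
      ∑ p : Fin m, (2 * R p p - ∑ q : Fin m, |R p q|) * x p ^ 2 := by
    have h4 : ∀ p : Fin m, ∑ q : Fin m, (-(|R p q| * (x p ^ 2 + x q ^ 2) / 2) +
        (if p = q then 2 * R p p * x p ^ 2 else 0)) =
        -((∑ q : Fin m, |R p q|) * x p ^ 2) / 2 - (∑ q : Fin m, |R p q| * x q ^ 2) / 2 +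
          2 * R p p * x p ^ 2 := by
      intro p
      rw [Finset.sum_add_distrib, Finset.sum_ite_eq]
      simp only [Finset.mem_univ, if_true]
      congr 1
      rw [Finset.sum_mul, Finset.sum_div, ← Finset.sum_neg_distrib, Finset.sum_div,
        ← Finset.sum_sub_distrib]
      exact Finset.sum_congr rfl fun q _ => by ring
    rw [Finset.sum_congr rfl fun p _ => h4 p]
    have h5 : ∑ p : Fin m, (∑ q : Fin m, |R p q| * x q ^ 2) / 2 =
        ∑ p : Fin m, ((∑ q : Fin m, |R p q|) * x p ^ 2) / 2 := by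
      rw [← Finset.sum_div, ← Finset.sum_div, Finset.sum_comm]
      congr 1
      refine Finset.sum_congr rfl fun q _ => ?_
      rw [Finset.sum_mul]
      exact Finset.sum_congr rfl fun p _ => by rw [hs p p.2 q q.2]
    rw [Finset.sum_add_distrib, Finset.sum_sub_distrib, h5, ← Finset.sum_sub_distrib,
      ← Finset.sum_add_distrib]
    exact Finset.sum_congr rfl fun p _ => by ring
  rw [h3]
  refine Finset.sum_nonneg fun p _ => mul_nonneg ?_ (sq_nonneg _)
  have h4 := hd p p.2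
  rw [Finset.sum_range] at h4
  linarith


/-- Item PDD. -/
theorem pr_PDD : PADD → PDD := by
  intro _ n R hs hd
  refine PDD_of_dd (R := fun i j => (R i j : ℝ)) (fun p hp q hq => by rw [hs p hp q hq])
    fun p hp => ?_
  have h1 := hd p hp
  have h2 : 0 ≤ R p p := le_trans (Finset.sum_nonneg fun _ _ => abs_nonneg _) h1
  have h3 : ∑ q ∈ range n, |R p q| = |R p p| + ∑ q ∈ (range n).erase p, |R p q| :=
    (Finset.add_sum_erase _ _ (Finset.mem_range.2 hp)).symm
  have h4 : ∑ q ∈ range n, |R p q| ≤ 2 * R p p := by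
    rw [h3, abs_of_nonneg h2]
    linarith
  have h5 : ((∑ q ∈ range n, |R p q| : ℤ) : ℝ) ≤ ((2 * R p p : ℤ) : ℝ) := Int.cast_le.2 h4
  push_cast at h5
  exact h5

end Pool.Agent.Work.MP_f94384_co.Flag
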