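import Pool.Agent.Work.MP_f94384_co.Flag.Stmts

set_option autoImplicit false

open Finset

namespace Pool.Agent.Work.MP_f94384_co.Flag

private theorem cast_TB (k w w' : ℕ) (Y : ℕ → ℕ → ℤ) (p : ℕ → ℕ → Bool) (i j : ℕ) :
    ((TB k w w' Y p i j : ℤ) : ℝ) = TB k w w' (fun a b => (Y a b : ℝ)) p i j := by
  unfold TB
  push_cast
  refine Finset.sum_congr rfl fun c _ => Finset.sum_congr rfl fun c' _ => ?_
  split_ifs <;> simp

private theorem cast_TL (k : ℕ) (Y : ℕ → ℕ → ℤ) (p : ℕ → ℕ → Bool) (i j : ℕ) :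
    ((TL k Y p i j : ℤ) : ℝ) = TL k (fun a b => (Y a b : ℝ)) p i j := by
  unfold TL
  push_cast
  refine Finset.sum_congr rfl fun c _ => Finset.sum_congr rfl fun c' _ => ?_
  split_ifs <;> simp

private theorem cast_TE (k : ℕ) (m q : ℤ) (Y : ℕ → ℕ → ℤ) (p : ℕ → ℕ → Bool) (i j : ℕ) :
    ((TE k m q Y p i j : ℤ) : ℝ) = TE k (m : ℝ) (q : ℝ) (fun a b => (Y a b : ℝ)) p i j := by
  unfold TE
  split_ifs <;> push_cast <;> simp only [cast_TL, cast_TB]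

private theorem cast_TQ (k : ℕ) (m q f : ℤ) (a : ℕ) (Y : ℕ → ℕ → ℤ) (p : ℕ → ℕ → Bool)
    (i j : ℕ) :
    ((TQ k m q f a Y p i j : ℤ) : ℝ) =
      TQ k (m : ℝ) (q : ℝ) (f : ℝ) a (fun c d => (Y c d : ℝ)) p i j := by
  unfold TQ
  split_ifs <;> push_cast <;> simp only [cast_TL, cast_TB]

private theorem cast_TZ (k : ℕ) (z : ℕ → ℕ → ℤ) (p : ℕ → ℕ → Bool) (i j : ℕ) :
    ((TZ k z p i j : ℤ) : ℝ) = TZ k (fun a b => (z a b : ℝ)) p i j := by
  unfold TZ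
  push_cast
  refine Finset.sum_congr rfl fun c _ => Finset.sum_congr rfl fun c' _ => ?_
  split_ifs <;> simp

theorem pr_CAST : CAST := by
  intro k C p i j
  unfold T TU
  push_cast
  rw [cast_TB, cast_TE, cast_TZ]
  congr 2
  refine Finset.sum_congr rfl fun a _ => ?_
  rw [cast_TQ]

end Pool.Agent.Work.MP_f94384_co.Flag
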