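import Pool.Agent.Work.MP_f94384_co.Flag.Stmts

/-!
Item CAST1: casting `T1` to the reals.
-/

set_option autoImplicit false

open Finset

namespace Pool.Agent.Work.MP_f94384_co.Flag

theorem pr_CAST1 : CAST1 := by
  intro m q Y p i j
  unfold T1
  push_cast
  rfl

end Pool.Agent.Work.MP_f94384_co.Flag
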