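import Pool.Agent.Work.MP_f94384_co.Flag.Stmts

/-!
# Item FE
-/

set_option autoImplicit false

open Finset

namespace Pool.Agent.Work.MP_f94384_co.Flag

theorem pr_FE : SPLIT → PAT → TBF → TLF → FE := by
  intro hS hP hB hL k V _ _ G x l hE m q Y
  unfold Phi
  rw [hS k V]
  refine Finset.sum_congr rfl fun ρ _ => ?_
  have key : ∀ w w' : V, (∑ i : Fin (k + 2), ∑ j : Fin (k + 2),
      TE k m q (Y (enc k (pat G (ext ρ w w')))) (pat G (ext ρ w w')) i j *
        x (ext ρ w w' i) * x (ext ρ w w' j)) =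
      m * (W G w w' * Bk G x (Y (enc k (pat G ρ))) ρ w w') +
        m * (∑ i : Fin (k + 2), ∑ j : Fin (k + 2),
          TL k (Y (enc k (pat G ρ))) (pat G (ext ρ w w')) i j *
            x (ext ρ w w' i) * x (ext ρ w w' j)) -
        q * Bk G x (Y (enc k (pat G ρ))) ρ w w := by
    intro w w'
    have h1 := (hP k V G ρ w w').2.2.1
    have h2 := (hP k V G ρ w w').2.2.2.2.1
    have h3 := hB k V G x (Y (enc k (pat G ρ))) ρ w w'
    rw [h1]
    rw [← h3.2]
    by_cases h : G.Adj w w'
    · rw [W_of_adj h, one_mul, ← h3.1]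
      simp only [TE, if_pos (h2.2 h), Finset.mul_sum]
      rw [← Finset.sum_add_distrib, ← Finset.sum_sub_distrib]
      refine Finset.sum_congr rfl fun i _ => ?_
      rw [← Finset.sum_add_distrib, ← Finset.sum_sub_distrib]
      refine Finset.sum_congr rfl fun j _ => ?_
      ring
    · have h4 : ¬ (pat G (ext ρ w w') k (k + 1) = true) := fun h5 => h (h2.1 h5)
      rw [W_of_not_adj h, zero_mul, mul_zero, zero_add]
      simp only [TE, if_neg h4, Finset.mul_sum]
      rw [← Finset.sum_sub_distrib]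
      refine Finset.sum_congr rfl fun i _ => ?_
      rw [← Finset.sum_sub_distrib]
      refine Finset.sum_congr rfl fun j _ => ?_
      ring
  simp only [key]
  have h6 : ∀ w : V, ∑ w' : V, (m * (W G w w' * Bk G x (Y (enc k (pat G ρ))) ρ w w') +
        m * (∑ i : Fin (k + 2), ∑ j : Fin (k + 2),
          TL k (Y (enc k (pat G ρ))) (pat G (ext ρ w w')) i j *
            x (ext ρ w w' i) * x (ext ρ w w' j)) -
        q * Bk G x (Y (enc k (pat G ρ))) ρ w w) =
      m * (∑ w', W G w w' * Bk G x (Y (enc k (pat G ρ))) ρ w w') +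
        (m * l - q * (Fintype.card V : ℝ)) * Bk G x (Y (enc k (pat G ρ))) ρ w w := by
    intro w
    rw [Finset.sum_sub_distrib, Finset.sum_add_distrib, ← Finset.mul_sum, ← Finset.mul_sum,
      hL k V G x l hE (Y (enc k (pat G ρ))) ρ w, Finset.sum_const, Finset.card_univ,
      nsmul_eq_mul]
    ring
  rw [Finset.sum_congr rfl fun w _ => h6 w, Finset.sum_add_distrib, ← Finset.mul_sum,
    ← Finset.mul_sum]

end Pool.Agent.Work.MP_f94384_co.Flag
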