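import Pool.Agent.Work.MP_f94384_co.Flag.Stmts

/-!
# Item FQ: pattern sum of the induction squares
-/

set_option autoImplicit false

open Finset

namespace Pool.Agent.Work.MP_f94384_co.Flag

/-- the inner sum for fixed roots and points, when `w` is adjacent to the root `a` -/
private theorem FQ_inner (hP : PAT) (hB : TBF) (k : ℕ) (V : Type) [Fintype V] [DecidableEq V]
    (G : SimpleGraph V) (x : V → ℝ) (m q f : ℝ) (a : Fin k) (Y : ℕ → ℕ → ℝ)
    (ρ : Fin k → V) (w w' : V) (hw : G.Adj w (ρ a)) :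
    ∑ i : Fin (k + 2), ∑ j : Fin (k + 2), TQ k m q f a Y (pat G (ext ρ w w')) i j *
      x (ext ρ w w' i) * x (ext ρ w w' j) =
      -(W G w w' * W G w' (ρ a) * (m * Bk G x Y ρ w w')) +
      m * (∑ i : Fin (k + 2), ∑ j : Fin (k + 2), TL k Y (pat G (ext ρ w w')) i j *
        x (ext ρ w w' i) * x (ext ρ w w' j)) - q * Bk G x Y ρ w w +
      W G w' (ρ a) * (f * Bk G x Y ρ w w) := by
  obtain ⟨_, _, _, _, h1, h2⟩ := hP k V G ρ w w'
  obtain ⟨h3, h4, _⟩ := h2 a
  obtain ⟨h5, h6⟩ := hB k V G x Y ρ w w'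
  have hpa : pat G (ext ρ w w') k a = true := h3.2 hw
  rw [← h5, ← h6]
  have key : ∀ i j : Fin (k + 2), TQ k m q f a Y (pat G (ext ρ w w')) i j *
      x (ext ρ w w' i) * x (ext ρ w w' j) =
      -(W G w w' * W G w' (ρ a) * (m * (TB k k (k + 1) Y (pat G (ext ρ w w')) i j *
      x (ext ρ w w' i) * x (ext ρ w w' j)))) +
      m * (TL k Y (pat G (ext ρ w w')) i j * x (ext ρ w w' i) * x (ext ρ w w' j)) -
      q * (TB k k k Y (pat G (ext ρ w w')) i j * x (ext ρ w w' i) * x (ext ρ w w' j)) +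
      W G w' (ρ a) * (f * (TB k k k Y (pat G (ext ρ w w')) i j *
        x (ext ρ w w' i) * x (ext ρ w w' j))) := by
    intro i j
    unfold TQ
    rw [if_pos hpa]
    by_cases g1 : G.Adj w' (ρ a)
    · have e1 : W G w' (ρ a) = 1 := by unfold W; rw [if_pos g1]
      by_cases g2 : G.Adj w w'
      · have e2 : W G w w' = 1 := by unfold W; rw [if_pos g2]
        rw [if_pos ⟨h1.2 g2, h4.2 g1⟩, if_pos (h4.2 g1), e1, e2]
        ring
      · have e2 : W G w w' = 0 := by unfold W; rw [if_neg g2]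
        rw [if_neg (fun h => g2 (h1.1 h.1)), if_pos (h4.2 g1), e1, e2]
        ring
    · have e1 : W G w' (ρ a) = 0 := by unfold W; rw [if_neg g1]
      rw [if_neg (fun h => g1 (h4.1 h.2)), if_neg (fun h => g1 (h4.1 h)), e1]
      ring
  simp only [key, Finset.sum_add_distrib, Finset.sum_sub_distrib, Finset.sum_neg_distrib,
    ← Finset.mul_sum]

theorem pr_FQ : SPLIT → PAT → TBF → TLF → FQ := by
  intro hS hP hB hL k V _ _ G x l hl m q f a Y
  unfold Phi
  rw [hS]
  refine Finset.sum_congr rfl fun ρ _ => ?_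
  obtain ⟨Z, hZ⟩ : ∃ Z, Z = Y (enc k (pat G ρ)) := ⟨_, rfl⟩
  have hY : ∀ w w', Y (enc k (pat G (ext ρ w w'))) = Z := by
    intro w w'
    rw [(hP k V G ρ w w').2.2.1, hZ]
  simp only [hY, ← hZ]
  have hin : ∀ w, w ∈ nbh G (ρ a) ↔ G.Adj w (ρ a) := by
    intro w
    simp only [nbh, Finset.mem_filter, Finset.mem_univ, true_and]
    exact ⟨fun h => h.symm, fun h => h.symm⟩
  -- the sum over the second point
  have hsum : ∀ w, G.Adj w (ρ a) →
      ∑ w', ∑ i : Fin (k + 2), ∑ j : Fin (k + 2), TQ k m q f a Z (pat G (ext ρ w w')) i j *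
        x (ext ρ w w' i) * x (ext ρ w w' j) =
      -(m * ∑ w' ∈ nbh G (ρ a), W G w w' * Bk G x Z ρ w w') +
      (m * l - q * (Fintype.card V : ℝ) + f * ((nbh G (ρ a)).card : ℝ)) * Bk G x Z ρ w w := by
    intro w hw
    rw [Finset.sum_congr rfl fun w' _ => FQ_inner hP hB k V G x m q f a Z ρ w w' hw]
    rw [Finset.sum_add_distrib, Finset.sum_sub_distrib, Finset.sum_add_distrib,
      Finset.sum_neg_distrib, ← Finset.mul_sum, hL k V G x l hl Z ρ w, Finset.sum_const,
      Finset.card_univ, nsmul_eq_mul, ← Finset.sum_mul]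
    have e1 : ∑ w', W G w w' * W G w' (ρ a) * (m * Bk G x Z ρ w w') =
        m * ∑ w' ∈ nbh G (ρ a), W G w w' * Bk G x Z ρ w w' := by
      rw [Finset.mul_sum, ← Finset.sum_subset (Finset.subset_univ (nbh G (ρ a)))]
      · refine Finset.sum_congr rfl fun w' hw' => ?_
        have e2 : W G w' (ρ a) = 1 := by unfold W; rw [if_pos ((hin w').1 hw')]
        rw [e2]; ring
      · intro w' _ hw'
        have e2 : W G w' (ρ a) = 0 := by
          unfold W; rw [if_neg (fun h => hw' ((hin w').2 h))]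
        rw [e2]; ring
    have e3 : ∑ w', W G w' (ρ a) = ((nbh G (ρ a)).card : ℝ) := by
      rw [← Finset.sum_subset (Finset.subset_univ (nbh G (ρ a)))]
      · rw [Finset.sum_congr rfl fun w' hw' => (by
          unfold W; rw [if_pos ((hin w').1 hw')] : W G w' (ρ a) = 1)]
        simp
      · intro w' _ hw'
        unfold W; rw [if_neg (fun h => hw' ((hin w').2 h))]
    rw [e1, e3]
    ring
  have hzero : ∀ w, ¬ G.Adj w (ρ a) →
      ∑ w', ∑ i : Fin (k + 2), ∑ j : Fin (k + 2), TQ k m q f a Z (pat G (ext ρ w w')) i j *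
        x (ext ρ w w' i) * x (ext ρ w w' j) = 0 := by
    intro w hw
    apply Finset.sum_eq_zero
    intro w' _
    apply Finset.sum_eq_zero
    intro i _
    apply Finset.sum_eq_zero
    intro j _
    have h3 := ((hP k V G ρ w w').2.2.2.2.2 a).1
    unfold TQ
    rw [if_neg (fun h => hw (h3.1 h))]
    ring
  rw [← Finset.sum_subset (Finset.subset_univ (nbh G (ρ a)))
    (fun w _ hw => hzero w (fun h => hw ((hin w).2 h)))]
  rw [Finset.sum_congr rfl fun w hw => hsum w ((hin w).1 hw)]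
  rw [Finset.sum_add_distrib, Finset.sum_neg_distrib, ← Finset.mul_sum, ← Finset.mul_sum]

end Pool.Agent.Work.MP_f94384_co.Flag
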