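import Pool.Agent.Work.MP_f94384_co.Flag.Stmts

set_option autoImplicit false

open Finset

namespace Pool.Agent.Work.MP_f94384_co.Flag

/-- Item FU: pattern sum of the usual squares. -/
theorem pr_FU : SPLIT → PAT → TBF → FU := by
  intro hS hP hT k V _ _ G x Y
  unfold Phi
  rw [hS k V]
  refine Finset.sum_congr rfl fun ρ _ => Finset.sum_congr rfl fun w _ =>
    Finset.sum_congr rfl fun w' _ => ?_
  have h1 := (hP k V G ρ w w').2.2.1
  have h2 := (hT k V G x (Y (enc k (pat G ρ))) ρ w w').1
  simp only [TU, h1]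
  exact h2

end Pool.Agent.Work.MP_f94384_co.Flag
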