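import Pool.Agent.Work.MP_f94384_co.Flag.Stmts

/-!
# Item FZ
-/

set_option autoImplicit false

open Finset

namespace Pool.Agent.Work.MP_f94384_co.Flag

theorem pr_FZ : SPLIT → PAT → TZF → FZ := by
  intro hS hP hZ k V _ _ G x l hE z hz
  unfold Phi
  rw [hS k V]
  refine Finset.sum_eq_zero fun ρ _ => Finset.sum_eq_zero fun w _ => ?_
  have h := hZ k V G x l hE
    (z (enc (k + 1) (pat G (Fin.snoc (α := fun _ => V) ρ w : Fin (k + 1) → V))))
    (fun a b => hz _ a b) ρ w
  rw [← h]
  refine Finset.sum_congr rfl fun w' _ => Finset.sum_congr rfl fun i _ =>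
    Finset.sum_congr rfl fun j _ => ?_
  beta_reduce
  rw [(hP k V G ρ w w').2.2.2.1]

end Pool.Agent.Work.MP_f94384_co.Flag
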