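import Pool.Agent.Work.MP_f94384_co.Flag.Stmts

/-!
# Item LPK: consequences of being a sum of squares
-/

set_option autoImplicit false

open Finset

namespace Pool.Agent.Work.MP_f94384_co.Flag

namespace LPKaux

theorem swap3 {V : Type} (S T : Finset V) (s : ℕ) (f : V → V → ℕ → ℝ) :
    ∑ w ∈ S, ∑ w' ∈ T, ∑ a ∈ range s, f w w' a = ∑ a ∈ range s, ∑ w ∈ S, ∑ w' ∈ T, f w w' a := by
  have h1 : ∀ w, ∑ w' ∈ T, ∑ a ∈ range s, f w w' a = ∑ a ∈ range s, ∑ w' ∈ T, f w w' a :=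
    fun w => Finset.sum_comm
  have h2 : ∑ w ∈ S, ∑ w' ∈ T, ∑ a ∈ range s, f w w' a =
      ∑ w ∈ S, ∑ a ∈ range s, ∑ w' ∈ T, f w w' a :=
    Finset.sum_congr rfl fun w _ => h1 w
  rw [h2]
  exact Finset.sum_comm

theorem diag_sum {V : Type} (S : Finset V) (B : V → V → ℝ) (s : ℕ) (F : ℕ → V → ℝ)
    (h : ∀ w w', B w w' = ∑ a ∈ range s, F a w * F a w') :
    ∑ w ∈ S, B w w = ∑ a ∈ range s, sq S (F a) := by
  unfold sq
  rw [Finset.sum_comm (s := range s)]
  refine Finset.sum_congr rfl fun w _ => ?_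
  rw [h]
  exact Finset.sum_congr rfl fun a _ => by ring

theorem quad_sum {V : Type} [Fintype V] [DecidableEq V] (G : SimpleGraph V) (S : Finset V)
    (B : V → V → ℝ) (s : ℕ) (F : ℕ → V → ℝ)
    (h : ∀ w w', B w w' = ∑ a ∈ range s, F a w * F a w') :
    ∑ w ∈ S, ∑ w' ∈ S, W G w w' * B w w' = ∑ a ∈ range s, qf G S (F a) := by
  have h1 : ∀ a, qf G S (F a) = ∑ w ∈ S, ∑ w' ∈ S, W G w w' * (F a w * F a w') := by
    intro a
    rw [qf_eq]
    exact Finset.sum_congr rfl fun u _ => Finset.sum_congr rfl fun v _ => by ring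
  simp only [h1]
  rw [← swap3]
  refine Finset.sum_congr rfl fun w _ => Finset.sum_congr rfl fun w' _ => ?_
  rw [h, Finset.mul_sum]

end LPKaux

theorem pr_LPK : LPK := by
  intro V _ _ G B hB
  obtain ⟨s, F, h⟩ := hB
  refine ⟨?_, ?_, ?_, ?_⟩
  · have h1 : ∑ w, ∑ w', B w w' = ∑ a ∈ range s, (∑ w, F a w) ^ 2 := by
      have h2 : ∀ a, (∑ w, F a w) ^ 2 = ∑ w, ∑ w', F a w * F a w' := by
        intro a
        rw [pow_two, Finset.sum_mul_sum]
      simp only [h2]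
      rw [← LPKaux.swap3]
      exact Finset.sum_congr rfl fun w _ => Finset.sum_congr rfl fun w' _ => h w w'
    rw [h1]
    exact Finset.sum_nonneg fun a _ => sq_nonneg _
  · intro w
    rw [h]
    exact Finset.sum_nonneg fun a _ => mul_self_nonneg _
  · intro S c hc
    rw [LPKaux.diag_sum S B s F h, LPKaux.quad_sum G S B s F h, Finset.mul_sum]
    exact Finset.sum_le_sum fun a _ => hc (F a)
  · intro S c hc
    rw [LPKaux.diag_sum S B s F h, LPKaux.quad_sum G S B s F h, Finset.mul_sum]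
    exact Finset.sum_le_sum fun a _ => hc (F a)

end Pool.Agent.Work.MP_f94384_co.Flag
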