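import Pool.Agent.Work.MP_f94384_co.Flag.Stmts

/-!
# Item PAT
-/

set_option autoImplicit false

open Finset

namespace Pool.Agent.Work.MP_f94384_co.Flag

namespace NPAT

variable {V : Type}

theorem snoc_lt {n : ℕ} (v : Fin n → V) (w : V) (i : ℕ) (h : i < n) (h' : i < n + 1) :
    (Fin.snoc (α := fun _ => V) v w : Fin (n + 1) → V) ⟨i, h'⟩ = v ⟨i, h⟩ := by
  simp [Fin.snoc, h]

theorem snoc_eq {n : ℕ} (v : Fin n → V) (w : V) (h' : n < n + 1) :
    (Fin.snoc (α := fun _ => V) v w : Fin (n + 1) → V) ⟨n, h'⟩ = w := by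
  simp [Fin.snoc]

theorem ext_lt {k : ℕ} (ρ : Fin k → V) (w w' : V) (i : ℕ) (h : i < k) (h' : i < k + 2) :
    ext ρ w w' ⟨i, h'⟩ = ρ ⟨i, h⟩ := by
  rw [ext, snoc_lt _ _ i (by omega), snoc_lt _ _ i h]

theorem ext_k {k : ℕ} (ρ : Fin k → V) (w w' : V) (h' : k < k + 2) :
    ext ρ w w' ⟨k, h'⟩ = w := by
  rw [ext, snoc_lt _ _ k (by omega), snoc_eq]

theorem ext_k1 {k : ℕ} (ρ : Fin k → V) (w w' : V) (h' : k + 1 < k + 2) :
    ext ρ w w' ⟨k + 1, h'⟩ = w' := by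
  rw [ext, snoc_eq]

theorem pat_snoc (G : SimpleGraph V) {n : ℕ} (v : Fin n → V) (w : V) (i j : ℕ) (hi : i < n)
    (hj : j < n) :
    pat G (Fin.snoc (α := fun _ => V) v w : Fin (n + 1) → V) i j = pat G v i j := by
  rw [pat, pat, dif_pos ⟨by omega, by omega⟩, dif_pos ⟨hi, hj⟩, snoc_lt _ _ i hi, snoc_lt _ _ j hj]

theorem pat_ext_iff (G : SimpleGraph V) {N : ℕ} (v : Fin N → V) (i j : ℕ) (hi : i < N)
    (hj : j < N) : pat G v i j = true ↔ G.Adj (v ⟨i, hi⟩) (v ⟨j, hj⟩) := by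
  classical
  rw [pat, dif_pos ⟨hi, hj⟩, decide_eq_true_iff]

theorem enc_congr (k : ℕ) (p p' : ℕ → ℕ → Bool) (h : ∀ i < k, ∀ j < k, p i j = p' i j) :
    enc k p = enc k p' := by
  unfold enc
  refine Finset.sum_congr rfl fun j hj => Finset.sum_congr rfl fun i hi => ?_
  rw [h i (by have := mem_range.mp hi; have := mem_range.mp hj; omega) j (mem_range.mp hj)]

theorem msk_eq (G : SimpleGraph V) {k : ℕ} (ρ : Fin k → V) (p : ℕ → ℕ → Bool) (i : ℕ) (w : V)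
    (h : ∀ a : Fin k, p i a = true ↔ G.Adj w (ρ a)) : msk k p i = cdm G ρ w := by
  classical
  rw [msk, cdm, Finset.sum_range]
  refine Finset.sum_congr rfl fun a _ => ?_
  by_cases ha : G.Adj w (ρ a)
  · rw [if_pos ((h a).mpr ha), if_pos ha]
  · rw [if_neg (fun h' => ha ((h a).mp h')), if_neg ha]

end NPAT

open NPAT in
theorem pr_PAT : PAT := by
  intro k V _ _ G ρ w w'
  have h1 : ∀ a : Fin k, (pat G (ext ρ w w') k a = true ↔ G.Adj w (ρ a)) := by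
    intro a
    rw [pat_ext_iff G _ k a (by omega) (by omega), ext_k, ext_lt _ _ _ a a.2]
  have h2 : ∀ a : Fin k, (pat G (ext ρ w w') (k + 1) a = true ↔ G.Adj w' (ρ a)) := by
    intro a
    rw [pat_ext_iff G _ (k + 1) a (by omega) (by omega), ext_k1, ext_lt _ _ _ a a.2]
  have h3 : ∀ a : Fin k, (pat G (ext ρ w w') a (k + 1) = true ↔ G.Adj (ρ a) w') := by
    intro a
    rw [pat_ext_iff G _ a (k + 1) (by omega) (by omega), ext_k1, ext_lt _ _ _ a a.2]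
  refine ⟨msk_eq G ρ _ k w h1, msk_eq G ρ _ (k + 1) w' h2, ?_, ?_, ?_, fun a => ⟨h1 a, h2 a, h3 a⟩⟩
  · refine enc_congr k _ _ fun i hi j hj => ?_
    rw [ext, pat_snoc G _ _ i j (by omega) (by omega), pat_snoc G _ _ i j hi hj]
  · refine enc_congr (k + 1) _ _ fun i hi j hj => ?_
    rw [ext, pat_snoc G _ _ i j hi hj]
  · rw [pat_ext_iff G _ k (k + 1) (by omega) (by omega), ext_k, ext_k1]

end Pool.Agent.Work.MP_f94384_co.Flag
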