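import Pool.Agent.Work.MP_f94384_co.Flag.Stmts

set_option autoImplicit false

open Finset

namespace Pool.Agent.Work.MP_f94384_co.Flag

private theorem PKB_cdm {V : Type} [Fintype V] [DecidableEq V] (G : SimpleGraph V) {k : ℕ}
    (ρ : Fin k → V) (w : V) : cdm G ρ w < 2 ^ k := by
  classical
  unfold cdm
  have h1 : ∑ j : Fin k, (if G.Adj w (ρ j) then 2 ^ (j : ℕ) else 0) ≤
      ∑ j : Fin k, 2 ^ (j : ℕ) := by
    apply Finset.sum_le_sum
    intro j _
    split_ifs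
    · exact le_rfl
    · exact Nat.zero_le _
  have h2 : ∑ j : Fin k, 2 ^ (j : ℕ) = ∑ j ∈ range k, 2 ^ j :=
    Fin.sum_univ_eq_sum_range (fun j => 2 ^ j) k
  have h3 : ∑ j ∈ range k, 2 ^ j < 2 ^ k :=
    Nat.geomSum_lt le_rfl (fun j hj => Finset.mem_range.1 hj)
  refine lt_of_le_of_lt ?_ h3
  rw [← h2]
  convert h1

theorem pr_PKB : PKB := by
  intro k V _ _ G x Y hY ρ
  obtain ⟨s, b, hb⟩ := hY
  refine ⟨s, fun a w => ∑ c ∈ range (k + 1), b a (2 ^ k * c + cdm G ρ w) * X x ρ w c, ?_⟩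
  intro w w'
  have hlt : ∀ (w : V), ∀ c ∈ range (k + 1), 2 ^ k * c + cdm G ρ w < (k + 1) * 2 ^ k := by
    intro w c hc
    rw [Finset.mem_range] at hc
    have h1 := PKB_cdm G ρ w
    calc 2 ^ k * c + cdm G ρ w < 2 ^ k * c + 2 ^ k := by omega
      _ = 2 ^ k * (c + 1) := by ring
      _ ≤ 2 ^ k * (k + 1) := Nat.mul_le_mul_left _ (by omega)
      _ = (k + 1) * 2 ^ k := by ring
  unfold Bk
  have h2 : ∀ c ∈ range (k + 1), ∑ c' ∈ range (k + 1),
      (Y (2 ^ k * c + cdm G ρ w) (2 ^ k * c' + cdm G ρ w') : ℝ) * X x ρ w c * X x ρ w' c' =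
      ∑ a ∈ range s, ∑ c' ∈ range (k + 1), (b a (2 ^ k * c + cdm G ρ w) * X x ρ w c) *
        (b a (2 ^ k * c' + cdm G ρ w') * X x ρ w' c') := by
    intro c hc
    rw [Finset.sum_comm]
    apply Finset.sum_congr rfl
    intro c' hc'
    rw [hb _ (hlt w c hc) _ (hlt w' c' hc'), Finset.sum_mul, Finset.sum_mul]
    apply Finset.sum_congr rfl
    intro a _
    ring
  rw [Finset.sum_congr rfl h2, Finset.sum_comm]
  apply Finset.sum_congr rfl
  intro a _
  rw [Finset.sum_mul_sum]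

end Pool.Agent.Work.MP_f94384_co.Flag
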