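import Pool.Agent.Work.MP_f94384_co.Flag.Stmts

/-!
# Item PKB1: the kernel of a positive semidefinite matrix, additional square
-/

set_option autoImplicit false

open Finset

namespace Pool.Agent.Work.MP_f94384_co.Flag

private lemma PKB1_mk1 {V : Type} [Fintype V] [DecidableEq V] (G : SimpleGraph V) (u w z : V) :
    mk1 G u w z < 8 := by
  unfold mk1
  split_ifs <;> omega

private lemma PKB1_pull {ι κ : Type} (s : Finset ι) (S : Finset κ) (f : ι → κ → ℝ) (g : ι → ℝ)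
    (h : ∀ i ∈ s, g i = ∑ a ∈ S, f i a) : ∑ i ∈ s, g i = ∑ a ∈ S, ∑ i ∈ s, f i a := by
  rw [sum_congr rfl h, sum_comm]

theorem pr_PKB1 : PKB1 := by
  intro V _ _ G x Y ⟨s, b, hb⟩ u
  refine ⟨s, fun a w => ∑ z, ∑ c ∈ range 3, b a (8 * c + mk1 G u w z) * X1 x u w z c, ?_⟩
  intro w w'
  have h1 : Bk1 G x (fun a b => (Y a b : ℝ)) u w w' =
      ∑ a ∈ range s, ∑ z, ∑ z', ∑ c ∈ range 3, ∑ c' ∈ range 3,
        (b a (8 * c + mk1 G u w z) * X1 x u w z c) *
          (b a (8 * c' + mk1 G u w' z') * X1 x u w' z' c') := by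
    unfold Bk1
    refine PKB1_pull _ _ _ _ fun z _ => PKB1_pull _ _ _ _ fun z' _ => PKB1_pull _ _ _ _
      fun c hc => PKB1_pull _ _ _ _ fun c' hc' => ?_
    have e1 := PKB1_mk1 G u w z
    have e2 := PKB1_mk1 G u w' z'
    rw [mem_range] at hc hc'
    beta_reduce
    rw [hb _ (by omega) _ (by omega), sum_mul, sum_mul]
    exact sum_congr rfl fun a _ => by ring
  rw [h1]
  refine sum_congr rfl fun a _ => ?_
  rw [sum_mul_sum]
  refine sum_congr rfl fun z _ => sum_congr rfl fun z' _ => ?_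
  rw [sum_mul_sum]

end Pool.Agent.Work.MP_f94384_co.Flag
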