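import Pool.Agent.Work.MP_f94384_co.Flag.Stmts

/-!
# Item RED: restriction to a subset of the vertices
-/

set_option autoImplicit false

open Finset

namespace Pool.Agent.Work.MP_f94384_co.Flag

theorem red_W {V : Type} [Fintype V] [DecidableEq V] (G : SimpleGraph V) (S : Finset V)
    (a b : {v // v ∈ S}) :
    W (G.comap (Subtype.val : {v // v ∈ S} → V)) a b = W G a.1 b.1 := by
  unfold W
  by_cases h : G.Adj a.1 b.1
  · rw [if_pos h, if_pos (show (G.comap (Subtype.val : {v // v ∈ S} → V)).Adj a b from h)]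
  · rw [if_neg h, if_neg (show ¬ (G.comap (Subtype.val : {v // v ∈ S} → V)).Adj a b from h)]

theorem red_qf {V : Type} [Fintype V] [DecidableEq V] (G : SimpleGraph V) (S : Finset V)
    (g : V → ℝ) :
    qf (G.comap (Subtype.val : {v // v ∈ S} → V)) univ (fun a => g a.1) = qf G S g := by
  rw [qf_eq, qf_eq]
  rw [← Finset.sum_coe_sort S (fun u => ∑ v ∈ S, W G u v * g u * g v)]
  refine Finset.sum_congr rfl fun a _ => ?_
  rw [← Finset.sum_coe_sort S (fun v => W G a.1 v * g a.1 * g v)]
  refine Finset.sum_congr rfl fun b _ => ?_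
  rw [red_W]

theorem red_sq {V : Type} [Fintype V] [DecidableEq V] (S : Finset V)
    (g : V → ℝ) :
    sq (univ : Finset {v // v ∈ S}) (fun a => g a.1) = sq S g := by
  unfold sq
  rw [← Finset.sum_coe_sort S (fun u => g u ^ 2)]

theorem pr_RED : RED := by
  intro r f h V _ _ G S μ hS hμ g
  have hfree : (G.comap (Subtype.val : {v // v ∈ S} → V)).CliqueFree (r + 1) := by
    intro t ht
    apply hS (t := t.map ⟨Subtype.val, Subtype.val_injective⟩)
    · intro u hu
      rw [Finset.mem_coe, Finset.mem_map] at hu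
      obtain ⟨a, _, rfl⟩ := hu
      exact a.2
    · constructor
      · intro u hu v hv huv
        rw [Finset.mem_coe, Finset.mem_map] at hu hv
        obtain ⟨a, ha, rfl⟩ := hu
        obtain ⟨b, hb, rfl⟩ := hv
        exact ht.1 ha hb fun hab => huv (by rw [hab])
      · rw [Finset.card_map]
        exact ht.2
  have hext : ∀ g2 : {v // v ∈ S} → ℝ, ∃ g' : V → ℝ, g2 = fun a => g' a.1 := by
    intro g2
    refine ⟨fun v => if hv : v ∈ S then g2 ⟨v, hv⟩ else 0, ?_⟩
    funext a
    simp
  have key := h {v // v ∈ S} (G.comap Subtype.val) μ hfree (by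
    intro g2
    obtain ⟨g', rfl⟩ := hext g2
    rw [red_qf, red_sq]
    exact hμ g') (fun a => g a.1)
  rw [red_qf, red_sq, Fintype.card_coe] at key
  exact key

end Pool.Agent.Work.MP_f94384_co.Flag
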