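import Pool.Agent.Work.MP_f94384_co.Flag.Stmts

set_option autoImplicit false

open Finset

namespace Pool.Agent.Work.MP_f94384_co.Flag

theorem pr_STR : STR := by
  intro k V _ _ G x Y v
  have hpat : ∀ i j, pat G (fun _ : Fin k => v) i j = false := by
    intro i j
    unfold pat
    split_ifs
    · simp
    · rfl
  have hcdm : cdm G (fun _ : Fin k => v) v = 0 := by
    unfold cdm
    simp
  have hX : ∀ c, X x (fun _ : Fin k => v) v c = x v := by
    intro c
    unfold X
    split_ifs <;> rfl
  refine ⟨?_, ?_⟩
  · unfold enc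
    refine Finset.sum_eq_zero fun j _ => Finset.sum_eq_zero fun i _ => ?_
    rw [hpat]
    simp
  · unfold Bk
    rw [Finset.mul_sum]
    refine Finset.sum_congr rfl fun c _ => ?_
    rw [Finset.mul_sum]
    refine Finset.sum_congr rfl fun c' _ => ?_
    rw [hcdm, hX, hX, add_zero, add_zero]
    ring

end Pool.Agent.Work.MP_f94384_co.Flag
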