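import Pool.Agent.Work.MP_f94384_co.Flag.Stmts

/-!
# Item TBF: evaluation of the bilinear part
-/

set_option autoImplicit false

open Finset

namespace Pool.Agent.Work.MP_f94384_co.Flag

theorem tbf_key {N : ℕ} (s : Finset ℕ) (P P' : ℕ → ℕ) (Z : ℕ → ℕ → ℝ) (y : Fin N → ℝ)
    (u u' : ℕ → ℝ)
    (h : ∀ c ∈ s, ∃ i : Fin N, (i : ℕ) = P c ∧ y i = u c)
    (h' : ∀ c ∈ s, ∃ i : Fin N, (i : ℕ) = P' c ∧ y i = u' c) :
    ∑ i : Fin N, ∑ j : Fin N,
      (∑ c ∈ s, ∑ c' ∈ s, if (i : ℕ) = P c ∧ (j : ℕ) = P' c' then Z c c' else 0) * y i * y j =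
    ∑ c ∈ s, ∑ c' ∈ s, Z c c' * u c * u' c' := by
  have h1 : ∀ i j : Fin N,
      (∑ c ∈ s, ∑ c' ∈ s, if (i : ℕ) = P c ∧ (j : ℕ) = P' c' then Z c c' else 0) * y i * y j =
      ∑ c ∈ s, ∑ c' ∈ s,
        (if (i : ℕ) = P c ∧ (j : ℕ) = P' c' then Z c c' else 0) * y i * y j := by
    intro i j
    rw [Finset.sum_mul, Finset.sum_mul]
    refine Finset.sum_congr rfl fun c _ => ?_
    rw [Finset.sum_mul, Finset.sum_mul]
  have h2 : ∑ i : Fin N, ∑ j : Fin N,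
      (∑ c ∈ s, ∑ c' ∈ s, if (i : ℕ) = P c ∧ (j : ℕ) = P' c' then Z c c' else 0) * y i * y j =
      ∑ c ∈ s, ∑ c' ∈ s, ∑ i : Fin N, ∑ j : Fin N,
        (if (i : ℕ) = P c ∧ (j : ℕ) = P' c' then Z c c' else 0) * y i * y j := by
    calc _ = ∑ i : Fin N, ∑ j : Fin N, ∑ c ∈ s, ∑ c' ∈ s,
        (if (i : ℕ) = P c ∧ (j : ℕ) = P' c' then Z c c' else 0) * y i * y j :=
          Finset.sum_congr rfl fun i _ => Finset.sum_congr rfl fun j _ => h1 i j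
      _ = ∑ i : Fin N, ∑ c ∈ s, ∑ j : Fin N, ∑ c' ∈ s,
        (if (i : ℕ) = P c ∧ (j : ℕ) = P' c' then Z c c' else 0) * y i * y j :=
          Finset.sum_congr rfl fun i _ => Finset.sum_comm
      _ = ∑ i : Fin N, ∑ c ∈ s, ∑ c' ∈ s, ∑ j : Fin N,
        (if (i : ℕ) = P c ∧ (j : ℕ) = P' c' then Z c c' else 0) * y i * y j :=
          Finset.sum_congr rfl fun i _ => Finset.sum_congr rfl fun c _ => Finset.sum_comm
      _ = ∑ c ∈ s, ∑ i : Fin N, ∑ c' ∈ s, ∑ j : Fin N,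
        (if (i : ℕ) = P c ∧ (j : ℕ) = P' c' then Z c c' else 0) * y i * y j :=
          Finset.sum_comm
      _ = _ := Finset.sum_congr rfl fun c _ => Finset.sum_comm
  rw [h2]
  refine Finset.sum_congr rfl fun c hc => Finset.sum_congr rfl fun c' hc' => ?_
  obtain ⟨i0, hi0, hy⟩ := h c hc
  obtain ⟨j0, hj0, hy'⟩ := h' c' hc'
  rw [Finset.sum_eq_single i0, Finset.sum_eq_single j0]
  · rw [if_pos ⟨hi0, hj0⟩, hy, hy']
  · intro j _ hj
    rw [if_neg, zero_mul, zero_mul]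
    rintro ⟨_, h4⟩
    exact hj (Fin.ext (h4.trans hj0.symm))
  · intro h3
    exact absurd (Finset.mem_univ _) h3
  · intro i _ hi
    refine Finset.sum_eq_zero fun j _ => ?_
    rw [if_neg, zero_mul, zero_mul]
    rintro ⟨h4, _⟩
    exact hi (Fin.ext (h4.trans hi0.symm))
  · intro h3
    exact absurd (Finset.mem_univ _) h3

theorem tbf_ext_root {V : Type} {k : ℕ} (ρ : Fin k → V) (w w' : V) (c : ℕ) (hc : c < k) :
    ext ρ w w' ⟨c, by omega⟩ = ρ ⟨c, hc⟩ := by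
  have e1 : (⟨c, by omega⟩ : Fin (k + 2)) = Fin.castSucc (Fin.castSucc (⟨c, hc⟩ : Fin k)) := rfl
  unfold ext
  rw [e1, Fin.snoc_castSucc, Fin.snoc_castSucc]

theorem tbf_ext_w {V : Type} {k : ℕ} (ρ : Fin k → V) (w w' : V) :
    ext ρ w w' ⟨k, by omega⟩ = w := by
  have e1 : (⟨k, by omega⟩ : Fin (k + 2)) = Fin.castSucc (Fin.last k) := rfl
  unfold ext
  rw [e1, Fin.snoc_castSucc, Fin.snoc_last]

theorem tbf_ext_w' {V : Type} {k : ℕ} (ρ : Fin k → V) (w w' : V) :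
    ext ρ w w' ⟨k + 1, by omega⟩ = w' := by
  have e1 : (⟨k + 1, by omega⟩ : Fin (k + 2)) = Fin.last (k + 1) := rfl
  unfold ext
  rw [e1, Fin.snoc_last]

theorem tbf_pos_k {V : Type} (x : V → ℝ) {k : ℕ} (ρ : Fin k → V) (w w' : V) :
    ∀ c ∈ range (k + 1), ∃ i : Fin (k + 2), (i : ℕ) = pos k k c ∧
      x (ext ρ w w' i) = X x ρ w c := by
  intro c hc
  rw [Finset.mem_range] at hc
  by_cases h : c = k
  · subst h
    refine ⟨⟨c, by omega⟩, ?_, ?_⟩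
    · simp [pos]
    · rw [tbf_ext_w]
      simp [X]
  · have h1 : c < k := by omega
    refine ⟨⟨c, by omega⟩, ?_, ?_⟩
    · simp [pos, h]
    · rw [tbf_ext_root ρ w w' c h1]
      simp [X, h1]

theorem tbf_pos_k1 {V : Type} (x : V → ℝ) {k : ℕ} (ρ : Fin k → V) (w w' : V) :
    ∀ c ∈ range (k + 1), ∃ i : Fin (k + 2), (i : ℕ) = pos k (k + 1) c ∧
      x (ext ρ w w' i) = X x ρ w' c := by
  intro c hc
  rw [Finset.mem_range] at hc
  by_cases h : c = k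
  · subst h
    refine ⟨⟨c + 1, by omega⟩, ?_, ?_⟩
    · simp [pos]
    · rw [tbf_ext_w']
      simp [X]
  · have h1 : c < k := by omega
    refine ⟨⟨c, by omega⟩, ?_, ?_⟩
    · simp [pos, h]
    · rw [tbf_ext_root ρ w w' c h1]
      simp [X, h1]

/-- Item TBF. -/
theorem pr_TBF : PAT → TBF := by
  intro hP k V _ _ G x Y ρ w w'
  obtain ⟨m1, m2, -, -, -, -⟩ := hP k V G ρ w w'
  constructor
  · unfold TB Bk
    rw [m1, m2]
    exact tbf_key (range (k + 1)) (pos k k) (pos k (k + 1))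
      (fun c c' => Y (2 ^ k * c + cdm G ρ w) (2 ^ k * c' + cdm G ρ w'))
      (fun i => x (ext ρ w w' i)) (X x ρ w) (X x ρ w')
      (tbf_pos_k x ρ w w') (tbf_pos_k1 x ρ w w')
  · unfold TB Bk
    rw [m1]
    exact tbf_key (range (k + 1)) (pos k k) (pos k k)
      (fun c c' => Y (2 ^ k * c + cdm G ρ w) (2 ^ k * c' + cdm G ρ w))
      (fun i => x (ext ρ w w' i)) (X x ρ w) (X x ρ w)
      (tbf_pos_k x ρ w w') (tbf_pos_k x ρ w w')

end Pool.Agent.Work.MP_f94384_co.Flag
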