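import Pool.Agent.Work.MP_f94384_co.Flag.Stmts

/-!
# Pattern sum certificates: item TLF (evaluation of the part with the eigenvalue)
-/

set_option autoImplicit false

open Finset

namespace Pool.Agent.Work.MP_f94384_co.Flag

namespace ItTLF

/-- the point with the weight `c` -/
def pt {V : Type} {k : ℕ} (ρ : Fin k → V) (w : V) (c : ℕ) : V :=
  if h : c < k then ρ ⟨c, h⟩ else w

theorem ext_last {V : Type} {k : ℕ} (ρ : Fin k → V) (w w' : V) (h : k + 1 < k + 2) :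
    ext ρ w w' ⟨k + 1, h⟩ = w' := by
  unfold ext
  have h1 : (⟨k + 1, h⟩ : Fin (k + 2)) = Fin.last (k + 1) := rfl
  rw [h1, Fin.snoc_last]

theorem ext_pt {V : Type} {k : ℕ} (ρ : Fin k → V) (w w' : V) (c : ℕ) (hc : c < k + 1)
    (h : c < k + 2) : ext ρ w w' ⟨c, h⟩ = pt ρ w c := by
  unfold ext pt
  have h1 : (⟨c, h⟩ : Fin (k + 2)) = Fin.castSucc ⟨c, hc⟩ := rfl
  rw [h1, Fin.snoc_castSucc]
  by_cases hk : c < k
  · rw [dif_pos hk]
    have h2 : (⟨c, hc⟩ : Fin (k + 1)) = Fin.castSucc ⟨c, hk⟩ := rfl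
    rw [h2, Fin.snoc_castSucc]
  · rw [dif_neg hk]
    have hck : c = k := by omega
    subst hck
    have h2 : (⟨c, hc⟩ : Fin (c + 1)) = Fin.last c := rfl
    rw [h2, Fin.snoc_last]

theorem sum_single' {N : ℕ} (f : Fin N → ℝ) (a b : ℕ) (ha : a < N) (hb : b < N) (P : Prop)
    [Decidable P] (y : ℝ) :
    ∑ i : Fin N, ∑ j : Fin N, (if (i : ℕ) = a ∧ (j : ℕ) = b ∧ P then y else 0) * f i * f j =
      (if P then y else 0) * f ⟨a, ha⟩ * f ⟨b, hb⟩ := by
  rw [Finset.sum_eq_single ⟨a, ha⟩]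
  · rw [Finset.sum_eq_single ⟨b, hb⟩]
    · simp
    · intro j _ hj
      rw [if_neg, zero_mul, zero_mul]
      rintro ⟨-, h, -⟩
      exact hj (Fin.ext h)
    · intro h
      exact absurd (Finset.mem_univ _) h
  · intro i _ hi
    apply Finset.sum_eq_zero
    intro j _
    rw [if_neg, zero_mul, zero_mul]
    rintro ⟨h, -, -⟩
    exact hi (Fin.ext h)
  · intro h
    exact absurd (Finset.mem_univ _) h

theorem swap4 {N : ℕ} (s t : Finset ℕ) (F : Fin N → Fin N → ℕ → ℕ → ℝ) :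
    ∑ i, ∑ j, ∑ c ∈ s, ∑ c' ∈ t, F i j c c' = ∑ c ∈ s, ∑ c' ∈ t, ∑ i, ∑ j, F i j c c' := by
  calc ∑ i, ∑ j, ∑ c ∈ s, ∑ c' ∈ t, F i j c c'
      = ∑ i, ∑ c ∈ s, ∑ j, ∑ c' ∈ t, F i j c c' :=
        Finset.sum_congr rfl fun i _ => Finset.sum_comm
    _ = ∑ c ∈ s, ∑ i, ∑ j, ∑ c' ∈ t, F i j c c' := Finset.sum_comm
    _ = ∑ c ∈ s, ∑ c' ∈ t, ∑ i, ∑ j, F i j c c' := Finset.sum_congr rfl fun c _ => by
        calc ∑ i, ∑ j, ∑ c' ∈ t, F i j c c'
            = ∑ i, ∑ c' ∈ t, ∑ j, F i j c c' :=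
              Finset.sum_congr rfl fun i _ => Finset.sum_comm
          _ = ∑ c' ∈ t, ∑ i, ∑ j, F i j c c' := Finset.sum_comm

theorem X_pt {V : Type} (x : V → ℝ) {k : ℕ} (ρ : Fin k → V) (w : V) (c : ℕ) :
    X x ρ w c = x (pt ρ w c) := by
  unfold X pt
  split_ifs <;> rfl

theorem step1 (hP : PAT) (k : ℕ) (V : Type) [Fintype V] [DecidableEq V] (G : SimpleGraph V)
    (x : V → ℝ) (Y : ℕ → ℕ → ℝ) (ρ : Fin k → V) (w w' : V) :
    ∑ i : Fin (k + 2), ∑ j : Fin (k + 2), TL k Y (pat G (ext ρ w w')) i j *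
      x (ext ρ w w' i) * x (ext ρ w w' j) =
    ∑ c ∈ range (k + 1), ∑ c' ∈ range (k + 1),
      Y (2 ^ k * c + cdm G ρ w) (2 ^ k * c' + cdm G ρ w) * X x ρ w c' *
        (W G (pt ρ w c) w' * x w') := by
  obtain ⟨h1, h2, h3, h4, h5, h6⟩ := hP k V G ρ w w'
  unfold TL
  rw [h1]
  simp only [Finset.sum_mul]
  rw [swap4]
  refine Finset.sum_congr rfl fun c hc => Finset.sum_congr rfl fun c' hc' => ?_
  rw [Finset.mem_range] at hc hc'
  have hpos : pos k k c = c := by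
    unfold pos
    split_ifs with h
    · exact h.symm
    · rfl
  have hpos' : pos k k c' = c' := by
    unfold pos
    split_ifs with h
    · exact h.symm
    · rfl
  rw [hpos, hpos']
  rw [sum_single' (fun i => x (ext ρ w w' i)) (k + 1) c' (by omega) (by omega)]
  rw [ext_last, ext_pt ρ w w' c' hc', X_pt]
  have hadj : pat G (ext ρ w w') c (k + 1) = true ↔ G.Adj (pt ρ w c) w' := by
    unfold pt
    by_cases hck : c < k
    · rw [dif_pos hck]
      exact (h6 ⟨c, hck⟩).2.2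
    · rw [dif_neg hck]
      have : c = k := by omega
      rw [this]
      exact h5
  unfold W
  by_cases hA : G.Adj (pt ρ w c) w'
  · rw [if_pos (hadj.mpr hA), if_pos hA]
    ring
  · rw [if_neg (fun h => hA (hadj.mp h)), if_neg hA]
    ring

end ItTLF

open ItTLF in
theorem pr_TLF : PAT → TLF := by
  intro hP k V _ _ G x l hE Y ρ w
  rw [Finset.sum_congr rfl fun w' _ => step1 hP k V G x Y ρ w w']
  rw [Finset.sum_comm]
  unfold Bk
  rw [Finset.mul_sum]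
  refine Finset.sum_congr rfl fun c _ => ?_
  rw [Finset.sum_comm, Finset.mul_sum]
  refine Finset.sum_congr rfl fun c' _ => ?_
  rw [← Finset.mul_sum]
  have h := hE (pt ρ w c)
  unfold deg at h
  rw [h, X_pt x ρ w c]
  ring

end Pool.Agent.Work.MP_f94384_co.Flag
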