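import Pool.Agent.Work.MP_f94384_co.Flag.Stmts

/-!
# Item TZF: the Perron equalities
-/

set_option autoImplicit false

open Finset

namespace Pool.Agent.Work.MP_f94384_co.Flag

section tzf

variable {V : Type}

/-- the point `a` of the roots and `w` -/
def tzpt {k : ℕ} (ρ : Fin k → V) (w : V) (a : ℕ) : V := if h : a < k then ρ ⟨a, h⟩ else w

theorem tz_ext_lt {k : ℕ} (ρ : Fin k → V) (w w' : V) (b : ℕ) (hb : b < k + 1)
    (hb' : b < k + 2) : ext ρ w w' ⟨b, hb'⟩ = tzpt ρ w b := by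
  have h1 : (⟨b, hb'⟩ : Fin (k + 2)) = Fin.castSucc (⟨b, hb⟩ : Fin (k + 1)) := rfl
  unfold ext tzpt
  rw [h1, Fin.snoc_castSucc]
  by_cases h : b < k
  · have h2 : (⟨b, hb⟩ : Fin (k + 1)) = Fin.castSucc (⟨b, h⟩ : Fin k) := rfl
    rw [h2, Fin.snoc_castSucc, dif_pos h]
  · have h2 : (⟨b, hb⟩ : Fin (k + 1)) = Fin.last k := by
      apply Fin.ext
      simp only [Fin.val_last]
      omega
    rw [h2, Fin.snoc_last, dif_neg h]

theorem tz_ext_last {k : ℕ} (ρ : Fin k → V) (w w' : V) :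
    ext ρ w w' (Fin.last (k + 1)) = w' := by
  unfold ext
  rw [Fin.snoc_last]

end tzf

theorem tz_sum (hP : PAT) (k : ℕ) (V : Type) [Fintype V] [DecidableEq V] (G : SimpleGraph V)
    (x : V → ℝ) (z : ℕ → ℕ → ℝ) (ρ : Fin k → V) (w w' : V) :
    ∑ i : Fin (k + 2), ∑ j : Fin (k + 2), TZ k z (pat G (ext ρ w w')) i j *
      x (ext ρ w w' i) * x (ext ρ w w' j) =
    ∑ a ∈ range (k + 1), ∑ b ∈ range (k + 1),
      z a b * x (tzpt ρ w b) * (W G (tzpt ρ w a) w' * x w') := by
  classical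
  obtain ⟨_, _, _, _, hk, hroots⟩ := hP k V G ρ w w'
  have hadj : ∀ a ∈ range (k + 1), (pat G (ext ρ w w') a (k + 1) = true ↔
      G.Adj (tzpt ρ w a) w') := by
    intro a ha
    rw [mem_range] at ha
    unfold tzpt
    by_cases h : a < k
    · rw [dif_pos h]
      exact (hroots ⟨a, h⟩).2.2
    · rw [dif_neg h]
      have : a = k := by omega
      rw [this]
      exact hk
  rw [Fin.sum_univ_castSucc]
  have h0 : ∑ i : Fin (k + 1), ∑ j : Fin (k + 2),
      TZ k z (pat G (ext ρ w w')) (Fin.castSucc i) j *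
        x (ext ρ w w' (Fin.castSucc i)) * x (ext ρ w w' j) = 0 := by
    apply Finset.sum_eq_zero
    intro i _
    apply Finset.sum_eq_zero
    intro j _
    have : TZ k z (pat G (ext ρ w w')) ((Fin.castSucc i : Fin (k + 2)) : ℕ) j = 0 := by
      unfold TZ
      apply Finset.sum_eq_zero
      intro a _
      apply Finset.sum_eq_zero
      intro b _
      rw [if_neg]
      rintro ⟨h, -⟩
      have := i.2
      simp only [Fin.val_castSucc] at h
      omega
    rw [this]
    ring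
  rw [h0, zero_add, tz_ext_last]
  have h1 : ∀ j : Fin (k + 2), TZ k z (pat G (ext ρ w w')) ((Fin.last (k + 1) : Fin (k + 2)) : ℕ) j *
      x w' * x (ext ρ w w' j) = ∑ a ∈ range (k + 1), ∑ b ∈ range (k + 1),
        (if (j : ℕ) = b then z a b * x (ext ρ w w' j) * (W G (tzpt ρ w a) w' * x w') else 0) := by
    intro j
    unfold TZ
    rw [Finset.sum_mul, Finset.sum_mul]
    apply Finset.sum_congr rfl
    intro a ha
    rw [Finset.sum_mul, Finset.sum_mul]
    apply Finset.sum_congr rfl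
    intro b _
    unfold W
    by_cases hj : (j : ℕ) = b
    · by_cases hA : G.Adj (tzpt ρ w a) w'
      · rw [if_pos ⟨by simp, hj, (hadj a ha).2 hA⟩, if_pos hj, if_pos hA]
        ring
      · rw [if_neg (fun h => hA ((hadj a ha).1 h.2.2)), if_pos hj, if_neg hA]
        ring
    · rw [if_neg (fun h => hj h.2.1), if_neg hj]
      ring
  rw [Finset.sum_congr rfl (fun j _ => h1 j), Finset.sum_comm]
  apply Finset.sum_congr rfl
  intro a _
  rw [Finset.sum_comm]
  apply Finset.sum_congr rfl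
  intro b hb
  rw [mem_range] at hb
  rw [Finset.sum_eq_single (⟨b, by omega⟩ : Fin (k + 2))]
  · rw [if_pos rfl, tz_ext_lt ρ w w' b hb]
  · intro j _ hj
    rw [if_neg]
    intro h
    exact hj (Fin.ext h)
  · intro h
    exact absurd (Finset.mem_univ _) h

/-- Item TZF. -/
theorem pr_TZF : PAT → TZF := by
  intro hP k V _ _ G x l hE z hz ρ w
  classical
  rw [Finset.sum_congr rfl (fun w' _ => tz_sum hP k V G x z ρ w w'), Finset.sum_comm]
  have h1 : ∀ a ∈ range (k + 1), ∑ w', ∑ b ∈ range (k + 1),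
      z a b * x (tzpt ρ w b) * (W G (tzpt ρ w a) w' * x w') =
      ∑ b ∈ range (k + 1), l * (z a b * x (tzpt ρ w a) * x (tzpt ρ w b)) := by
    intro a _
    rw [Finset.sum_comm]
    apply Finset.sum_congr rfl
    intro b _
    rw [← Finset.mul_sum]
    have h2 : ∑ w', W G (tzpt ρ w a) w' * x w' = l * x (tzpt ρ w a) := hE (tzpt ρ w a)
    rw [h2]
    ring
  rw [Finset.sum_congr rfl h1]
  have h3 : ∑ a ∈ range (k + 1), ∑ b ∈ range (k + 1),
      l * (z a b * x (tzpt ρ w a) * x (tzpt ρ w b)) =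
      - ∑ a ∈ range (k + 1), ∑ b ∈ range (k + 1),
      l * (z a b * x (tzpt ρ w a) * x (tzpt ρ w b)) := by
    nth_rewrite 1 [Finset.sum_comm]
    rw [← Finset.sum_neg_distrib]
    apply Finset.sum_congr rfl
    intro a _
    rw [← Finset.sum_neg_distrib]
    apply Finset.sum_congr rfl
    intro b _
    rw [hz b a]
    ring
  linarith

end Pool.Agent.Work.MP_f94384_co.Flag
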