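import Pool.Agent.Work.MP_f94384_co.Flag.P_SPLIT
import Pool.Agent.Work.MP_f94384_co.Flag.P_PAT
import Pool.Agent.Work.MP_f94384_co.Flag.P_TBF
import Pool.Agent.Work.MP_f94384_co.Flag.P_TLF
import Pool.Agent.Work.MP_f94384_co.Flag.P_TZF
import Pool.Agent.Work.MP_f94384_co.Flag.P_FU
import Pool.Agent.Work.MP_f94384_co.Flag.P_FE
import Pool.Agent.Work.MP_f94384_co.Flag.P_FQ
import Pool.Agent.Work.MP_f94384_co.Flag.P_FZ
import Pool.Agent.Work.MP_f94384_co.Flag.P_FT1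
import Pool.Agent.Work.MP_f94384_co.Flag.P_PKB
import Pool.Agent.Work.MP_f94384_co.Flag.P_PKB1
import Pool.Agent.Work.MP_f94384_co.Flag.P_LPK
import Pool.Agent.Work.MP_f94384_co.Flag.P_STR
import Pool.Agent.Work.MP_f94384_co.Flag.P_CAST
import Pool.Agent.Work.MP_f94384_co.Flag.P_CAST1
import Pool.Agent.Work.MP_f94384_co.Flag.P_RED

/-!
# Soundness of pattern sum certificates: assembly
-/

set_option autoImplicit false

open Finset

namespace Pool.Agent.Work.MP_f94384_co.Flag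

theorem h_FU : FU := pr_FU pr_SPLIT pr_PAT (pr_TBF pr_PAT)
theorem h_FE : FE := pr_FE pr_SPLIT pr_PAT (pr_TBF pr_PAT) (pr_TLF pr_PAT)
theorem h_FQ : FQ := pr_FQ pr_SPLIT pr_PAT (pr_TBF pr_PAT) (pr_TLF pr_PAT)
theorem h_FZ : FZ := pr_FZ pr_SPLIT pr_PAT (pr_TZF pr_PAT)

section

variable {V : Type} [Fintype V] [DecidableEq V]

theorem Phi_add (G : SimpleGraph V) (x : V → ℝ) (N : ℕ) (A B : (ℕ → ℕ → Bool) → ℕ → ℕ → ℝ) :
    Phi G x N (fun p i j => A p i j + B p i j) = Phi G x N A + Phi G x N B := by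
  unfold Phi
  rw [← sum_add_distrib]
  refine sum_congr rfl fun v _ => ?_
  rw [← sum_add_distrib]
  refine sum_congr rfl fun i _ => ?_
  rw [← sum_add_distrib]
  exact sum_congr rfl fun j _ => by ring

theorem Phi_sum (G : SimpleGraph V) (x : V → ℝ) (N : ℕ) (s : Finset ℕ)
    (A : ℕ → (ℕ → ℕ → Bool) → ℕ → ℕ → ℝ) :
    Phi G x N (fun p i j => ∑ a ∈ s, A a p i j) = ∑ a ∈ s, Phi G x N (A a) := by
  unfold Phi
  have h1 : ∀ v : Fin N → V, ∑ i : Fin N, ∑ j : Fin N,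
      (∑ a ∈ s, A a (pat G v) i j) * x (v i) * x (v j) =
      ∑ a ∈ s, ∑ i : Fin N, ∑ j : Fin N, A a (pat G v) i j * x (v i) * x (v j) := by
    intro v
    have h2 : ∀ i : Fin N, ∑ j : Fin N,
        (∑ a ∈ s, A a (pat G v) i j) * x (v i) * x (v j) =
        ∑ a ∈ s, ∑ j : Fin N, A a (pat G v) i j * x (v i) * x (v j) := by
      intro i
      rw [sum_comm]
      exact sum_congr rfl fun j _ => by rw [sum_mul, sum_mul]
    rw [sum_congr rfl fun i _ => h2 i, sum_comm]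
  rw [sum_congr rfl fun v _ => h1 v, sum_comm]

theorem nbh_cliqueFreeOn {G : SimpleGraph V} {r : ℕ} (hr : 1 ≤ r) (hG : G.CliqueFree (r + 1))
    (u : V) : G.CliqueFreeOn (nbh G u : Set V) (r - 1 + 1) := by
  classical
  intro t ht hk
  have hmem : ∀ v ∈ t, G.Adj u v := by
    intro v hv
    have := ht (Finset.mem_coe.2 hv)
    rw [Finset.mem_coe] at this
    simpa [nbh] using this
  have hut : u ∉ t := fun h => (hmem u h).ne rfl
  apply hG (insert u t)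
  have h2 := hk.insert hmem
  rwa [show r - 1 + 1 + 1 = r + 1 by omega] at h2

/-- the value of the eigenvalue squares is bounded below -/
theorem FE_pos {G : SimpleGraph V} {k : ℕ} {x : V → ℝ} {l μ m q : ℝ} (hm : 0 < m)
    (hx : ∃ v, x v ≠ 0)
    (hδ : 0 < m * l - q * (Fintype.card V : ℝ) - m * μ)
    (hμ : ∀ g, -μ * sq univ g ≤ qf G univ g) (E : ℕ → ℕ → ℕ → ℤ)
    (hE : ∀ t, PSDn ((k + 1) * 2 ^ k) (E t))
    (hS : 0 < ∑ c ∈ range (k + 1), ∑ c' ∈ range (k + 1), E 0 (2 ^ k * c) (2 ^ k * c')) :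
    0 < ∑ ρ : Fin k → V, (m * (∑ w, ∑ w', W G w w' *
        Bk G x (fun a b => (E (enc k (pat G ρ)) a b : ℝ)) ρ w w') +
      (m * l - q * (Fintype.card V : ℝ)) *
        ∑ w, Bk G x (fun a b => (E (enc k (pat G ρ)) a b : ℝ)) ρ w w) := by
  classical
  obtain ⟨v, hv⟩ := hx
  have key : ∀ ρ : Fin k → V, (m * l - q * (Fintype.card V : ℝ) - m * μ) *
      ∑ w, Bk G x (fun a b => (E (enc k (pat G ρ)) a b : ℝ)) ρ w w ≤
      m * (∑ w, ∑ w', W G w w' *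
        Bk G x (fun a b => (E (enc k (pat G ρ)) a b : ℝ)) ρ w w') +
      (m * l - q * (Fintype.card V : ℝ)) *
        ∑ w, Bk G x (fun a b => (E (enc k (pat G ρ)) a b : ℝ)) ρ w w := by
    intro ρ
    have h := (pr_LPK V G _ (pr_PKB k V G x _ (hE (enc k (pat G ρ))) ρ)).2.2.1 univ (-μ) hμ
    have h' := mul_le_mul_of_nonneg_left h hm.le
    nlinarith
  have nn : ∀ ρ : Fin k → V, 0 ≤
      ∑ w, Bk G x (fun a b => (E (enc k (pat G ρ)) a b : ℝ)) ρ w w := fun ρ =>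
    sum_nonneg fun w _ => (pr_LPK V G _ (pr_PKB k V G x _ (hE (enc k (pat G ρ))) ρ)).2.1 w
  have h1 : 0 < ∑ ρ : Fin k → V, (m * l - q * (Fintype.card V : ℝ) - m * μ) *
      ∑ w, Bk G x (fun a b => (E (enc k (pat G ρ)) a b : ℝ)) ρ w w := by
    refine sum_pos' (fun ρ _ => mul_nonneg hδ.le (nn ρ)) ⟨fun _ => v, mem_univ _, ?_⟩
    refine mul_pos hδ ?_
    refine sum_pos' (fun w _ => (pr_LPK V G _ (pr_PKB k V G x _ (hE _) _)).2.1 w)
      ⟨v, mem_univ _, ?_⟩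
    obtain ⟨e1, e2⟩ := pr_STR k V G x (fun a b => (E (enc k (pat G (fun _ : Fin k => v))) a b : ℝ)) v
    rw [e2, e1]
    have : (0 : ℝ) < ∑ c ∈ range (k + 1), ∑ c' ∈ range (k + 1),
        (E 0 (2 ^ k * c) (2 ^ k * c') : ℝ) := by exact_mod_cast hS
    have hv2 : 0 < x v ^ 2 := by positivity
    exact mul_pos hv2 this
  exact lt_of_lt_of_le h1 (sum_le_sum fun ρ _ => key ρ)

theorem FQ_nonneg {G : SimpleGraph V} {k r : ℕ} {x : V → ℝ} {l μ m q f : ℝ} (hm : 0 < m)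
    (hr : 1 ≤ r) (hG : G.CliqueFree (r + 1)) (hPB : PB (r - 1) (f / m))
    (hδ : 0 < m * l - q * (Fintype.card V : ℝ) - m * μ)
    (hμ : ∀ g, -μ * sq univ g ≤ qf G univ g) (Q : ℕ → ℕ → ℕ → ℤ)
    (hQ : ∀ t, PSDn ((k + 1) * 2 ^ k) (Q t)) (a : Fin k) :
    0 ≤ ∑ ρ : Fin k → V, (-(m * ∑ w ∈ nbh G (ρ a), ∑ w' ∈ nbh G (ρ a),
        W G w w' * Bk G x (fun c d => (Q (enc k (pat G ρ)) c d : ℝ)) ρ w w') +
      (m * l - q * (Fintype.card V : ℝ) + f * ((nbh G (ρ a)).card : ℝ)) *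
        ∑ w ∈ nbh G (ρ a), Bk G x (fun c d => (Q (enc k (pat G ρ)) c d : ℝ)) ρ w w) := by
  classical
  refine sum_nonneg fun ρ _ => ?_
  have hP := pr_LPK V G _ (pr_PKB k V G x _ (hQ (enc k (pat G ρ))) ρ)
  have h1 := hPB V G (nbh G (ρ a)) μ (nbh_cliqueFreeOn hr hG (ρ a))
    (fun g => psd_restrict G hμ _ g)
  have h2 := hP.2.2.2 (nbh G (ρ a)) _ h1
  have h3 := mul_le_mul_of_nonneg_left h2 hm.le
  have h4 : 0 ≤ ∑ w ∈ nbh G (ρ a), Bk G x (fun c d => (Q (enc k (pat G ρ)) c d : ℝ)) ρ w w :=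
    sum_nonneg fun w _ => hP.2.1 w
  have h5 : m * ((f / m * ((nbh G (ρ a)).card : ℝ) + μ) *
      ∑ w ∈ nbh G (ρ a), Bk G x (fun c d => (Q (enc k (pat G ρ)) c d : ℝ)) ρ w w) =
      (f * ((nbh G (ρ a)).card : ℝ) + m * μ) *
      ∑ w ∈ nbh G (ρ a), Bk G x (fun c d => (Q (enc k (pat G ρ)) c d : ℝ)) ρ w w := by
    field_simp
  rw [h5] at h3
  nlinarith [mul_nonneg hδ.le h4]

/-- the pattern sum of the table of a valid certificate is positive in the critical case -/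
theorem T_pos {G : SimpleGraph V} {k r : ℕ} {x : V → ℝ} {l μ : ℝ} {C : Cert ℤ} (hC : Good k C)
    (hr : 1 ≤ r) (hG : G.CliqueFree (r + 1)) (hPB : PB (r - 1) ((C.f : ℝ) / C.m))
    (hx : ∃ v, x v ≠ 0) (hE : Eig G x l)
    (hδ : 0 < (C.m : ℝ) * l - (C.q : ℝ) * (Fintype.card V : ℝ) - (C.m : ℝ) * μ)
    (hμ : ∀ g, -μ * sq univ g ≤ qf G univ g) :
    0 < Phi G x (k + 2) (fun p i j => ((T k C p i j : ℤ) : ℝ)) := by
  have hm : (0 : ℝ) < C.m := by exact_mod_cast hC.m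
  have e : (fun (p : ℕ → ℕ → Bool) (i j : ℕ) => ((T k C p i j : ℤ) : ℝ)) = fun p i j =>
      ((TU k (fun a b => (C.U (enc k p) a b : ℝ)) p i j +
        TE k (C.m : ℝ) (C.q : ℝ) (fun a b => (C.E (enc k p) a b : ℝ)) p i j) +
        ∑ a ∈ range k, TQ k (C.m : ℝ) (C.q : ℝ) (C.f : ℝ) a
          (fun c d => (C.Q (enc k p) a c d : ℝ)) p i j) +
      TZ k (fun a b => (C.Z (enc (k + 1) p) a b : ℝ)) p i j := by
    funext p i j
    exact pr_CAST k C p i j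
  rw [e, Phi_add, Phi_add, Phi_add, Phi_sum]
  have hZ := h_FZ k V G x l hE (fun h a b => (C.Z h a b : ℝ))
    (fun h a b => by exact_mod_cast hC.Z h a b)
  rw [hZ]
  have hU := h_FU k V G x (fun t a b => (C.U t a b : ℝ))
  have hU' : 0 ≤ Phi G x (k + 2) (fun p i j => TU k (fun a b => (C.U (enc k p) a b : ℝ)) p i j) := by
    rw [hU]
    exact sum_nonneg fun ρ _ => (pr_LPK V G _ (pr_PKB k V G x _ (hC.U (enc k (pat G ρ))) ρ)).1
  have hEE := h_FE k V G x l hE (C.m : ℝ) (C.q : ℝ) (fun t a b => (C.E t a b : ℝ))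
  have hE' := FE_pos (G := G) hm hx hδ hμ C.E hC.E hC.S
  rw [← hEE] at hE'
  have hQ' : 0 ≤ ∑ a ∈ range k, Phi G x (k + 2) (fun p i j =>
      TQ k (C.m : ℝ) (C.q : ℝ) (C.f : ℝ) a (fun c d => (C.Q (enc k p) a c d : ℝ)) p i j) := by
    refine sum_nonneg fun a ha => ?_
    have ha' : a < k := Finset.mem_range.1 ha
    have h := h_FQ k V G x l hE (C.m : ℝ) (C.q : ℝ) (C.f : ℝ) ⟨a, ha'⟩
      (fun t c d => (C.Q t a c d : ℝ))
    have h2 := FQ_nonneg (G := G) (x := x) hm hr hG hPB hδ hμ (fun t => C.Q t a)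
      (fun t => hC.Q t a) (⟨a, ha'⟩ : Fin k)
    rw [← h] at h2
    exact h2
  linarith

end

theorem setup {V : Type} [Fintype V] [DecidableEq V] (G : SimpleGraph V) {μ q m : ℝ} (hm : 0 < m)
    (h : ¬ ∀ g, qf G univ g ≤ (q / m * (Fintype.card V : ℝ) + μ) * sq univ g) :
    ∃ (x : V → ℝ) (l : ℝ), (∀ v, 0 ≤ x v) ∧ (∃ v, x v ≠ 0) ∧ Eig G x l ∧
      0 < m * l - q * (Fintype.card V : ℝ) - m * μ := by
  push Not at h
  obtain ⟨g, hg⟩ := h
  have hV : (univ : Finset V).Nonempty := by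
    rw [Finset.nonempty_iff_ne_empty]
    intro he
    have h1 : qf G univ g = 0 := by unfold qf; rw [he]; rfl
    have h2 : sq univ g = 0 := by unfold sq; rw [he]; rfl
    rw [h1, h2, mul_zero] at hg
    exact lt_irrefl _ hg
  obtain ⟨x, hx0, hx1, hmax⟩ := exists_max G hV
  refine ⟨x, qf G univ x, hx0, ?_, fun v => eigen_of_max G hx1 hmax (mem_univ v), ?_⟩
  · by_contra hne
    push Not at hne
    have : sq univ x = 0 := by
      unfold sq
      exact sum_eq_zero fun v _ => by rw [hne v]; ring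
    rw [this] at hx1
    norm_num at hx1
  · have h1 := hg.trans_le (hmax g)
    have h2 : q / m * (Fintype.card V : ℝ) + μ < qf G univ x :=
      lt_of_mul_lt_mul_right h1 (sq_nonneg' _ _)
    have h3 := mul_lt_mul_of_pos_left h2 hm
    have h4 : m * (q / m * (Fintype.card V : ℝ) + μ) = q * (Fintype.card V : ℝ) + m * μ := by
      field_simp
    rw [h4] at h3
    linarith

theorem pr_MAINU : MAINU := by
  intro k r C _ hr hC hN hPB V _ _ G μ hG hμ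
  by_contra h
  have hm : (0 : ℝ) < C.m := by exact_mod_cast hC.m
  obtain ⟨x, l, hx0, hx1, hE, hδ⟩ := setup G hm h
  exact absurd (hN V G x hx0 hG) (not_le.2 (T_pos hC hr hG hPB hx1 hE hδ hμ))

theorem pr_MAINU1 : MAINU1 := by
  intro r C Y hr hC hY hN hPB V _ _ G μ hG hμ
  by_contra h
  have hm : (0 : ℝ) < C.m := by exact_mod_cast hC.m
  obtain ⟨x, l, hx0, hx1, hE, hδ⟩ := setup G hm h
  have h1 := T_pos hC hr hG hPB hx1 hE hδ hμ
  have h2 : 0 ≤ Phi G x 5 (fun p i j => T1 (C.m : ℝ) (C.q : ℝ) (fun a b => (Y a b : ℝ)) p i j) := by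
    rw [pr_FT1 V G x l hE]
    refine sum_nonneg fun u _ => ?_
    have hP := pr_LPK V G _ (pr_PKB1 V G x Y hY u)
    have h3 := mul_le_mul_of_nonneg_left (hP.2.2.1 univ (-μ) hμ) hm.le
    have h4 : 0 ≤ ∑ w, Bk1 G x (fun a b => (Y a b : ℝ)) u w w := sum_nonneg fun w _ => hP.2.1 w
    nlinarith [mul_nonneg hδ.le h4]
  have h3 := hN V G x hx0 hG
  have e : (fun (p : ℕ → ℕ → Bool) (i j : ℕ) =>
      ((T 3 C p i j + T1 C.m C.q Y p i j : ℤ) : ℝ)) = fun p i j =>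
      ((T 3 C p i j : ℤ) : ℝ) + T1 (C.m : ℝ) (C.q : ℝ) (fun a b => (Y a b : ℝ)) p i j := by
    funext p i j
    rw [← pr_CAST1]
    push_cast
    rfl
  rw [e, Phi_add] at h3
  linarith

theorem main {k r : ℕ} {C : Cert ℤ} (hk : 1 ≤ k) (hr : 1 ≤ r) (hC : Good k C)
    (hN : NonPos r (k + 2) (T k C)) (hPB : PB (r - 1) ((C.f : ℝ) / C.m)) :
    PB r ((C.q : ℝ) / C.m) :=
  pr_RED r _ (pr_MAINU k r C hk hr hC hN hPB)

theorem main1 {r : ℕ} {C : Cert ℤ} {Y : ℕ → ℕ → ℤ} (hr : 1 ≤ r) (hC : Good 3 C)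
    (hY : PSDn 24 Y) (hN : NonPos r 5 (fun p i j => T 3 C p i j + T1 C.m C.q Y p i j))
    (hPB : PB (r - 1) ((C.f : ℝ) / C.m)) : PB r ((C.q : ℝ) / C.m) :=
  pr_RED r _ (pr_MAINU1 r C Y hr hC hY hN hPB)

end Pool.Agent.Work.MP_f94384_co.Flag
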