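import Pool.Agent.Work.MP_f94384_co.Flag.Red
import Pool.Agent.Work.MP_f94384_co.Flag.P_RED

/-!
# Comparison of the three forms of the bound `λ_1 + λ_n ≤ f n`
-/

set_option autoImplicit false

open Finset

namespace Pool.Agent.Work.MP_f94384_co.Flag

theorem PB_univ {r : ℕ} {f : ℝ} (h : PB r f) : PBu r f := by
  intro V _ _ G μ hG hμ g
  have := h V G univ μ (by
    intro t _ ht
    exact hG t ht) hμ g
  rwa [Finset.card_univ] at this

theorem PB_iff_PBu {r : ℕ} {f : ℝ} : PB r f ↔ PBu r f :=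
  ⟨PB_univ, pr_RED r f⟩

theorem PBu_iff_Red {r : ℕ} {f : ℝ} : PBu r f ↔ Red.PB r f :=
  ⟨fun h V _ _ G hG μ hμ g => h V G μ hG hμ g, fun h V _ _ G μ hG hμ g => h V G hG μ hμ g⟩

theorem PB_iff_Red {r : ℕ} {f : ℝ} : PB r f ↔ Red.PB r f := PB_iff_PBu.trans PBu_iff_Red

end Pool.Agent.Work.MP_f94384_co.Flag
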