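import Pool.Agent.Work.MP_f94384_co.Flag.Bridge
import Pool.Agent.Work.MP_f94384_co.Flag.Asm

/-!
# Base cases, induction and the extremal function
-/

set_option autoImplicit false

open Finset

namespace Pool.Agent.Work.MP_f94384_co.Flag

/-- base case: `r = 3` with the constant `7 / 18` -/
theorem PB3 : PB 3 (7 / 18) := by
  rw [PB_iff_Red]
  have h := Red.PB_explicit (r := 3) (by norm_num)
  have e : (1 - 2 / ((3 : ℕ) : ℝ) + 3 / (2 * ((3 : ℕ) : ℝ) ^ 3)) = 7 / 18 := by norm_num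
  rwa [e] at h

/-- the parametric certificate of order 4 -/
def CERT4 : Prop := ∀ r : ℕ, 5 ≤ r → ∃ C : Cert ℤ, Good 2 C ∧ NonPos r 4 (T 2 C) ∧
  C.m = (r : ℤ) * (r - 1) ∧ C.q = ((r : ℤ) - 1) * (r - 2) ∧ C.f = (r : ℤ) * (r - 3)

/-- step of the induction -/
theorem PB_step (h : CERT4) {r : ℕ} (hr : 5 ≤ r) (hPB : PB (r - 1) (1 - 2 / ((r - 1 : ℕ) : ℝ))) :
    PB r (1 - 2 / (r : ℝ)) := by
  obtain ⟨C, hC, hN, hm, hq, hf⟩ := h r hr
  have hr5 : (5 : ℝ) ≤ r := by exact_mod_cast hr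
  have e0 : ((r - 1 : ℕ) : ℝ) = (r : ℝ) - 1 := by
    rw [Nat.cast_sub (by omega)]; norm_num
  have h1 : (r : ℝ) ≠ 0 := by linarith
  have h2 : (r : ℝ) - 1 ≠ 0 := by
    intro h0
    linarith
  have e1 : (C.f : ℝ) / C.m = 1 - 2 / ((r - 1 : ℕ) : ℝ) := by
    rw [hf, hm, e0]
    push_cast
    field_simp
    ring
  have e2 : (C.q : ℝ) / C.m = 1 - 2 / (r : ℝ) := by
    rw [hq, hm]
    push_cast
    field_simp
    try ring
  rw [← e2]
  exact main (k := 2) (by norm_num) (by omega) hC hN (by rw [e1]; exact hPB)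

/-- the bound for all `r ≥ 4` -/
theorem PB_all (h : CERT4) (h4 : PB 4 (1 / 2)) {r : ℕ} (hr : 4 ≤ r) : PB r (1 - 2 / (r : ℝ)) := by
  induction r, hr using Nat.le_induction with
  | base =>
    have e : (1 - 2 / ((4 : ℕ) : ℝ)) = 1 / 2 := by norm_num
    rw [e]
    exact h4
  | succ r hr ih =>
    exact PB_step h (by omega) (by simpa using ih)

/-- upper bound for the extremal function -/
theorem f_le {r n : ℕ} {φ : ℝ} (h : PB r φ) (hr : 1 ≤ r) (hn : 1 ≤ n) : f r n ≤ φ * n :=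
  Red.f_upper_of_PB (PB_iff_Red.1 h) hr hn

theorem f_eq_of_dvd' {r n : ℕ} (h : PB r (1 - 2 / (r : ℝ))) (hr : 1 ≤ r) (hn : 1 ≤ n)
    (hd : r ∣ n) : f r n = (1 - 2 / (r : ℝ)) * n := by
  refine le_antisymm (f_le h hr hn) ?_
  obtain ⟨k, rfl⟩ := hd
  have hr0 : (0 : ℝ) < r := by
    have : 0 < r := by omega
    exact_mod_cast this
  have h1 := f_lower (r := r) (by omega) hn
  have h2 : (((r * k : ℕ) : ℝ)) / r = (k : ℝ) := by push_cast; field_simp
  rw [h2, Nat.ceil_natCast] at h1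
  refine le_trans (le_of_eq ?_) h1
  push_cast
  field_simp

theorem f_tendsto' {r : ℕ} (h : PB r (1 - 2 / (r : ℝ))) (hr : 1 ≤ r) :
    Filter.Tendsto (fun n : ℕ => f r n / n) Filter.atTop (nhds (1 - 2 / (r : ℝ))) := by
  have hr0 : (0 : ℝ) < r := by
    have : 0 < r := by omega
    exact_mod_cast this
  have hlow : Filter.Tendsto (fun n : ℕ => (1 - 2 / (r : ℝ)) - 2 / (n : ℝ)) Filter.atTop
      (nhds (1 - 2 / (r : ℝ))) := by
    have := (tendsto_const_nhds (x := (1 - 2 / (r : ℝ)))).sub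
      (tendsto_const_div_atTop_nhds_zero_nat (2 : ℝ))
    simpa using this
  refine tendsto_of_tendsto_of_tendsto_of_le_of_le' hlow tendsto_const_nhds ?_ ?_
  · filter_upwards [Filter.eventually_ge_atTop 1] with n hn
    have hn0 : (0 : ℝ) < n := by exact_mod_cast hn
    rw [le_div_iff₀ hn0]
    have h1 := f_lower (r := r) (by omega) hn
    have h2 : (⌈(n : ℝ) / r⌉₊ : ℝ) < (n : ℝ) / r + 1 := Nat.ceil_lt_add_one (by positivity)
    have h3 : ((1 - 2 / (r : ℝ)) - 2 / (n : ℝ)) * n = n - 2 * ((n : ℝ) / r + 1) := by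
      field_simp
      ring
    rw [h3]
    linarith
  · filter_upwards [Filter.eventually_ge_atTop 1] with n hn
    have hn0 : (0 : ℝ) < n := by exact_mod_cast hn
    rw [div_le_iff₀ hn0]
    exact f_le h hr hn

/-- the extremal function for all `r ≥ 4`, from the two certificates -/
theorem fin_all (h : CERT4) (h4 : PB 4 (1 / 2)) {r : ℕ} (hr : 4 ≤ r) :
    (∀ n, 1 ≤ n → IsGreatest (sums r n) (f r n) ∧
      (n : ℝ) - 2 * (⌈(n : ℝ) / r⌉₊ : ℝ) ≤ f r n ∧ f r n ≤ (1 - 2 / (r : ℝ)) * n ∧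
      (r ∣ n → f r n = (1 - 2 / (r : ℝ)) * n)) ∧
    Filter.Tendsto (fun n : ℕ => f r n / n) Filter.atTop (nhds (1 - 2 / (r : ℝ))) := by
  have hP := PB_all h h4 hr
  refine ⟨fun n hn => ⟨f_isGreatest (by omega) n, f_lower (by omega) hn,
    f_le hP (by omega) hn, fun hd => f_eq_of_dvd' hP (by omega) hn hd⟩,
    f_tendsto' hP (by omega)⟩

end Pool.Agent.Work.MP_f94384_co.Flag
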