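import Pool.Agent.Work.MP_f94384_co.Flag.Lin4
import Pool.Agent.Work.MP_f94384_co.Flag.Fin

/-!
# The parametric certificate of order 4
-/

set_option autoImplicit false
set_option linter.unusedSectionVars false

open Finset

namespace Pool.Agent.Work.MP_f94384_co.Flag

namespace Chk

theorem allCls_nil (N r r' : ℕ) (F : ℕ → ℕ → ℕ → ℤ) (rep : ℕ → ℕ) (tau : ℕ → ℕ → ℕ)
    (AUT : List (ℕ × List ℕ)) :
    allCls N r F rep tau AUT (fun _ => []) = allCls N r' F rep tau AUT (fun _ => []) := by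
  have h1 : ∀ s : ℕ, Nat.beq 0 (s + 1) = false := fun _ => rfl
  unfold allCls cliqB
  simp [h1]

theorem nonPos_F4 (r k : ℕ) (hK : allCls 4 4 (F4 k) rep4 tau4 AUT4 (fun _ => []) = true)
    (V : Type) [Fintype V] [DecidableEq V] (G : SimpleGraph V) (x : V → ℝ) (hx : ∀ v, 0 ≤ x v)
    (hG : G.CliqueFree (r + 1)) :
    ∑ c ∈ range (2 ^ tri 4), ∑ a : Fin 4, ∑ b : Fin 4, (F4 k c a b : ℝ) * Mom G x 4 c a b ≤ 0 := by
  have h1 : NonPos r 4 (fun p i j => F4 k (enc 4 p) i j) :=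
    nonPos_of_chk r _ (F4 k) rep4 tau4 AUT4 (fun _ => [])
      (fun c hc a _ b _ => by rw [enc_dec 4 c hc]) rel4 (by rw [allCls_nil 4 r 4]; exact hK)
  have h2 := h1 V G x hx hG
  rw [Phi_eq] at h2
  refine le_trans (le_of_eq ?_) h2
  refine Finset.sum_congr rfl fun c hc => Finset.sum_congr rfl fun a _ =>
    Finset.sum_congr rfl fun b _ => ?_
  beta_reduce
  rw [enc_dec 4 c (Finset.mem_range.1 hc)]

theorem C4_nonPos (r : ℕ) (t : ℤ) (ht : 0 ≤ t) : NonPos r 4 (T 2 (C4 t)) := by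
  intro V _ _ G x hx hG
  rw [Phi_eq]
  have ht' : (0 : ℝ) ≤ (t : ℝ) := by exact_mod_cast ht
  have h0 := nonPos_F4 r 0 cls0 V G x hx hG
  have h1 := nonPos_F4 r 1 cls1 V G x hx hG
  have h2 := nonPos_F4 r 2 cls2 V G x hx hG
  have h3 := nonPos_F4 r 3 cls3 V G x hx hG
  have h4 := nonPos_F4 r 4 cls4 V G x hx hG
  have key : ∑ c ∈ range (2 ^ tri 4), ∑ a : Fin 4, ∑ b : Fin 4,
      ((T 2 (C4 t) (dec 4 c) a b : ℤ) : ℝ) * Mom G x 4 c a b =
      ((t : ℝ) + 4) * ((∑ c ∈ range (2 ^ tri 4), ∑ a : Fin 4, ∑ b : Fin 4,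
        (F4 0 c a b : ℝ) * Mom G x 4 c a b) +
      (t : ℝ) * (∑ c ∈ range (2 ^ tri 4), ∑ a : Fin 4, ∑ b : Fin 4,
        (F4 1 c a b : ℝ) * Mom G x 4 c a b) +
      (t : ℝ) ^ 2 * (∑ c ∈ range (2 ^ tri 4), ∑ a : Fin 4, ∑ b : Fin 4,
        (F4 2 c a b : ℝ) * Mom G x 4 c a b) +
      (t : ℝ) ^ 3 * (∑ c ∈ range (2 ^ tri 4), ∑ a : Fin 4, ∑ b : Fin 4,
        (F4 3 c a b : ℝ) * Mom G x 4 c a b) +
      (t : ℝ) ^ 4 * (∑ c ∈ range (2 ^ tri 4), ∑ a : Fin 4, ∑ b : Fin 4,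
        (F4 4 c a b : ℝ) * Mom G x 4 c a b)) := by
    simp only [Finset.mul_sum, ← Finset.sum_add_distrib]
    refine Finset.sum_congr rfl fun c _ => Finset.sum_congr rfl fun a _ =>
      Finset.sum_congr rfl fun b _ => ?_
    rw [C4_table]
    unfold P5
    push_cast
    ring
  rw [key]
  have hp1 := mul_nonpos_of_nonneg_of_nonpos ht' h1
  have hp2 := mul_nonpos_of_nonneg_of_nonpos (pow_nonneg ht' 2) h2
  have hp3 := mul_nonpos_of_nonneg_of_nonpos (pow_nonneg ht' 3) h3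
  have hp4 := mul_nonpos_of_nonneg_of_nonpos (pow_nonneg ht' 4) h4
  refine mul_nonpos_of_nonneg_of_nonpos (by linarith) ?_
  linarith

theorem tab_psd {n : ℕ} {Y0 Y1 Y2 Y3 Y4 : List (List ℤ)} {P0 P1 P2 : Pc}
    (h : tabB n Y0 Y1 Y2 Y3 Y4 P0 P1 P2 = true) (h0 : P0.ok = true) (h1 : P1.ok = true)
    (h2 : P2.ok = true) (t : ℤ) (ht : 0 ≤ t) :
    PSDr n (fun a b => ((fn Y0 a b + t * fn Y1 a b + t ^ 2 * fn Y2 a b + t ^ 3 * fn Y3 a b +
      t ^ 4 * fn Y4 a b : ℤ) : ℝ)) := by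
  have e0 := pv_psd h0 n 0 P0.B0 P0.B1 t ht
  have e1 := pv_psd h1 n 1 P1.B0 P1.B1 t ht
  have e2 := pv_psd h2 n 2 P2.B0 P2.B1 t ht
  refine ((e0.add e1).add e2).congr fun a ha b hb => ?_
  unfold tabB at h
  rw [allB_iff] at h
  have h' := h a ha
  rw [allB_iff] at h'
  have h'' := h' b hb
  simp only [Bool.and_eq_true, decide_eq_true_eq] at h''
  obtain ⟨⟨⟨⟨c0, c1⟩, c2⟩, c3⟩, c4⟩ := h''
  have key : fn Y0 a b + t * fn Y1 a b + t ^ 2 * fn Y2 a b + t ^ 3 * fn Y3 a b +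
      t ^ 4 * fn Y4 a b = pv P0.m 0 P0.B0 P0.B1 P0.Z t a b + pv P1.m 1 P1.B0 P1.B1 P1.Z t a b +
        pv P2.m 2 P2.B0 P2.B1 P2.Z t a b := by
    rw [pv_eq n _ _ _ _ _ _ _ _ ha hb, pv_eq n _ _ _ _ _ _ _ _ ha hb,
      pv_eq n _ _ _ _ _ _ _ _ ha hb, c0, c1, c2, c3, c4]
    ring
  rw [key]
  push_cast
  rfl

theorem PSDn_iff (n : ℕ) (Y : ℕ → ℕ → ℤ) : PSDn n Y ↔ PSDr n (fun a b => (Y a b : ℝ)) := Iff.rfl

theorem psd_of5 {n : ℕ} (u t : ℤ) (hu : 0 ≤ u) (Y : ℕ → List (List ℤ))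
    (h : PSDr n (fun a b => ((fn (Y 0) a b + t * fn (Y 1) a b + t ^ 2 * fn (Y 2) a b +
      t ^ 3 * fn (Y 3) a b + t ^ 4 * fn (Y 4) a b : ℤ) : ℝ))) :
    PSDn n (fun a b => u * P5 t fun l => fn (Y l) a b) := by
  have hu' : (0 : ℝ) ≤ (u : ℝ) := by exact_mod_cast hu
  refine (h.smul hu').congr fun a _ b _ => ?_
  unfold P5
  push_cast
  ring

theorem psd_zero (n : ℕ) (u t : ℤ) (Y : ℕ → List (List ℤ)) (h : ∀ l, Y l = []) :
    PSDn n (fun a b => u * P5 t fun l => fn (Y l) a b) := by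
  refine (PSDr.zero n).congr fun a _ b _ => ?_
  simp [P5, h, fn_nil]

theorem nth_nil {α : Type} (d : α) (k : ℕ) : nth d [] k = d := by cases k <;> rfl

theorem nth_ge {α : Type} (d : α) (l : List α) (k : ℕ) (h : l.length ≤ k) : nth d l k = d := by
  induction l generalizing k with
  | nil => exact nth_nil d k
  | cons x l ih =>
    cases k with
    | zero => simp at h
    | succ k =>
      rw [nth]
      exact ih k (by simpa using h)

theorem len2 (L : List (List (List (List ℤ)))) (hL : L.all (fun x => Nat.ble x.length 2) = true)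
    (k h : ℕ) (hh : 2 ≤ h) : nth [] (nth [] L k) h = [] := by
  apply nth_ge
  refine le_trans ?_ hh
  induction L generalizing k with
  | nil => rw [nth_nil]; simp
  | cons x L ih =>
    rw [List.all_cons, Bool.and_eq_true] at hL
    cases k with
    | zero => exact Nat.le_of_ble_eq_true hL.1
    | succ k => exact ih hL.2 k

theorem C4_psdU (t : ℤ) (ht : 0 ≤ t) (h : ℕ) : PSDn ((2 + 1) * 2 ^ 2) ((C4 t).U h) := by
  have hU := okU0
  have hU1 := okU1
  simp only [Bool.and_eq_true] at hU hU1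
  rcases h with _ | _ | h
  · exact psd_of5 (t + 4) t (by omega) (fun l => Ut l 0)
      (tab_psd tU0 hU.1.1 hU.1.2 hU.2 t ht)
  · exact psd_of5 (t + 4) t (by omega) (fun l => Ut l 1)
      (tab_psd tU1 hU1.1.1 hU1.1.2 hU1.2 t ht)
  · exact psd_zero _ (t + 4) t (fun l => Ut l (h + 1 + 1))
      (fun l => len2 U4 (by decide +kernel) l _ (by omega))

theorem C4_psdE (t : ℤ) (ht : 0 ≤ t) (h : ℕ) : PSDn ((2 + 1) * 2 ^ 2) ((C4 t).E h) := by
  have hE := okE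
  have hQ := okQ1
  simp only [Bool.and_eq_true] at hE hQ
  rcases h with _ | _ | h
  · exact psd_of5 1 t (by omega) (fun l => Et l 0)
      (tab_psd (Y4 := Et 4 0) tE0 hE.1.1.1 hE.1.1.2 hQ.2 t ht)
  · exact psd_of5 1 t (by omega) (fun l => Et l 1)
      (tab_psd (Y4 := Et 4 1) tE1 hE.1.2 hE.2 hQ.2 t ht)
  · exact psd_zero _ 1 t (fun l => Et l (h + 1 + 1))
      (fun l => len2 E4 (by decide +kernel) l _ (by omega))

theorem C4_psdQ (t : ℤ) (ht : 0 ≤ t) (h n : ℕ) : PSDn ((2 + 1) * 2 ^ 2) ((C4 t).Q h n) := by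
  have hQ0 := okQ0
  have hQ := okQ1
  simp only [Bool.and_eq_true] at hQ0 hQ
  by_cases hn : n = 0
  · subst hn
    rcases h with _ | _ | h
    · exact psd_of5 (t + 4) t (by omega) (fun l => Qt l 0)
        (tab_psd (Y3 := Qt 3 0) (Y4 := Qt 4 0) tQ0 hQ0.1.1 hQ0.1.2 hQ0.2 t ht)
    · exact psd_of5 (t + 4) t (by omega) (fun l => Qt l 1)
        (tab_psd (Y3 := Qt 3 1) (Y4 := Qt 4 1) tQ1 hQ.1.1.1 hQ.1.1.2 hQ.1.2 t ht)
    · exact psd_zero _ (t + 4) t (fun l => Qt l (h + 1 + 1))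
        (fun l => len2 Q4 (by decide +kernel) l _ (by omega))
  · have : (C4 t).Q h n = fun _ _ => 0 := by
      funext a b
      change (if n = 0 then _ else 0) = _
      rw [if_neg hn]
    rw [this]
    refine (PSDr.zero _).congr fun a _ b _ => ?_
    simp

theorem zt_anti (k h a b : ℕ) : zt k h a b = -zt k h b a := by
  unfold zt
  by_cases h1 : h = 1
  · simp only [if_pos h1]
    by_cases h2 : a = 0 ∧ b = 2
    · obtain ⟨rfl, rfl⟩ := h2
      simp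
    · by_cases h3 : a = 2 ∧ b = 0
      · obtain ⟨rfl, rfl⟩ := h3
        simp
      · rw [if_neg h2, if_neg h3, if_neg (fun h => h3 ⟨h.2, h.1⟩), if_neg (fun h => h2 ⟨h.2, h.1⟩)]
        simp
  · by_cases h1' : h = 3
    · simp only [if_neg h1, if_pos h1']
      by_cases h2 : a = 0 ∧ b = 1
      · obtain ⟨rfl, rfl⟩ := h2
        simp
      · by_cases h3 : a = 1 ∧ b = 0
        · obtain ⟨rfl, rfl⟩ := h3
          simp
        · rw [if_neg h2, if_neg h3, if_neg (fun h => h3 ⟨h.2, h.1⟩),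
            if_neg (fun h => h2 ⟨h.2, h.1⟩)]
          simp
    · simp only [if_neg h1, if_neg h1']
      simp

theorem C4_good (t : ℤ) (ht : 0 ≤ t) : Good 2 (C4 t) where
  m := by
    change 0 < (t + 5) * (t + 4)
    positivity
  U := C4_psdU t ht
  E := C4_psdE t ht
  Q := C4_psdQ t ht
  Z h a b := by
    change (t + 4) * P5 t (fun l => zt l h a b) = -((t + 4) * P5 t (fun l => zt l h b a))
    unfold P5
    beta_reduce
    rw [zt_anti 0 h a b, zt_anti 1 h a b, zt_anti 2 h a b, zt_anti 3 h a b, zt_anti 4 h a b]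
    ring
  S := by
    change 0 < ∑ c ∈ range (2 + 1), ∑ c' ∈ range (2 + 1),
      1 * P5 t (fun l => fn (Et l 0) (2 ^ 2 * c) (2 ^ 2 * c'))
    have hs : ∀ l : ℕ, ∑ c ∈ range (2 + 1), ∑ c' ∈ range (2 + 1),
        fn (Et l 0) (2 ^ 2 * c) (2 ^ 2 * c') =
        sumN 3 fun c => sumN 3 fun c' => fn (Et l 0) (4 * c) (4 * c') := by
      intro l
      rw [sumN_eq]
      refine Finset.sum_congr rfl fun c _ => ?_
      rw [sumN_eq]
      rfl
    have e : ∑ c ∈ range (2 + 1), ∑ c' ∈ range (2 + 1),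
        1 * P5 t (fun l => fn (Et l 0) (2 ^ 2 * c) (2 ^ 2 * c')) =
        P5 t (fun l => sumN 3 fun c => sumN 3 fun c' => fn (Et l 0) (4 * c) (4 * c')) := by
      unfold P5
      beta_reduce
      rw [← hs 0, ← hs 1, ← hs 2, ← hs 3, ← hs 4]
      simp only [one_mul, Finset.sum_add_distrib, Finset.mul_sum]
    rw [e]
    have s0 : 0 < sumN 3 (fun c => sumN 3 fun c' => fn (Et 0 0) (4 * c) (4 * c')) := by
      decide +kernel
    have s1 : 0 ≤ sumN 3 (fun c => sumN 3 fun c' => fn (Et 1 0) (4 * c) (4 * c')) := by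
      decide +kernel
    have s2 : 0 ≤ sumN 3 (fun c => sumN 3 fun c' => fn (Et 2 0) (4 * c) (4 * c')) := by
      decide +kernel
    have s3 : 0 ≤ sumN 3 (fun c => sumN 3 fun c' => fn (Et 3 0) (4 * c) (4 * c')) := by
      decide +kernel
    have s4 : 0 ≤ sumN 3 (fun c => sumN 3 fun c' => fn (Et 4 0) (4 * c) (4 * c')) := by
      decide +kernel
    unfold P5
    have p1 := mul_nonneg ht s1
    have p2 := mul_nonneg (pow_nonneg ht 2) s2
    have p3 := mul_nonneg (pow_nonneg ht 3) s3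
    have p4 := mul_nonneg (pow_nonneg ht 4) s4
    linarith

end Chk

open Chk in
/-- the parametric certificate of order 4 exists for all `r ≥ 5` -/
theorem cert4 : CERT4 := by
  intro r hr
  have ht : (0 : ℤ) ≤ (r : ℤ) - 5 := by omega
  refine ⟨C4 ((r : ℤ) - 5), C4_good _ ht, C4_nonPos r _ ht, ?_, ?_, ?_⟩
  · change ((r : ℤ) - 5 + 5) * ((r : ℤ) - 5 + 4) = _
    ring
  · change ((r : ℤ) - 5 + 4) * ((r : ℤ) - 5 + 3) = _
    ring
  · change ((r : ℤ) - 5 + 5) * ((r : ℤ) - 5 + 2) = _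
    ring

end Pool.Agent.Work.MP_f94384_co.Flag
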