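import Pool.Agent.Work.MP_f94384_co.Flag.RelChk

/-!
# Relabelling data for patterns of order 4
-/

set_option autoImplicit false

namespace Pool.Agent.Work.MP_f94384_co.Flag

namespace Chk

/-- packed representatives -/
def REP4 : ℕ :=
  0xfdf7cf7cf3cb7cf3c778d3437cf78d3c73433cb3433433017de3cd3cd1c33cd2c334c0c13cd34c2c30c11c30c10c1040

/-- packed relabellings -/
def TAU4 : ℕ :=
  0x68821a41908b4582834434436110ca0d10d145821340b08b6502c265021a2d02d029828364264260a0ca2d02c22d021a6886884c14194c84584c84436816116810d14c84c84c14196886506886886882d04c8458688642681611688650688688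

/-- automorphisms of the representatives -/
def AUT4 : List (ℕ × List ℕ) :=
  [(0, [1672, 1224, 1616, 720, 1112, 664, 1665, 1217, 1553, 209, 1049, 153, 1602, 706, 1546, 202, 538, 90, 1091, 643, 1035, 139, 531, 83]),
   (1, [1672, 1224, 1665, 1217]),
   (3, [1672, 1616]),
   (7, [1672, 1616, 1665, 1553, 1602, 1546]),
   (11, [1672, 1224, 1616, 720, 1112, 664]),
   (12, [1672, 1616, 1217, 1049, 706, 538, 139, 83]),
   (13, [1672, 1217]),
   (15, [1672, 1616]),
   (30, [1672, 1224, 1665, 1217, 538, 90, 531, 83]),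
   (31, [1672, 1224, 1665, 1217]),
   (63, [1672, 1224, 1616, 720, 1112, 664, 1665, 1217, 1553, 209, 1049, 153, 1602, 706, 1546, 202, 538, 90, 1091, 643, 1035, 139, 531, 83])]

/-- representative of a code -/
def rep4 (c : ℕ) : ℕ := (REP4 >>> (6 * c)) % 64

/-- relabelling of a code -/
def tau4 (c i : ℕ) : ℕ := (TAU4 >>> (12 * c + 3 * i)) % 8

theorem rel4 : relB 4 rep4 tau4 AUT4 = true := by decide +kernel

end Chk

end Pool.Agent.Work.MP_f94384_co.Flag
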