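import Pool.Agent.Work.MP_f94384_co.Flag.Data4
import Pool.Agent.Work.MP_f94384_co.Flag.Rel4

/-!
# Kernel checks of the parametric certificate of order 4
-/

set_option autoImplicit false

open Finset

namespace Pool.Agent.Work.MP_f94384_co.Flag

namespace Chk

/-- rows of the table of the usual squares, power `k`, code `h` -/
def Ut (k h : ℕ) : List (List ℤ) := nth [] (nth [] U4 k) h
/-- eigenvalue squares -/
def Et (k h : ℕ) : List (List ℤ) := nth [] (nth [] E4 k) h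
/-- eigenvalue squares, shifted -/
def Et1 (k h : ℕ) : List (List ℤ) := nth [] (nth [] ([] :: E4) k) h
/-- induction squares -/
def Qt (k h : ℕ) : List (List ℤ) := nth [] (nth [] Q4 k) h
/-- induction squares, shifted -/
def Qt1 (k h : ℕ) : List (List ℤ) := nth [] (nth [] ([] :: Q4) k) h
/-- induction squares, shifted twice -/
def Qt2 (k h : ℕ) : List (List ℤ) := nth [] (nth [] ([] :: [] :: Q4) k) h
/-- multipliers of the Perron equalities -/
def zt (k h a b : ℕ) : ℤ :=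
  if h = 1 then
    (if a = 0 ∧ b = 2 then nth 0 (nth [] Z4 k) 0 else if a = 2 ∧ b = 0 then
      -nth 0 (nth [] Z4 k) 0 else 0)
  else if h = 3 then
    (if a = 0 ∧ b = 1 then nth 0 (nth [] Z4 k) 1 else if a = 1 ∧ b = 0 then
      -nth 0 (nth [] Z4 k) 1 else 0)
  else 0

/-- the coefficient of `t ^ k` of the table at a code, with the parts of the code -/
def G4 (k h h3 S S' m i j : ℕ) : ℤ :=
  cr 2 S S' (fn (Ut k h)) i j +
  (fE 2 S S' m 5 3 (fn (Et k h)) i j + fE 2 S S' m 1 1 (fn (Et1 k h)) i j) +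
  (fQ 2 S S' m 20 12 10 0 (fn (Qt k h)) i j + fQ 2 S S' m 9 7 7 0 (fn (Qt1 k h)) i j +
    fQ 2 S S' m 1 1 1 0 (fn (Qt2 k h)) i j) +
  fZ 2 m (zt k h3) i j

/-- the coefficient of `t ^ k` of the table at a code -/
def F4 (k c i j : ℕ) : ℤ :=
  G4 k (c % 2) (c % 8) ((c >>> 1) % 4) ((c >>> 3) % 4) (c >>> 3) i j

/-- check of a table with three pieces -/
def tabB (n : ℕ) (Y0 Y1 Y2 Y3 Y4 : List (List ℤ)) (P0 P1 P2 : Pc) : Bool :=
  allB n fun a => allB n fun b =>
    decide (fn Y0 a b = fn (prodT n P0.m P0.B0 P0.Z P0.B0) a b) &&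
    decide (fn Y1 a b = fn (prodT n P0.m P0.B0 P0.Z P0.B1) a b +
      fn (prodT n P0.m P0.B1 P0.Z P0.B0) a b + fn (prodT n P1.m P1.B0 P1.Z P1.B0) a b) &&
    decide (fn Y2 a b = fn (prodT n P0.m P0.B1 P0.Z P0.B1) a b +
      (fn (prodT n P1.m P1.B0 P1.Z P1.B1) a b + fn (prodT n P1.m P1.B1 P1.Z P1.B0) a b) +
      fn (prodT n P2.m P2.B0 P2.Z P2.B0) a b) &&
    decide (fn Y3 a b = fn (prodT n P1.m P1.B1 P1.Z P1.B1) a b +
      (fn (prodT n P2.m P2.B0 P2.Z P2.B1) a b + fn (prodT n P2.m P2.B1 P2.Z P2.B0) a b)) &&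
    decide (fn Y4 a b = fn (prodT n P2.m P2.B1 P2.Z P2.B1) a b)

/-- check of a piece -/
def Pc.ok (P : Pc) : Bool := psdB P.m P.Z P.L P.s

theorem okU0 : (pU00.ok && pU01.ok && pU02.ok) = true := by decide +kernel
theorem okU1 : (pU10.ok && pU11.ok && pU12.ok) = true := by decide +kernel
theorem okE : (pE00.ok && pE01.ok && pE10.ok && pE11.ok) = true := by decide +kernel
theorem okQ0 : (pQ00.ok && pQ01.ok && pQ02.ok) = true := by decide +kernel
theorem okQ1 : (pQ10.ok && pQ11.ok && pQ12.ok && pc0.ok) = true := by decide +kernel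

theorem tU0 : tabB 12 (Ut 0 0) (Ut 1 0) (Ut 2 0) (Ut 3 0) (Ut 4 0) pU00 pU01 pU02 = true := by
  decide +kernel
theorem tU1 : tabB 12 (Ut 0 1) (Ut 1 1) (Ut 2 1) (Ut 3 1) (Ut 4 1) pU10 pU11 pU12 = true := by
  decide +kernel
theorem tE0 : tabB 12 (Et 0 0) (Et 1 0) (Et 2 0) (Et 3 0) [] pE00 pE01 pc0 = true := by
  decide +kernel
theorem tE1 : tabB 12 (Et 0 1) (Et 1 1) (Et 2 1) (Et 3 1) [] pE10 pE11 pc0 = true := by
  decide +kernel
theorem tQ0 : tabB 12 (Qt 0 0) (Qt 1 0) (Qt 2 0) [] [] pQ00 pQ01 pQ02 = true := by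
  decide +kernel
theorem tQ1 : tabB 12 (Qt 0 1) (Qt 1 1) (Qt 2 1) [] [] pQ10 pQ11 pQ12 = true := by
  decide +kernel

theorem cls0 : allCls 4 4 (F4 0) rep4 tau4 AUT4 (fun _ => []) = true := by decide +kernel
theorem cls1 : allCls 4 4 (F4 1) rep4 tau4 AUT4 (fun _ => []) = true := by decide +kernel
theorem cls2 : allCls 4 4 (F4 2) rep4 tau4 AUT4 (fun _ => []) = true := by decide +kernel
theorem cls3 : allCls 4 4 (F4 3) rep4 tau4 AUT4 (fun _ => []) = true := by decide +kernel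
theorem cls4 : allCls 4 4 (F4 4) rep4 tau4 AUT4 (fun _ => []) = true := by decide +kernel

end Chk

end Pool.Agent.Work.MP_f94384_co.Flag
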