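import Pool.Agent.Work.MP_f94384_co.Flag.Defs

/-!
# Codes of patterns, and the pattern sum as a sum over codes
-/

set_option autoImplicit false
set_option linter.unusedSectionVars false
set_option linter.unusedDecidableInType false
set_option linter.unusedFintypeInType false

open Finset

namespace Pool.Agent.Work.MP_f94384_co.Flag

namespace Chk

/-- number with given bits -/
def bs (f : ℕ → Bool) (n : ℕ) : ℕ := ∑ i ∈ range n, if f i = true then 2 ^ i else 0

theorem bs_succ (f : ℕ → Bool) (n : ℕ) :
    bs f (n + 1) = bs f n + if f n = true then 2 ^ n else 0 := by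
  rw [bs, Finset.sum_range_succ]
  rfl

theorem bs_lt (f : ℕ → Bool) (n : ℕ) : bs f n < 2 ^ n := by
  induction n with
  | zero => simp [bs]
  | succ n ih =>
    rw [bs_succ, pow_succ]
    split_ifs <;> omega

theorem testBit_bs (f : ℕ → Bool) (n i : ℕ) : (bs f n).testBit i = (decide (i < n) && f i) := by
  induction n with
  | zero => simp [bs]
  | succ n ih =>
    rw [bs_succ]
    have hlt := bs_lt f n
    by_cases hf : f n = true
    · rw [if_pos hf, add_comm]
      have h2 := Nat.testBit_two_pow_mul_add 1 hlt i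
      rw [mul_one] at h2
      rw [h2]
      by_cases hi : i < n
      · rw [if_pos hi, ih]
        simp [hi, Nat.lt_succ_of_lt hi]
      · rw [if_neg hi]
        by_cases hi2 : i = n
        · subst hi2
          simp [hf]
        · have h3 : ¬ i < n + 1 := by omega
          have h4 : i - n ≠ 0 := by omega
          have h5 : (1 : ℕ).testBit (i - n) = false := by
            rw [Nat.testBit_one_eq_true_iff_self_eq_zero.not.2 h4 |> Bool.eq_false_iff.2]
          simp [h3, h5]
    · rw [if_neg hf, add_zero, ih]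
      by_cases hi2 : i = n
      · subst hi2
        simp [hf]
      · have : (i < n + 1) = (i < n) := by
          apply propext
          omega
        simp [this]

/-- number of pairs of `k` positions -/
def tri (k : ℕ) : ℕ := k * (k - 1) / 2

theorem tri_succ (k : ℕ) : tri (k + 1) = tri k + k := Nat.triangle_succ k

theorem enc_succ (k : ℕ) (p : ℕ → ℕ → Bool) :
    enc (k + 1) p = 2 ^ tri k * bs (fun i => p i k) k + enc k p := by
  rw [enc, Finset.sum_range_succ, add_comm]
  congr 1
  rw [bs, Finset.mul_sum]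
  refine Finset.sum_congr rfl fun i _ => ?_
  rw [pow_add]
  split_ifs
  · rfl
  · simp

theorem enc_lt (k : ℕ) (p : ℕ → ℕ → Bool) : enc k p < 2 ^ tri k := by
  induction k with
  | zero => simp [enc, tri]
  | succ k ih =>
    rw [enc_succ, tri_succ, pow_add]
    have h := bs_lt (fun i => p i k) k
    have h2 : 2 ^ tri k * bs (fun i => p i k) k + 2 ^ tri k ≤ 2 ^ tri k * 2 ^ k := by
      rw [← Nat.mul_succ]
      exact Nat.mul_le_mul_left _ h
    omega

theorem tri_mono {a b : ℕ} (h : a ≤ b) : tri a ≤ tri b := by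
  induction h with
  | refl => exact le_rfl
  | step _ ih => rw [Nat.succ_eq_add_one, tri_succ]; omega

theorem testBit_enc (k : ℕ) (p : ℕ → ℕ → Bool) (i j : ℕ) (hij : i < j) (hj : j < k) :
    (enc k p).testBit (tri j + i) = p i j := by
  induction k with
  | zero => omega
  | succ k ih =>
    rw [enc_succ, Nat.testBit_two_pow_mul_add _ (enc_lt k p)]
    by_cases hjk : j = k
    · subst hjk
      rw [if_neg (by omega), Nat.add_sub_cancel_left, testBit_bs]
      simp [hij]
    · have hj' : j < k := by omega
      have h1 : tri (j + 1) ≤ tri k := tri_mono hj'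
      rw [tri_succ] at h1
      rw [if_pos (by omega)]
      exact ih hj'

/-- bit position of a pair -/
def eid (i j : ℕ) : ℕ := if i < j then tri j + i else tri i + j

/-- the pattern with code `c` -/
def dec (N c : ℕ) (i j : ℕ) : Bool :=
  if i < N ∧ j < N ∧ i ≠ j then c.testBit (eid i j) else false

theorem dec_symm (N c i j : ℕ) : dec N c i j = dec N c j i := by
  unfold dec eid
  by_cases h : i = j
  · subst h; rfl
  · have h1 : (i < N ∧ j < N ∧ i ≠ j) = (j < N ∧ i < N ∧ j ≠ i) := by
      apply propext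
      tauto
    simp only [h1]
    have h2 : (if i < j then tri j + i else tri i + j) = if j < i then tri i + j else tri j + i := by
      split_ifs <;> omega
    rw [h2]

/-- patterns of `N` positions -/
structure IsPat (N : ℕ) (p : ℕ → ℕ → Bool) : Prop where
  symm : ∀ i j, p i j = p j i
  irr : ∀ i, p i i = false
  out : ∀ i j, N ≤ i → p i j = false

theorem IsPat.eq_dec {N : ℕ} {p : ℕ → ℕ → Bool} (h : IsPat N p) : p = dec N (enc N p) := by
  funext i j
  unfold dec
  by_cases hc : i < N ∧ j < N ∧ i ≠ j
  · rw [if_pos hc]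
    unfold eid
    by_cases hij : i < j
    · rw [if_pos hij, testBit_enc N p i j hij hc.2.1]
    · rw [if_neg hij, testBit_enc N p j i (by omega) hc.1, h.symm]
  · rw [if_neg hc]
    by_cases hi : i < N
    · by_cases hj : j < N
      · have : i = j := by
          by_contra hne
          exact hc ⟨hi, hj, hne⟩
        subst this
        exact h.irr i
      · rw [h.symm]
        exact h.out _ _ (by omega)
    · exact h.out _ _ (by omega)

theorem dec_isPat (N c : ℕ) : IsPat N (dec N c) where
  symm := dec_symm N c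
  irr i := by simp [dec]
  out i j hi := by
    unfold dec
    rw [if_neg]
    omega

/-- a bit of a number below `2 ^ tri N` is a pair -/
theorem exists_pair (N q : ℕ) (hq : q < tri N) : ∃ i j, i < j ∧ j < N ∧ q = tri j + i := by
  induction N with
  | zero => simp [tri] at hq
  | succ N ih =>
    by_cases h : q < tri N
    · obtain ⟨i, j, h1, h2, h3⟩ := ih h
      exact ⟨i, j, h1, by omega, h3⟩
    · rw [tri_succ] at hq
      exact ⟨q - tri N, N, by omega, by omega, by omega⟩

theorem enc_dec (N c : ℕ) (hc : c < 2 ^ tri N) : enc N (dec N c) = c := by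
  apply Nat.eq_of_testBit_eq
  intro q
  by_cases hq : q < tri N
  · obtain ⟨i, j, h1, h2, rfl⟩ := exists_pair N q hq
    rw [testBit_enc N _ i j h1 h2]
    unfold dec eid
    rw [if_pos ⟨by omega, h2, by omega⟩, if_pos h1]
  · have h1 : ∀ x : ℕ, x < 2 ^ tri N → x.testBit q = false := fun x hx =>
      Nat.testBit_lt_two_pow (lt_of_lt_of_le hx (Nat.pow_le_pow_right (by norm_num) (by omega)))
    rw [h1 _ (enc_lt N _), h1 _ hc]

theorem enc_congr {N : ℕ} {p p' : ℕ → ℕ → Bool} (h : ∀ i < N, ∀ j < N, p i j = p' i j) :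
    enc N p = enc N p' := by
  unfold enc
  refine Finset.sum_congr rfl fun j hj => Finset.sum_congr rfl fun i hi => ?_
  rw [Finset.mem_range] at hi hj
  rw [h i (by omega) j hj]

variable {V : Type} [Fintype V] [DecidableEq V]

theorem pat_isPat (G : SimpleGraph V) {N : ℕ} (v : Fin N → V) : IsPat N (pat G v) where
  symm i j := by
    unfold pat
    by_cases h : i < N ∧ j < N
    · rw [dif_pos h, dif_pos ⟨h.2, h.1⟩]
      exact decide_eq_decide.2 (G.adj_comm _ _)
    · rw [dif_neg h, dif_neg fun h' => h ⟨h'.2, h'.1⟩]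
  irr i := by
    unfold pat
    split_ifs <;> simp
  out i j hi := by
    unfold pat
    rw [dif_neg]
    omega

theorem pat_apply (G : SimpleGraph V) {N : ℕ} (v : Fin N → V) (i j : Fin N) :
    (pat G v i j = true) ↔ G.Adj (v i) (v j) := by
  unfold pat
  rw [dif_pos ⟨i.2, j.2⟩]
  simp

/-- code of a tuple -/
noncomputable def cd (G : SimpleGraph V) {N : ℕ} (v : Fin N → V) : ℕ := enc N (pat G v)

theorem cd_lt (G : SimpleGraph V) {N : ℕ} (v : Fin N → V) : cd G v < 2 ^ tri N := enc_lt _ _

theorem pat_eq_dec (G : SimpleGraph V) {N : ℕ} (v : Fin N → V) : pat G v = dec N (cd G v) :=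
  (pat_isPat G v).eq_dec

/-- moments -/
noncomputable def Mom (G : SimpleGraph V) (x : V → ℝ) (N c : ℕ) (a b : Fin N) : ℝ :=
  ∑ v ∈ univ.filter (fun v : Fin N → V => cd G v = c), x (v a) * x (v b)

theorem Mom_nonneg (G : SimpleGraph V) (x : V → ℝ) (hx : ∀ v, 0 ≤ x v) (N c : ℕ) (a b : Fin N) :
    0 ≤ Mom G x N c a b :=
  Finset.sum_nonneg fun _ _ => mul_nonneg (hx _) (hx _)

theorem Mom_symm (G : SimpleGraph V) (x : V → ℝ) (N c : ℕ) (a b : Fin N) :
    Mom G x N c a b = Mom G x N c b a :=
  Finset.sum_congr rfl fun _ _ => mul_comm _ _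

theorem Phi_eq (G : SimpleGraph V) (x : V → ℝ) (N : ℕ) (A : (ℕ → ℕ → Bool) → ℕ → ℕ → ℝ) :
    Phi G x N A = ∑ c ∈ range (2 ^ tri N), ∑ a : Fin N, ∑ b : Fin N,
      A (dec N c) a b * Mom G x N c a b := by
  classical
  unfold Phi
  rw [← Finset.sum_fiberwise_of_maps_to (s := univ) (t := range (2 ^ tri N))
    (g := fun v : Fin N → V => cd G v) (fun v _ => Finset.mem_range.2 (cd_lt G v))]
  refine Finset.sum_congr rfl fun c _ => ?_
  unfold Mom
  rw [Finset.sum_comm]
  refine Finset.sum_congr rfl fun a _ => ?_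
  rw [Finset.sum_comm]
  refine Finset.sum_congr rfl fun b _ => ?_
  rw [Finset.mul_sum]
  refine Finset.sum_congr rfl fun v hv => ?_
  rw [pat_eq_dec, (Finset.mem_filter.1 hv).2]
  ring

/-- `t` is a permutation of the positions below `N` -/
def PermOn (N : ℕ) (t : ℕ → ℕ) : Prop := ∃ σ : Equiv.Perm (Fin N), ∀ i : Fin N, t i = σ i

/-- code of the relabelled pattern -/
def act (N : ℕ) (t : ℕ → ℕ) (c : ℕ) : ℕ := enc N (fun i j => dec N c (t i) (t j))

theorem Mom_perm (G : SimpleGraph V) (x : V → ℝ) (N c g : ℕ) (hc : c < 2 ^ tri N)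
    (t : ℕ → ℕ) (σ : Equiv.Perm (Fin N)) (ht : ∀ i : Fin N, t i = σ i)
    (hg : act N t c = g) (a b : Fin N) :
    Mom G x N g a b = Mom G x N c (σ a) (σ b) := by
  classical
  symm
  unfold Mom
  refine Finset.sum_equiv (Equiv.arrowCongr σ.symm (Equiv.refl V)) (fun v => ?_) (fun v _ => ?_)
  · simp only [Finset.mem_filter, Finset.mem_univ, true_and]
    have hv : ∀ i j : Fin N, pat G ((Equiv.arrowCongr σ.symm (Equiv.refl V)) v) i j =
        pat G v (σ i) (σ j) := by
      intro i j
      rw [Bool.eq_iff_iff, pat_apply, pat_apply]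
      simp [Equiv.arrowCongr]
    constructor
    · intro h
      rw [← hg, act, cd]
      apply enc_congr
      intro i hi j hj
      rw [hv ⟨i, hi⟩ ⟨j, hj⟩, pat_eq_dec, h, ← ht, ← ht]
    · intro h
      have h1 : pat G ((Equiv.arrowCongr σ.symm (Equiv.refl V)) v) = dec N g := by
        rw [pat_eq_dec, h]
      rw [← enc_dec N c hc, cd]
      apply enc_congr
      intro i hi j hj
      have h2 := hv (σ.symm ⟨i, hi⟩) (σ.symm ⟨j, hj⟩)
      simp only [Equiv.apply_symm_apply] at h2
      rw [← h2, h1, ← hg, act]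
      have h3 : ∀ i j : Fin N, dec N (enc N (fun i j => dec N c (t i) (t j))) i j =
          dec N c (t i) (t j) := by
        intro i j
        rcases eq_or_ne i j with rfl | hij
        · rw [(dec_isPat N _).irr, (dec_isPat N _).irr]
        · have hij' : (i : ℕ) ≠ j := fun h => hij (Fin.ext h)
          conv_lhs => unfold dec
          rw [if_pos ⟨i.2, j.2, hij'⟩]
          unfold eid
          split_ifs with hlt
          · exact testBit_enc N _ _ _ hlt j.2
          · rw [testBit_enc N _ _ _ (by omega) i.2]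
            exact dec_symm _ _ _ _
      rw [h3, ht, ht]
      simp
  · simp [Equiv.arrowCongr]

end Chk

end Pool.Agent.Work.MP_f94384_co.Flag
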