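import Pool.Agent.Work.MP_f94384_co.Base

/-!
# Pattern sum certificates with Perron weights: definitions

`G` is a graph on `V`, `x` a nonnegative top eigenvector. A table `T` assigns to every pattern
`p : ℕ → ℕ → Bool` and positions `i j` a coefficient, and
`Phi G x N T = ∑ v : Fin N → V, ∑ i, ∑ j, T (pattern of v) i j * x (v i) * x (v j)`.

The first `k` coordinates of a tuple are the roots, `w = k` and `w' = k + 1` are the two further
points, `N = k + 2`. A row is a number `2 ^ k * c + s` where `c ≤ k` names the weight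
(`c < k`: the weight of the root `c`; `c = k`: the own weight of the point) and `s < 2 ^ k` is the
adjacency mask of the point to the roots.
-/

set_option autoImplicit false

open Finset

namespace Pool.Agent.Work.MP_f94384_co.Flag

/-- adjacency mask of the position `w` to the positions `0, ..., k-1` -/
def msk (k : ℕ) (p : ℕ → ℕ → Bool) (w : ℕ) : ℕ :=
  ∑ j ∈ range k, if p w j = true then 2 ^ j else 0

/-- code of the pattern on the positions `0, ..., k-1`; the pair `i < j` is the bit
`j (j-1) / 2 + i` -/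
def enc (k : ℕ) (p : ℕ → ℕ → Bool) : ℕ :=
  ∑ j ∈ range k, ∑ i ∈ range j, if p i j = true then 2 ^ (j * (j - 1) / 2 + i) else 0

/-- position of the weight `c` of the point `w` -/
def pos (k w c : ℕ) : ℕ := if c = k then w else c

section tables

variable {R : Type} [CommRing R]

/-- the bilinear part: rows of the point `w` against rows of the point `w'` -/
def TB (k w w' : ℕ) (Y : ℕ → ℕ → R) (p : ℕ → ℕ → Bool) (i j : ℕ) : R :=
  ∑ c ∈ range (k + 1), ∑ c' ∈ range (k + 1),
    if i = pos k w c ∧ j = pos k w' c' then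
      Y (2 ^ k * c + msk k p w) (2 ^ k * c' + msk k p w') else 0

/-- the part standing for the factor `lambda`: the weight `c` of the point `k` is replaced by the
weight of its neighbour `k + 1` -/
def TL (k : ℕ) (Y : ℕ → ℕ → R) (p : ℕ → ℕ → Bool) (i j : ℕ) : R :=
  ∑ c ∈ range (k + 1), ∑ c' ∈ range (k + 1),
    if i = k + 1 ∧ j = pos k k c' ∧ p (pos k k c) (k + 1) = true then
      Y (2 ^ k * c + msk k p k) (2 ^ k * c' + msk k p k) else 0

/-- usual squares -/
def TU (k : ℕ) (Y : ℕ → ℕ → R) (p : ℕ → ℕ → Bool) (i j : ℕ) : R := TB k k (k + 1) Y p i j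

/-- eigenvalue squares, multiplied by `m`; `q / m` is the constant -/
def TE (k : ℕ) (m q : R) (Y : ℕ → ℕ → R) (p : ℕ → ℕ → Bool) (i j : ℕ) : R :=
  (if p k (k + 1) = true then m * TB k k (k + 1) Y p i j else 0) + m * TL k Y p i j -
    q * TB k k k Y p i j

/-- induction squares in the neighbourhood of the root `a`, multiplied by `m`; `f / m` is the
constant of the induction hypothesis -/
def TQ (k : ℕ) (m q f : R) (a : ℕ) (Y : ℕ → ℕ → R) (p : ℕ → ℕ → Bool) (i j : ℕ) : R :=
  if p k a = true then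
    -(if p k (k + 1) = true ∧ p (k + 1) a = true then m * TB k k (k + 1) Y p i j else 0) +
      m * TL k Y p i j - q * TB k k k Y p i j +
      (if p (k + 1) a = true then f * TB k k k Y p i j else 0)
  else 0

/-- Perron equalities; `z` is antisymmetric -/
def TZ (k : ℕ) (z : ℕ → ℕ → R) (p : ℕ → ℕ → Bool) (i j : ℕ) : R :=
  ∑ a ∈ range (k + 1), ∑ b ∈ range (k + 1),
    if i = k + 1 ∧ j = b ∧ p a (k + 1) = true then z a b else 0

end tables

/-- A certificate of order `k + 2`: matrices of the usual squares, the eigenvalue squares and the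
induction squares (for every code `t` of the roots, and every root `a`), the multipliers of the
Perron equalities (for every code of the first `k + 1` points), and the constants. -/
structure Cert (R : Type) where
  U : ℕ → ℕ → ℕ → R
  E : ℕ → ℕ → ℕ → R
  Q : ℕ → ℕ → ℕ → ℕ → R
  Z : ℕ → ℕ → ℕ → R
  m : R
  q : R
  f : R

/-- the table of a certificate -/
def T {R : Type} [CommRing R] (k : ℕ) (C : Cert R) (p : ℕ → ℕ → Bool) (i j : ℕ) : R :=
  TU k (C.U (enc k p)) p i j + TE k C.m C.q (C.E (enc k p)) p i j +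
    ∑ a ∈ range k, TQ k C.m C.q C.f a (C.Q (enc k p) a) p i j +
    TZ k (C.Z (enc (k + 1) p)) p i j

/-- row of the additional eigenvalue square of order 5 with one root `0`: `w` is the point, `z` is
averaged; `c = 0, 1, 2` is the weight of the root, of the point and of `z` -/
def row1 (p : ℕ → ℕ → Bool) (w z c : ℕ) : ℕ :=
  8 * c + (if p w 0 = true then 1 else 0) + (if p z 0 = true then 2 else 0) +
    (if p w z = true then 4 else 0)

/-- position of the weight `c` in `row1` -/
def pos1 (w z c : ℕ) : ℕ := if c = 0 then 0 else if c = 1 then w else z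

/-- the additional eigenvalue square of order 5 (root `0`, `w = 1`, `z = 2`, `w' = 3`, `z' = 4`) -/
def T1 {R : Type} [CommRing R] (m q : R) (Y : ℕ → ℕ → R) (p : ℕ → ℕ → Bool) (i j : ℕ) : R :=
  ∑ c ∈ range 3, ∑ c' ∈ range 3,
    ((if i = pos1 1 2 c ∧ j = pos1 3 4 c' ∧ p 1 3 = true then
        m * Y (row1 p 1 2 c) (row1 p 3 4 c') else 0) +
      (if i = 4 ∧ j = pos1 1 3 c' ∧ p (pos1 1 2 c) 4 = true then
        m * Y (row1 p 1 2 c) (row1 p 1 3 c') else 0) -
      (if i = pos1 1 2 c ∧ j = pos1 1 3 c' then q * Y (row1 p 1 2 c) (row1 p 1 3 c') else 0))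

section forms

variable {V : Type} [Fintype V] [DecidableEq V]

open Classical in
/-- pattern of a tuple -/
noncomputable def pat (G : SimpleGraph V) {N : ℕ} (v : Fin N → V) (i j : ℕ) : Bool :=
  if h : i < N ∧ j < N then decide (G.Adj (v ⟨i, h.1⟩) (v ⟨j, h.2⟩)) else false

/-- the pattern sum of a table -/
noncomputable def Phi (G : SimpleGraph V) (x : V → ℝ) (N : ℕ)
    (A : (ℕ → ℕ → Bool) → ℕ → ℕ → ℝ) : ℝ :=
  ∑ v : Fin N → V, ∑ i : Fin N, ∑ j : Fin N, A (pat G v) i j * x (v i) * x (v j)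

end forms

/-- the pattern sum is nonpositive for all `K_{r+1}`-free graphs and nonnegative weights -/
def NonPos (r N : ℕ) (A : (ℕ → ℕ → Bool) → ℕ → ℕ → ℤ) : Prop :=
  ∀ (V : Type) [Fintype V] [DecidableEq V] (G : SimpleGraph V) (x : V → ℝ), (∀ v, 0 ≤ x v) →
    G.CliqueFree (r + 1) → Phi G x N (fun p i j => (A p i j : ℝ)) ≤ 0

/-- positive semidefiniteness of the matrix `Y p q`, `p q < n` -/
def PSDn (n : ℕ) (Y : ℕ → ℕ → ℤ) : Prop :=
  ∃ (s : ℕ) (b : ℕ → ℕ → ℝ), ∀ p < n, ∀ q < n, (Y p q : ℝ) = ∑ a ∈ range s, b a p * b a q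

/-- the induction predicate: `λ_1 ≤ f |S| - λ_min` for `K_{r+1}`-free graphs -/
def PB (r : ℕ) (f : ℝ) : Prop :=
  ∀ (V : Type) [Fintype V] [DecidableEq V] (G : SimpleGraph V) (S : Finset V) (μ : ℝ),
    G.CliqueFreeOn (S : Set V) (r + 1) → (∀ g, -μ * sq S g ≤ qf G S g) →
    ∀ g, qf G S g ≤ (f * S.card + μ) * sq S g

/-- a valid certificate (without the sign condition on the table) -/
structure Good (k : ℕ) (C : Cert ℤ) : Prop where
  m : 0 < C.m
  U : ∀ t, PSDn ((k + 1) * 2 ^ k) (C.U t)
  E : ∀ t, PSDn ((k + 1) * 2 ^ k) (C.E t)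
  Q : ∀ t a, PSDn ((k + 1) * 2 ^ k) (C.Q t a)
  Z : ∀ h a b, C.Z h a b = -C.Z h b a
  S : 0 < ∑ c ∈ range (k + 1), ∑ c' ∈ range (k + 1), C.E 0 (2 ^ k * c) (2 ^ k * c')

end Pool.Agent.Work.MP_f94384_co.Flag
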