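import Pool.Agent.Work.MP_f94384_co.Flag.Sound

/-!
# Closed form of the tables at a code
-/

set_option autoImplicit false

open Finset

namespace Pool.Agent.Work.MP_f94384_co.Flag

namespace Chk

theorem msk_dec (N k w c : ℕ) (hk : k ≤ w) (hw : w < N) :
    msk k (dec N c) w = (c >>> tri w) % 2 ^ k := by
  apply Nat.eq_of_testBit_eq
  intro i
  have h0 : msk k (dec N c) w = bs (fun j => dec N c w j) k := rfl
  rw [h0, testBit_bs, Nat.testBit_mod_two_pow, Nat.testBit_shiftRight]
  by_cases hi : i < k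
  · simp only [hi, decide_true, Bool.true_and]
    unfold dec eid
    rw [if_pos ⟨hw, by omega, by omega⟩, if_neg (by omega)]
  · simp [hi]

theorem enc_dec_mod (N k c : ℕ) (hk : k ≤ N) : enc k (dec N c) = c % 2 ^ tri k := by
  apply Nat.eq_of_testBit_eq
  intro q
  rw [Nat.testBit_mod_two_pow]
  by_cases hq : q < tri k
  · obtain ⟨i, j, h1, h2, rfl⟩ := exists_pair k q hq
    rw [testBit_enc k _ i j h1 h2]
    unfold dec eid
    rw [if_pos ⟨by omega, by omega, by omega⟩, if_pos h1]
    simp [hq]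
  · rw [Nat.testBit_lt_two_pow (lt_of_lt_of_le (enc_lt k _)
      (Nat.pow_le_pow_right (by norm_num) (by omega)))]
    simp [hq]

theorem dec_last (N k c a : ℕ) (hN : N = k + 2) (ha : a ≤ k) :
    dec N c a (k + 1) = (c >>> tri (k + 1)).testBit a := by
  unfold dec eid
  rw [if_pos ⟨by omega, by omega, by omega⟩, if_pos (by omega), Nat.testBit_shiftRight]

/-- sum for the kernel -/
def sumN : ℕ → (ℕ → ℤ) → ℤ
  | 0, _ => 0
  | n + 1, f => sumN n f + f n

theorem sumN_eq (n : ℕ) (f : ℕ → ℤ) : sumN n f = ∑ i ∈ range n, f i := by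
  induction n with
  | zero => rfl
  | succ n ih => rw [sumN, ih, Finset.sum_range_succ]

/-- bilinear part, two different points -/
def cr (k S S' : ℕ) (Y : ℕ → ℕ → ℤ) (i j : ℕ) : ℤ :=
  if i ≤ k then
    (if j < k then Y (2 ^ k * i + S) (2 ^ k * j + S')
      else if j = k + 1 then Y (2 ^ k * i + S) (2 ^ k * k + S') else 0)
  else 0

/-- bilinear part, one point -/
def idn (k S : ℕ) (Y : ℕ → ℕ → ℤ) (i j : ℕ) : ℤ :=
  if i ≤ k then (if j ≤ k then Y (2 ^ k * i + S) (2 ^ k * j + S) else 0) else 0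

/-- the part for the eigenvalue -/
def tl (k S m : ℕ) (Y : ℕ → ℕ → ℤ) (i j : ℕ) : ℤ :=
  if i = k + 1 then
    (if j ≤ k then
      sumN (k + 1) (fun c => if m.testBit c = true then Y (2 ^ k * c + S) (2 ^ k * j + S) else 0)
    else 0)
  else 0

/-- the Perron part -/
def fZ (k m : ℕ) (z : ℕ → ℕ → ℤ) (i j : ℕ) : ℤ :=
  if i = k + 1 then
    (if j ≤ k then sumN (k + 1) (fun a => if m.testBit a = true then z a j else 0) else 0)
  else 0

theorem sum_pos_last (k j : ℕ) (g : ℕ → ℤ) :
    ∑ c ∈ range (k + 1), (if j = pos k (k + 1) c then g c else 0) =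
      if j < k then g j else if j = k + 1 then g k else 0 := by
  rw [Finset.sum_range_succ]
  have h1 : ∑ c ∈ range k, (if j = pos k (k + 1) c then g c else 0) =
      if j < k then g j else 0 := by
    have h2 : ∀ c ∈ range k, (if j = pos k (k + 1) c then g c else 0) =
        if j = c then g c else 0 := by
      intro c hc
      rw [Finset.mem_range] at hc
      unfold pos
      rw [if_neg (show ¬ c = k by omega)]
    rw [Finset.sum_congr rfl h2, Finset.sum_ite_eq]
    simp
  rw [h1]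
  have h3 : pos k (k + 1) k = k + 1 := by simp [pos]
  rw [h3]
  by_cases h4 : j < k
  · have h5 : j ≠ k + 1 := by omega
    simp [h4, h5]
  · simp [h4]

theorem pos_self (k c : ℕ) : pos k k c = c := by
  unfold pos
  split_ifs with h
  · exact h.symm
  · rfl

theorem TB_cross (k : ℕ) (Y : ℕ → ℕ → ℤ) (p : ℕ → ℕ → Bool) (i j : ℕ) :
    TB k k (k + 1) Y p i j = cr k (msk k p k) (msk k p (k + 1)) Y i j := by
  unfold TB cr
  have h1 : ∀ c ∈ range (k + 1), (∑ c' ∈ range (k + 1),
      if i = pos k k c ∧ j = pos k (k + 1) c' then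
        Y (2 ^ k * c + msk k p k) (2 ^ k * c' + msk k p (k + 1)) else 0) =
      if i = c then (if j < k then Y (2 ^ k * c + msk k p k) (2 ^ k * j + msk k p (k + 1))
        else if j = k + 1 then Y (2 ^ k * c + msk k p k) (2 ^ k * k + msk k p (k + 1)) else 0)
      else 0 := by
    intro c _
    rw [pos_self]
    by_cases hi : i = c
    · simp only [hi, true_and, if_true]
      exact sum_pos_last k j (fun c' => Y (2 ^ k * c + msk k p k) (2 ^ k * c' + msk k p (k + 1)))
    · simp [hi]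
  rw [Finset.sum_congr rfl h1, Finset.sum_ite_eq]
  simp only [Finset.mem_range, Nat.lt_succ_iff]

theorem TB_self (k : ℕ) (Y : ℕ → ℕ → ℤ) (p : ℕ → ℕ → Bool) (i j : ℕ) :
    TB k k k Y p i j = idn k (msk k p k) Y i j := by
  unfold TB idn
  have h1 : ∀ c ∈ range (k + 1), (∑ c' ∈ range (k + 1),
      if i = pos k k c ∧ j = pos k k c' then
        Y (2 ^ k * c + msk k p k) (2 ^ k * c' + msk k p k) else 0) =
      if i = c then (if j ≤ k then Y (2 ^ k * c + msk k p k) (2 ^ k * j + msk k p k)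
        else 0) else 0 := by
    intro c _
    simp only [pos_self]
    by_cases hi : i = c
    · simp only [hi, true_and, if_true]
      rw [Finset.sum_ite_eq]
      simp only [Finset.mem_range, Nat.lt_succ_iff]
    · simp [hi]
  rw [Finset.sum_congr rfl h1, Finset.sum_ite_eq]
  simp only [Finset.mem_range, Nat.lt_succ_iff]

theorem TL_eq (k m : ℕ) (Y : ℕ → ℕ → ℤ) (p : ℕ → ℕ → Bool)
    (hm : ∀ a ≤ k, p a (k + 1) = m.testBit a) (i j : ℕ) :
    TL k Y p i j = tl k (msk k p k) m Y i j := by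
  unfold TL tl
  by_cases hi : i = k + 1
  · rw [if_pos hi, sumN_eq]
    have h1 : ∀ c ∈ range (k + 1), (∑ c' ∈ range (k + 1),
        if i = k + 1 ∧ j = pos k k c' ∧ p (pos k k c) (k + 1) = true then
          Y (2 ^ k * c + msk k p k) (2 ^ k * c' + msk k p k) else 0) =
        if j ≤ k then (if m.testBit c = true then
          Y (2 ^ k * c + msk k p k) (2 ^ k * j + msk k p k) else 0) else 0 := by
      intro c hc
      rw [Finset.mem_range] at hc
      simp only [pos_self, hi, true_and]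
      rw [hm c (by omega)]
      by_cases hb : m.testBit c = true
      · simp only [hb, and_true, if_true]
        rw [Finset.sum_ite_eq]
        simp only [Finset.mem_range, Nat.lt_succ_iff]
      · simp [hb]
    rw [Finset.sum_congr rfl h1]
    by_cases hj : j ≤ k
    · simp only [if_pos hj]
    · simp only [if_neg hj, Finset.sum_const_zero]
  · simp [hi]

theorem TZ_eq (k m : ℕ) (z : ℕ → ℕ → ℤ) (p : ℕ → ℕ → Bool)
    (hm : ∀ a ≤ k, p a (k + 1) = m.testBit a) (i j : ℕ) :
    TZ k z p i j = fZ k m z i j := by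
  unfold TZ fZ
  by_cases hi : i = k + 1
  · rw [if_pos hi, sumN_eq]
    have h1 : ∀ a ∈ range (k + 1), (∑ b ∈ range (k + 1),
        if i = k + 1 ∧ j = b ∧ p a (k + 1) = true then z a b else 0) =
        if j ≤ k then (if m.testBit a = true then z a j else 0) else 0 := by
      intro c hc
      rw [Finset.mem_range] at hc
      simp only [hi, true_and]
      rw [hm c (by omega)]
      by_cases hb : m.testBit c = true
      · simp only [hb, and_true, if_true]
        rw [Finset.sum_ite_eq]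
        simp only [Finset.mem_range, Nat.lt_succ_iff]
      · simp [hb]
    rw [Finset.sum_congr rfl h1]
    by_cases hj : j ≤ k
    · simp only [if_pos hj]
    · simp only [if_neg hj, Finset.sum_const_zero]
  · simp [hi]

/-- eigenvalue part at a code -/
def fE (k S S' m : ℕ) (u v : ℤ) (Y : ℕ → ℕ → ℤ) (i j : ℕ) : ℤ :=
  (if m.testBit k = true then u * cr k S S' Y i j else 0) + u * tl k S m Y i j -
    v * idn k S Y i j

/-- induction part at a code -/
def fQ (k S S' m : ℕ) (u v w : ℤ) (a : ℕ) (Y : ℕ → ℕ → ℤ) (i j : ℕ) : ℤ :=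
  if S.testBit a = true then
    -(if m.testBit k = true ∧ S'.testBit a = true then u * cr k S S' Y i j else 0) +
      u * tl k S m Y i j - v * idn k S Y i j +
      (if S'.testBit a = true then w * idn k S Y i j else 0)
  else 0

theorem TE_eq (N k c : ℕ) (hN : N = k + 2) (u v : ℤ) (Y : ℕ → ℕ → ℤ) (i j : ℕ) :
    TE k u v Y (dec N c) i j =
      fE k ((c >>> tri k) % 2 ^ k) ((c >>> tri (k + 1)) % 2 ^ k) (c >>> tri (k + 1)) u v Y i j := by
  unfold TE fE
  rw [TB_cross, TB_self, TL_eq k (c >>> tri (k + 1)) Y _ (fun a ha => dec_last N k c a hN ha),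
    msk_dec N k k c le_rfl (by omega), msk_dec N k (k + 1) c (by omega) (by omega),
    dec_last N k c k hN le_rfl]

theorem TQ_eq (N k c a : ℕ) (hN : N = k + 2) (ha : a < k) (u v w : ℤ) (Y : ℕ → ℕ → ℤ) (i j : ℕ) :
    TQ k u v w a Y (dec N c) i j =
      fQ k ((c >>> tri k) % 2 ^ k) ((c >>> tri (k + 1)) % 2 ^ k) (c >>> tri (k + 1)) u v w a Y
        i j := by
  unfold TQ fQ
  have h1 : dec N c k a = ((c >>> tri k) % 2 ^ k).testBit a := by
    rw [Nat.testBit_mod_two_pow, Nat.testBit_shiftRight]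
    unfold dec eid
    rw [if_pos ⟨by omega, by omega, by omega⟩, if_neg (by omega)]
    simp [ha]
  have h2 : dec N c (k + 1) a = ((c >>> tri (k + 1)) % 2 ^ k).testBit a := by
    rw [Nat.testBit_mod_two_pow, Nat.testBit_shiftRight]
    unfold dec eid
    rw [if_pos ⟨by omega, by omega, by omega⟩, if_neg (by omega)]
    simp [ha]
  rw [TB_cross, TB_self, TL_eq k (c >>> tri (k + 1)) Y _ (fun a ha => dec_last N k c a hN ha),
    msk_dec N k k c le_rfl (by omega), msk_dec N k (k + 1) c (by omega) (by omega),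
    dec_last N k c k hN le_rfl, h1, h2]

theorem TU_eq (N k c : ℕ) (hN : N = k + 2) (Y : ℕ → ℕ → ℤ) (i j : ℕ) :
    TU k Y (dec N c) i j =
      cr k ((c >>> tri k) % 2 ^ k) ((c >>> tri (k + 1)) % 2 ^ k) Y i j := by
  unfold TU
  rw [TB_cross, msk_dec N k k c le_rfl (by omega), msk_dec N k (k + 1) c (by omega) (by omega)]

theorem TZ_eq' (N k c : ℕ) (hN : N = k + 2) (z : ℕ → ℕ → ℤ) (i j : ℕ) :
    TZ k z (dec N c) i j = fZ k (c >>> tri (k + 1)) z i j :=
  TZ_eq k _ z _ (fun a ha => dec_last N k c a hN ha) i j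

/-- the table of a certificate at a code -/
def fT (k : ℕ) (C : Cert ℤ) (c i j : ℕ) : ℤ :=
  cr k ((c >>> tri k) % 2 ^ k) ((c >>> tri (k + 1)) % 2 ^ k) (C.U (c % 2 ^ tri k)) i j +
  fE k ((c >>> tri k) % 2 ^ k) ((c >>> tri (k + 1)) % 2 ^ k) (c >>> tri (k + 1)) C.m C.q
    (C.E (c % 2 ^ tri k)) i j +
  sumN k (fun a => fQ k ((c >>> tri k) % 2 ^ k) ((c >>> tri (k + 1)) % 2 ^ k)
    (c >>> tri (k + 1)) C.m C.q C.f a (C.Q (c % 2 ^ tri k) a) i j) +
  fZ k (c >>> tri (k + 1)) (C.Z (c % 2 ^ tri (k + 1))) i j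

theorem T_eq (k : ℕ) (C : Cert ℤ) (c i j : ℕ) :
    T k C (dec (k + 2) c) i j = fT k C c i j := by
  unfold T fT
  rw [enc_dec_mod (k + 2) k c (by omega), enc_dec_mod (k + 2) (k + 1) c (by omega),
    TU_eq _ _ _ rfl, TE_eq _ _ _ rfl, TZ_eq' _ _ _ rfl, sumN_eq]
  congr 2
  refine Finset.sum_congr rfl fun a ha => ?_
  rw [TQ_eq _ _ _ _ rfl (Finset.mem_range.1 ha)]

end Chk

end Pool.Agent.Work.MP_f94384_co.Flag
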