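import Pool.Agent.Work.MP_f94384_co.Flag.RelChk

/-!
# Kernel check of positive semidefiniteness
-/

set_option autoImplicit false

open Finset

namespace Pool.Agent.Work.MP_f94384_co.Flag

namespace Chk

/-- positive semidefiniteness of a real table -/
def PSDr (n : ℕ) (Y : ℕ → ℕ → ℝ) : Prop :=
  ∃ (s : ℕ) (b : ℕ → ℕ → ℝ), ∀ p < n, ∀ q < n, Y p q = ∑ a ∈ range s, b a p * b a q

theorem PSDr.zero (n : ℕ) : PSDr n (fun _ _ => 0) := ⟨0, fun _ _ => 0, by simp⟩

theorem PSDr.congr {n : ℕ} {Y Y' : ℕ → ℕ → ℝ} (h : PSDr n Y)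
    (h' : ∀ p < n, ∀ q < n, Y' p q = Y p q) : PSDr n Y' := by
  obtain ⟨s, b, hb⟩ := h
  exact ⟨s, b, fun p hp q hq => by rw [h' p hp q hq, hb p hp q hq]⟩

theorem PSDr.add {n : ℕ} {Y Y' : ℕ → ℕ → ℝ} (h : PSDr n Y) (h' : PSDr n Y') :
    PSDr n (fun p q => Y p q + Y' p q) := by
  obtain ⟨s, b, hb⟩ := h
  obtain ⟨s', b', hb'⟩ := h'
  refine ⟨s + s', fun a p => if a < s then b a p else b' (a - s) p, fun p hp q hq => ?_⟩
  beta_reduce
  rw [Finset.sum_range_add, hb p hp q hq, hb' p hp q hq]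
  congr 1
  · refine Finset.sum_congr rfl fun a ha => ?_
    rw [Finset.mem_range] at ha
    rw [if_pos ha, if_pos ha]
  · refine Finset.sum_congr rfl fun a _ => ?_
    rw [if_neg (by omega), if_neg (by omega), Nat.add_sub_cancel_left]

theorem PSDr.smul {n : ℕ} {Y : ℕ → ℕ → ℝ} (h : PSDr n Y) {c : ℝ} (hc : 0 ≤ c) :
    PSDr n (fun p q => c * Y p q) := by
  obtain ⟨s, b, hb⟩ := h
  refine ⟨s, fun a p => Real.sqrt c * b a p, fun p hp q hq => ?_⟩
  beta_reduce
  rw [hb p hp q hq, Finset.mul_sum]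
  refine Finset.sum_congr rfl fun a _ => ?_
  have := Real.mul_self_sqrt hc
  calc c * (b a p * b a q) = (Real.sqrt c * Real.sqrt c) * (b a p * b a q) := by rw [this]
    _ = _ := by ring

theorem PSDr.conj {n m : ℕ} {Z : ℕ → ℕ → ℝ} (h : PSDr m Z) (B : ℕ → ℕ → ℝ) :
    PSDr n (fun p q => ∑ x ∈ range m, ∑ y ∈ range m, B p x * Z x y * B q y) := by
  obtain ⟨s, b, hb⟩ := h
  refine ⟨s, fun a p => ∑ x ∈ range m, B p x * b a x, fun p _ q _ => ?_⟩
  beta_reduce
  have h1 : ∀ x ∈ range m, ∀ y ∈ range m, B p x * Z x y * B q y =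
      ∑ a ∈ range s, (B p x * b a x) * (B q y * b a y) := by
    intro x hx y hy
    rw [hb x (Finset.mem_range.1 hx) y (Finset.mem_range.1 hy), Finset.mul_sum, Finset.sum_mul]
    exact Finset.sum_congr rfl fun a _ => by ring
  rw [Finset.sum_congr rfl fun x hx => Finset.sum_congr rfl fun y hy => h1 x hx y hy]
  have h2 : ∀ a, (∑ x ∈ range m, B p x * b a x) * (∑ y ∈ range m, B q y * b a y) =
      ∑ x ∈ range m, ∑ y ∈ range m, (B p x * b a x) * (B q y * b a y) := fun a => by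
    rw [Finset.sum_mul_sum]
  simp only [h2]
  rw [Finset.sum_comm]
  refine Eq.trans (Finset.sum_congr rfl fun y _ => Finset.sum_comm) ?_
  rw [Finset.sum_comm]
  exact Finset.sum_congr rfl fun a _ => Finset.sum_comm

theorem PSDr.gram (n m : ℕ) (L : ℕ → ℕ → ℝ) :
    PSDr n (fun p q => ∑ x ∈ range m, L p x * L q x) := ⟨m, fun a p => L p a, fun _ _ _ _ => rfl⟩

open Matrix in
theorem PSDr.of_form {m : ℕ} {R : ℕ → ℕ → ℝ} (hs : ∀ p < m, ∀ q < m, R p q = R q p)
    (hf : ∀ x : Fin m → ℝ, 0 ≤ ∑ p : Fin m, ∑ q : Fin m, x p * R p q * x q) : PSDr m R := by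
  let A : Matrix (Fin m) (Fin m) ℝ := Matrix.of fun i j => R i j
  have hA : A.PosSemidef := by
    refine PosSemidef.of_dotProduct_mulVec_nonneg ?_ fun x => ?_
    · ext i j
      simp only [conjTranspose_apply, A, of_apply, star_trivial]
      exact hs j j.2 i i.2
    · have := hf x
      simp only [dotProduct, mulVec, A, of_apply, star_trivial]
      refine le_trans this (le_of_eq ?_)
      refine Finset.sum_congr rfl fun p _ => ?_
      rw [Finset.mul_sum]
      exact Finset.sum_congr rfl fun q _ => by rw [mul_assoc]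
  open scoped MatrixOrder in
  obtain ⟨B, hB⟩ := CStarAlgebra.nonneg_iff_eq_star_mul_self.mp hA.nonneg
  refine ⟨m, fun a p => if h : a < m ∧ p < m then B ⟨a, h.1⟩ ⟨p, h.2⟩ else 0,
    fun p hp q hq => ?_⟩
  have h1 : R p q = A ⟨p, hp⟩ ⟨q, hq⟩ := rfl
  rw [h1, hB, Matrix.mul_apply, Finset.sum_range]
  refine Finset.sum_congr rfl fun a _ => ?_
  simp [Matrix.star_apply, hp, hq]

/-- diagonally dominant symmetric tables -/
theorem PSDr.of_dd {m : ℕ} {R : ℕ → ℕ → ℝ} (hs : ∀ p < m, ∀ q < m, R p q = R q p)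
    (hd : ∀ p < m, ∑ q ∈ range m, |R p q| ≤ 2 * R p p) : PSDr m R := by
  refine PSDr.of_form hs fun x => ?_
  have h1 : ∀ p q : Fin m, -(|R p q| * (x p ^ 2 + x q ^ 2) / 2) +
      (if p = q then 2 * R p p * x p ^ 2 else 0) ≤ x p * R p q * x q := by
    intro p q
    by_cases hpq : p = q
    · subst hpq
      rw [if_pos rfl]
      have h2 : 0 ≤ R p p := by
        have h3 := hd p p.2
        have h4 : 0 ≤ ∑ q ∈ range m, |R p q| := Finset.sum_nonneg fun _ _ => abs_nonneg _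
        linarith
      rw [abs_of_nonneg h2]
      nlinarith
    · rw [if_neg hpq, add_zero]
      have h3 := abs_nonneg (R p q)
      rcases abs_cases (R p q) with ⟨h4, _⟩ | ⟨h4, h5⟩
      · rw [h4] at h3 ⊢
        nlinarith [mul_nonneg h3 (sq_nonneg (x p + x q))]
      · rw [h4] at h3 ⊢
        nlinarith [mul_nonneg h3 (sq_nonneg (x p - x q))]
  have h2 : ∑ p : Fin m, ∑ q : Fin m, (-(|R p q| * (x p ^ 2 + x q ^ 2) / 2) +
      (if p = q then 2 * R p p * x p ^ 2 else 0)) ≤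
      ∑ p : Fin m, ∑ q : Fin m, x p * R p q * x q :=
    Finset.sum_le_sum fun p _ => Finset.sum_le_sum fun q _ => h1 p q
  refine le_trans ?_ h2
  have h3 : ∑ p : Fin m, ∑ q : Fin m, (-(|R p q| * (x p ^ 2 + x q ^ 2) / 2) +
      (if p = q then 2 * R p p * x p ^ 2 else 0)) =
      ∑ p : Fin m, (2 * R p p - ∑ q : Fin m, |R p q|) * x p ^ 2 := by
    have h4 : ∀ p : Fin m, ∑ q : Fin m, (-(|R p q| * (x p ^ 2 + x q ^ 2) / 2) +
        (if p = q then 2 * R p p * x p ^ 2 else 0)) =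
        -((∑ q : Fin m, |R p q|) * x p ^ 2) / 2 - (∑ q : Fin m, |R p q| * x q ^ 2) / 2 +
          2 * R p p * x p ^ 2 := by
      intro p
      rw [Finset.sum_add_distrib, Finset.sum_ite_eq]
      simp only [Finset.mem_univ, if_true]
      congr 1
      rw [Finset.sum_mul, Finset.sum_div, ← Finset.sum_neg_distrib, Finset.sum_div,
        ← Finset.sum_sub_distrib]
      exact Finset.sum_congr rfl fun q _ => by ring
    rw [Finset.sum_congr rfl fun p _ => h4 p]
    have h5 : ∑ p : Fin m, (∑ q : Fin m, |R p q| * x q ^ 2) / 2 =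
        ∑ p : Fin m, ((∑ q : Fin m, |R p q|) * x p ^ 2) / 2 := by
      rw [← Finset.sum_div, ← Finset.sum_div, Finset.sum_comm]
      congr 1
      refine Finset.sum_congr rfl fun q _ => ?_
      rw [Finset.sum_mul]
      exact Finset.sum_congr rfl fun p _ => by rw [hs p p.2 q q.2]
    rw [Finset.sum_add_distrib, Finset.sum_sub_distrib, h5, ← Finset.sum_sub_distrib,
      ← Finset.sum_add_distrib]
    exact Finset.sum_congr rfl fun p _ => by ring
  rw [h3]
  refine Finset.sum_nonneg fun p _ => mul_nonneg ?_ (sq_nonneg _)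
  have h4 := hd p p.2
  rw [Finset.sum_range] at h4
  linarith

/-- entry of a list of rows -/
def fn (T : List (List ℤ)) (a b : ℕ) : ℤ := nth 0 (nth [] T a) b

/-- absolute value for the kernel -/
def absZ (x : ℤ) : ℤ := (x.natAbs : ℤ)

theorem absZ_eq (x : ℤ) : ((absZ x : ℤ) : ℝ) = |(x : ℝ)| := by
  rw [absZ, Int.natCast_natAbs, Int.cast_abs]

/-- the remainder -/
def rem (m : ℕ) (Z L : List (List ℤ)) (s : ℤ) (i j : ℕ) : ℤ :=
  s * fn Z i j - sumN m fun x => fn L i x * fn L j x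

/-- check of positive semidefiniteness -/
def psdB (m : ℕ) (Z L : List (List ℤ)) (s : ℤ) : Bool :=
  decide (0 < s) && allB m fun i => allB i (fun j => decide (fn Z i j = fn Z j i)) &&
    decide (sumN m (fun j => absZ (rem m Z L s i j)) ≤ 2 * rem m Z L s i i)

theorem psdB_spec {m : ℕ} {Z L : List (List ℤ)} {s : ℤ} (h : psdB m Z L s = true) :
    PSDr m (fun p q => (fn Z p q : ℝ)) := by
  unfold psdB at h
  rw [Bool.and_eq_true, allB_iff] at h
  obtain ⟨hs, h⟩ := h
  have hs' : 0 < s := of_decide_eq_true hs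
  have hsR : (0 : ℝ) < (s : ℝ) := by exact_mod_cast hs'
  have h1 : ∀ i < m, ∀ j < i, fn Z i j = fn Z j i := by
    intro i hi j hj
    have := h i hi
    rw [Bool.and_eq_true, allB_iff] at this
    exact of_decide_eq_true (this.1 j hj)
  have h2 : ∀ i < m, ∀ j < m, fn Z i j = fn Z j i := by
    intro i hi j hj
    rcases lt_trichotomy i j with h3 | h3 | h3
    · exact (h1 j hj i h3).symm
    · rw [h3]
    · exact h1 i hi j h3
  have h3 : ∀ i < m, ∑ j ∈ range m, |(rem m Z L s i j : ℝ)| ≤ 2 * (rem m Z L s i i : ℝ) := by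
    intro i hi
    have := h i hi
    rw [Bool.and_eq_true] at this
    have h4 := of_decide_eq_true this.2
    rw [sumN_eq] at h4
    have h5 : ((∑ j ∈ range m, absZ (rem m Z L s i j) : ℤ) : ℝ) ≤ ((2 * rem m Z L s i i : ℤ) : ℝ) := by
      exact_mod_cast h4
    push_cast at h5
    simpa only [absZ_eq] using h5
  have h4 : PSDr m (fun p q => (rem m Z L s p q : ℝ)) := by
    refine PSDr.of_dd (fun p hp q hq => ?_) h3
    have : rem m Z L s p q = rem m Z L s q p := by
      unfold rem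
      rw [h2 p hp q hq, sumN_eq, sumN_eq]
      congr 1
      exact Finset.sum_congr rfl fun x _ => mul_comm _ _
    rw [this]
  have h5 := (h4.add (PSDr.gram m m (fun p x => (fn L p x : ℝ)))).smul
    (c := 1 / (s : ℝ)) (by positivity)
  refine h5.congr fun p _ q _ => ?_
  unfold rem
  rw [sumN_eq]
  push_cast
  field_simp
  ring

/-- a piece `t ^ l * B Z B^T`, `B = B0 + t B1`, at the integer `t` -/
def pv (m l : ℕ) (B0 B1 Z : List (List ℤ)) (t : ℤ) (a b : ℕ) : ℤ :=
  t ^ l * ∑ x ∈ range m, ∑ y ∈ range m,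
    (fn B0 a x + t * fn B1 a x) * fn Z x y * (fn B0 b y + t * fn B1 b y)

theorem pv_psd {m : ℕ} {Z L : List (List ℤ)} {s : ℤ} (h : psdB m Z L s = true) (n l : ℕ)
    (B0 B1 : List (List ℤ)) (t : ℤ) (ht : 0 ≤ t) :
    PSDr n (fun a b => (pv m l B0 B1 Z t a b : ℝ)) := by
  have h1 := ((psdB_spec h).conj (n := n)
    (fun a x => (fn B0 a x : ℝ) + (t : ℝ) * (fn B1 a x : ℝ))).smul
    (c := (t : ℝ) ^ l) (by have : (0 : ℝ) ≤ (t : ℝ) := by exact_mod_cast ht
                           positivity)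
  refine h1.congr fun a _ b _ => ?_
  unfold pv
  push_cast
  rfl

/-- table of a matrix product `B Z B'^T` -/
def prodT (n m : ℕ) (B Z B' : List (List ℤ)) : List (List ℤ) :=
  (fun R : List (List ℤ) => tab2 (fun a b => sumN m fun x => fn B a x * fn R x b) 0 n n)
    (tab2 (fun x b => sumN m fun y => fn Z x y * fn B' b y) 0 m n)
where
  /-- list of rows -/
  tab2 (h : ℕ → ℕ → ℤ) : ℕ → ℕ → ℕ → List (List ℤ)
    | _, 0, _ => []
    | s, r + 1, n => tabl (h s) 0 n :: tab2 h (s + 1) r n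

theorem fn_tab2 (h : ℕ → ℕ → ℤ) (s r n a b : ℕ) (ha : a < r) (hb : b < n) :
    fn (prodT.tab2 h s r n) a b = h (s + a) b := by
  induction r generalizing s a with
  | zero => omega
  | succ r ih =>
    cases a with
    | zero =>
      unfold fn
      rw [prodT.tab2, nth, nth_tabl _ _ _ _ hb, zero_add, add_zero]
    | succ a =>
      have := ih (s + 1) a (by omega)
      unfold fn at this ⊢
      rw [prodT.tab2, nth, this]
      congr 1
      omega

theorem fn_prodT (n m : ℕ) (B Z B' : List (List ℤ)) (a b : ℕ) (ha : a < n) (hb : b < n) :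
    fn (prodT n m B Z B') a b =
      ∑ x ∈ range m, ∑ y ∈ range m, fn B a x * fn Z x y * fn B' b y := by
  unfold prodT
  rw [fn_tab2 _ _ _ _ _ _ ha hb, sumN_eq, zero_add]
  refine Finset.sum_congr rfl fun x hx => ?_
  rw [fn_tab2 _ _ _ _ _ _ (Finset.mem_range.1 hx) hb, sumN_eq, Finset.mul_sum, zero_add]
  exact Finset.sum_congr rfl fun y _ => by ring

theorem pv_eq (n m l : ℕ) (B0 B1 Z : List (List ℤ)) (t : ℤ) (a b : ℕ) (ha : a < n) (hb : b < n) :
    pv m l B0 B1 Z t a b = t ^ l * (fn (prodT n m B0 Z B0) a b +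
      t * (fn (prodT n m B0 Z B1) a b + fn (prodT n m B1 Z B0) a b) +
      t ^ 2 * fn (prodT n m B1 Z B1) a b) := by
  rw [fn_prodT _ _ _ _ _ _ _ ha hb, fn_prodT _ _ _ _ _ _ _ ha hb, fn_prodT _ _ _ _ _ _ _ ha hb,
    fn_prodT _ _ _ _ _ _ _ ha hb, pv]
  congr 1
  simp only [Finset.mul_sum, ← Finset.sum_add_distrib]
  exact Finset.sum_congr rfl fun x _ => Finset.sum_congr rfl fun y _ => by ring

end Chk

end Pool.Agent.Work.MP_f94384_co.Flag
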