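import Pool.Agent.Work.MP_f94384_co.Flag.Rel5
import Pool.Agent.Work.MP_f94384_co.Flag.Psd

/-!
# Kernel check of pattern sum certificates of order 5: data and program
-/

set_option autoImplicit false

open Finset

namespace Pool.Agent.Work.MP_f94384_co.Flag

namespace K5

/-- entry of a matrix given by rows -/
def at2 (M : List (List ℤ)) (i j : ℕ) : ℤ := Chk.nth 0 (Chk.nth [] M i) j

/-- the block of the masks `s`, `s'` -/
def blk (Y : List (List (List (List ℤ)))) (s s' : ℕ) : List (List ℤ) :=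
  Chk.nth [] (Chk.nth [] Y s) s'

/-- A matrix with rows `8 c + s`, columns `8 c' + s'`, stored as `[s][s'][c][c']`. -/
def mat (Y : List (List (List (List ℤ)))) (p q : ℕ) : ℤ := at2 (blk Y (p % 8) (q % 8)) (p / 8) (q / 8)

/-- data of a certificate of order 5 -/
structure D5 where
  U : List (List (List (List (List ℤ))))
  E : List (List (List (List (List ℤ))))
  Q : List (List (List (List (List (List ℤ)))))
  Z : List (List (List ℤ))
  Y : List (List (List (List ℤ)))
  m : ℤ
  q : ℤ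
  f : ℤ

/-- the certificate given by the data -/
def D5.cert (D : D5) : Cert ℤ where
  U := fun t => mat (Chk.nth [] D.U t)
  E := fun t => mat (Chk.nth [] D.E t)
  Q := fun t a => mat (Chk.nth [] (Chk.nth [] D.Q t) a)
  Z := fun h a b => at2 (Chk.nth [] D.Z h) a b - at2 (Chk.nth [] D.Z h) b a
  m := D.m
  q := D.q
  f := D.f

/-- the table given by the data -/
def D5.tab (D : D5) (p : ℕ → ℕ → Bool) (i j : ℕ) : ℤ :=
  T 3 D.cert p i j + T1 D.m D.q (mat D.Y) p i j

/-- sum over the neighbours of the position 4 -/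
def nS (g : ℕ) (F : ℕ → ℤ) : ℤ :=
  (bif g.testBit 6 then F 0 else 0) + (bif g.testBit 7 then F 1 else 0) +
    (bif g.testBit 8 then F 2 else 0) + (bif g.testBit 9 then F 3 else 0)

/-- sum over the roots adjacent to the position 3 -/
def qS (g : ℕ) (F : ℕ → ℤ) : ℤ :=
  (bif g.testBit 3 then F 0 else 0) + (bif g.testBit 4 then F 1 else 0) +
    (bif g.testBit 5 then F 2 else 0)

/-- sum over the roots adjacent to the positions 3 and 4 -/
def rS (g : ℕ) (F : ℕ → ℤ) : ℤ :=
  (bif g.testBit 3 then (bif g.testBit 6 then F 0 else 0) else 0) +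
    (bif g.testBit 4 then (bif g.testBit 7 then F 1 else 0) else 0) +
    (bif g.testBit 5 then (bif g.testBit 8 then F 2 else 0) else 0)

/-- entries for two different points -/
def crs (m : ℤ) (U E : List (List (List (List ℤ)))) (Q : List (List (List (List (List ℤ)))))
    (g s s' i c : ℕ) : ℤ :=
  at2 (blk U s s') i c + (bif g.testBit 9 then
    m * (at2 (blk E s s') i c - rS g fun a => at2 (blk (Chk.nth [] Q a) s s') i c) else 0)

/-- entries for one point -/
def dia (q f : ℤ) (E : List (List (List (List ℤ)))) (Q : List (List (List (List (List ℤ)))))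
    (g s i j : ℕ) : ℤ :=
  f * (rS g fun a => at2 (blk (Chk.nth [] Q a) s s) i j) -
    q * (at2 (blk E s s) i j + qS g fun a => at2 (blk (Chk.nth [] Q a) s s) i j)

/-- entries of the last row -/
def lam (m : ℤ) (E : List (List (List (List ℤ)))) (Q : List (List (List (List (List ℤ)))))
    (Z : List (List ℤ)) (g s j : ℕ) : ℤ :=
  nS g fun c => m * (at2 (blk E s s) c j + qS g fun a => at2 (blk (Chk.nth [] Q a) s s) c j) +
    (at2 Z c j - at2 Z j c)

/-- the part of the table from `T`, at a code -/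
def gT (m q f : ℤ) (U E : List (List (List (List ℤ)))) (Q : List (List (List (List (List ℤ)))))
    (Z : List (List ℤ)) (g s s' i j : ℕ) : ℤ :=
  bif Nat.beq i 4 then (bif Nat.beq j 4 then 0 else lam m E Q Z g s j)
  else bif Nat.beq j 4 then crs m U E Q g s s' i 3
  else bif Nat.beq j 3 then dia q f E Q g s i 3
  else crs m U E Q g s s' i j + dia q f E Q g s i j

/-- mask of the positions 3 and 4 -/
def m34 (g : ℕ) : ℕ := (g >>> 3) % 2 + 2 * ((g >>> 6) % 2) + 4 * ((g >>> 9) % 2)

/-- mask of the positions 1 and 3 -/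
def m13 (g : ℕ) : ℕ := g % 2 + 2 * ((g >>> 3) % 2) + 4 * ((g >>> 4) % 2)

/-- the part of the table from `T1` for row `4` -/
def yL (m : ℤ) (M : List (List ℤ)) (g c : ℕ) : ℤ :=
  m * ((bif g.testBit 6 then at2 M 0 c else 0) + (bif g.testBit 7 then at2 M 1 c else 0) +
      (bif g.testBit 8 then at2 M 2 c else 0))

/-- the part of the table from `T1` for the rows `0, 1, 2` -/
def yR (m q : ℤ) (M M' : List (List ℤ)) (g i j : ℕ) : ℤ :=
  bif Nat.beq j 0 then (bif g.testBit 4 then m * at2 M i 0 else 0) - q * at2 M' i 0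
  else bif Nat.beq j 1 then -(q * at2 M' i 1)
  else bif Nat.beq j 3 then (bif g.testBit 4 then m * at2 M i 1 else 0) - q * at2 M' i 2
  else bif Nat.beq j 4 then (bif g.testBit 4 then m * at2 M i 2 else 0)
  else 0

/-- the part of the table from `T1`, at a code -/
def gY (m q : ℤ) (Y : List (List (List (List ℤ)))) (g i j : ℕ) : ℤ :=
  bif Nat.beq i 3 then 0
  else bif Nat.beq i 4 then
    (bif Nat.beq j 3 then yL m (blk Y (g % 8) (m13 g)) g 2
      else bif Nat.blt j 2 then yL m (blk Y (g % 8) (m13 g)) g j else 0)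
  else yR m q (blk Y (g % 8) (m34 g)) (blk Y (g % 8) (m13 g)) g i j

/-- the table at a code -/
def F5 (D : D5) (g i j : ℕ) : ℤ :=
  gT D.m D.q D.f (Chk.nth [] D.U (g % 8)) (Chk.nth [] D.E (g % 8)) (Chk.nth [] D.Q (g % 8))
    (Chk.nth [] D.Z (g % 64)) g ((g >>> 3) % 8) ((g >>> 6) % 8) i j + gY D.m D.q D.Y g i j

/-! ### the table at a code is the table of the certificate -/

theorem mat_eq (Y : List (List (List (List ℤ)))) (c c' s s' : ℕ) (hs : s < 8) (hs' : s' < 8) :
    mat Y (2 ^ 3 * c + s) (2 ^ 3 * c' + s') = at2 (blk Y s s') c c' := by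
  unfold mat
  have h1 : (2 ^ 3 * c + s) % 8 = s := by omega
  have h2 : (2 ^ 3 * c' + s') % 8 = s' := by omega
  have h3 : (2 ^ 3 * c + s) / 8 = c := by omega
  have h4 : (2 ^ 3 * c' + s') / 8 = c' := by omega
  rw [h1, h2, h3, h4]

/-- indicator -/
def ind (p : Prop) [Decidable p] : ℤ := if p then 1 else 0

theorem ite_ind (p : Prop) [Decidable p] (x : ℤ) : (if p then x else 0) = ind p * x := by
  unfold ind
  split_ifs <;> simp

theorem ind_and (p q : Prop) [Decidable p] [Decidable q] : ind (p ∧ q) = ind p * ind q := by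
  unfold ind
  by_cases hp : p <;> by_cases hq : q <;> simp [hp, hq]

theorem ind_true : ind True = 1 := rfl

theorem ind_false : ind False = 0 := rfl

theorem bif_ind (b : Bool) (x : ℤ) : (bif b then x else 0) = ind (b = true) * x := by
  unfold ind
  cases b <;> simp

theorem bif_cond (b : Bool) (x y : ℤ) : (bif b then x else y) = if b = true then x else y := by
  cases b <;> rfl

theorem gT_eq (D : D5) (g i j : ℕ) (hi : i < 5) (hj : j < 5) :
    Chk.fT 3 D.cert g i j =
      gT D.m D.q D.f (Chk.nth [] D.U (g % 8)) (Chk.nth [] D.E (g % 8)) (Chk.nth [] D.Q (g % 8))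
        (Chk.nth [] D.Z (g % 64)) g ((g >>> 3) % 8) ((g >>> 6) % 8) i j := by
  have e3 : Chk.tri 3 = 3 := by decide
  have e4 : Chk.tri 4 = 6 := by decide
  have hs : (g >>> 3) % 8 < 8 := Nat.mod_lt _ (by norm_num)
  have hs' : (g >>> 6) % 8 < 8 := Nat.mod_lt _ (by norm_num)
  have b0 : ∀ a, a < 3 → ((g >>> 3) % 8).testBit a = g.testBit (3 + a) := by
    intro a ha
    rw [show (8 : ℕ) = 2 ^ 3 by norm_num, Nat.testBit_mod_two_pow, Nat.testBit_shiftRight]
    simp [ha]
  have b1 : ∀ a, a < 3 → ((g >>> 6) % 8).testBit a = g.testBit (6 + a) := by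
    intro a ha
    rw [show (8 : ℕ) = 2 ^ 3 by norm_num, Nat.testBit_mod_two_pow, Nat.testBit_shiftRight]
    simp [ha]
  have b2 : ∀ a, (g >>> 6).testBit a = g.testBit (6 + a) := fun a => Nat.testBit_shiftRight _
  have m1 : ∀ (Y : List (List (List (List ℤ)))) (c c' : ℕ),
      mat Y (8 * c + (g >>> 3) % 8) (8 * c' + (g >>> 3) % 8) =
      at2 (blk Y ((g >>> 3) % 8) ((g >>> 3) % 8)) c c' := fun Y c c' => mat_eq Y c c' _ _ hs hs
  have m2 : ∀ (Y : List (List (List (List ℤ)))) (c c' : ℕ),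
      mat Y (8 * c + (g >>> 3) % 8) (8 * c' + (g >>> 6) % 8) =
      at2 (blk Y ((g >>> 3) % 8) ((g >>> 6) % 8)) c c' := fun Y c c' => mat_eq Y c c' _ _ hs hs'
  have q3 : (2 : ℕ) ^ 3 = 8 := by norm_num
  have q6 : (2 : ℕ) ^ 6 = 64 := by norm_num
  unfold Chk.fT Chk.fE Chk.fQ Chk.fZ Chk.cr Chk.idn Chk.tl D5.cert gT crs dia lam nS qS rS
  simp only [Chk.sumN, e3, e4, q3, q6, m1, m2, b2, b0 0 (by norm_num), b0 1 (by norm_num),
    b0 2 (by norm_num), b1 0 (by norm_num), b1 1 (by norm_num), b1 2 (by norm_num),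
    Nat.reduceAdd, zero_add, add_zero]
  interval_cases i <;> interval_cases j <;>
    simp only [Nat.beq, cond_true, cond_false, ite_ind, ind_and, bif_ind] <;>
    simp (decide := true) only [if_true, if_false, ind_true, ind_false, one_mul, zero_mul, mul_zero, add_zero,
      zero_add, sub_zero, neg_zero] <;> ring

theorem dec_bit (g i j : ℕ) (hij : i < j) (hj : j < 5) :
    Chk.dec 5 g i j = g.testBit (Chk.tri j + i) := by
  unfold Chk.dec Chk.eid
  have h1 : i ≠ j := by omega
  have h2 : i < 5 := by omega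
  simp [h1, h2, hj, hij]

theorem bit_mod (g k : ℕ) : (if g.testBit k = true then 1 else 0) = (g >>> k) % 2 := by
  rw [Nat.testBit_eq_decide_div_mod_eq, Nat.shiftRight_eq_div_pow]
  have : g / 2 ^ k % 2 < 2 := Nat.mod_lt _ (by norm_num)
  by_cases h : g / 2 ^ k % 2 = 1
  · simp [h]
  · have h0 : g / 2 ^ k % 2 = 0 := by omega
    simp [h0]

theorem m34_lt (g : ℕ) : m34 g < 8 := by
  unfold m34
  omega

theorem m13_lt (g : ℕ) : m13 g < 8 := by
  unfold m13
  omega

theorem gY_eq (D : D5) (g i j : ℕ) (hi : i < 5) (hj : j < 5) :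
    T1 D.m D.q (mat D.Y) (Chk.dec 5 g) i j = gY D.m D.q D.Y g i j := by
  have t1 : Chk.tri 1 = 0 := by decide
  have t2 : Chk.tri 2 = 1 := by decide
  have t3 : Chk.tri 3 = 3 := by decide
  have t4 : Chk.tri 4 = 6 := by decide
  have d01 : Chk.dec 5 g 1 0 = g.testBit 0 := by
    rw [Chk.dec_symm, dec_bit g 0 1 (by norm_num) (by norm_num), t1]
  have d02 : Chk.dec 5 g 2 0 = g.testBit 1 := by
    rw [Chk.dec_symm, dec_bit g 0 2 (by norm_num) (by norm_num), t2]
  have d12 : Chk.dec 5 g 1 2 = g.testBit 2 := by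
    rw [dec_bit g 1 2 (by norm_num) (by norm_num), t2]
  have d03 : Chk.dec 5 g 3 0 = g.testBit 3 := by
    rw [Chk.dec_symm, dec_bit g 0 3 (by norm_num) (by norm_num), t3]
  have d13 : Chk.dec 5 g 1 3 = g.testBit 4 := by
    rw [dec_bit g 1 3 (by norm_num) (by norm_num), t3]
  have d04 : Chk.dec 5 g 4 0 = g.testBit 6 := by
    rw [Chk.dec_symm, dec_bit g 0 4 (by norm_num) (by norm_num), t4]
  have d34 : Chk.dec 5 g 3 4 = g.testBit 9 := by
    rw [dec_bit g 3 4 (by norm_num) (by norm_num), t4]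
  have e04 : Chk.dec 5 g 0 4 = g.testBit 6 := by
    rw [dec_bit g 0 4 (by norm_num) (by norm_num), t4]
  have e14 : Chk.dec 5 g 1 4 = g.testBit 7 := by
    rw [dec_bit g 1 4 (by norm_num) (by norm_num), t4]
  have e24 : Chk.dec 5 g 2 4 = g.testBit 8 := by
    rw [dec_bit g 2 4 (by norm_num) (by norm_num), t4]
  have two : ∀ k c : ℕ, (if g.testBit k = true then c else 0) = c * ((g >>> k) % 2) := by
    intro k c
    rw [← bit_mod]
    split_ifs <;> simp
  have r12 : ∀ c, row1 (Chk.dec 5 g) 1 2 c = 2 ^ 3 * c + g % 8 := by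
    intro c
    unfold row1
    rw [d01, d02, d12, two, two, two, Nat.shiftRight_eq_div_pow, Nat.shiftRight_eq_div_pow,
      Nat.shiftRight_eq_div_pow]
    omega
  have r34 : ∀ c, row1 (Chk.dec 5 g) 3 4 c = 2 ^ 3 * c + m34 g := by
    intro c
    unfold row1 m34
    rw [d03, d04, d34, two, two, two]
    omega
  have r13 : ∀ c, row1 (Chk.dec 5 g) 1 3 c = 2 ^ 3 * c + m13 g := by
    intro c
    unfold row1 m13
    rw [d01, d03, d13, two, two, two, Nat.shiftRight_zero]
    omega
  have g8 : g % 8 < 8 := Nat.mod_lt _ (by norm_num)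
  have m1 : ∀ c c' : ℕ, mat D.Y (2 ^ 3 * c + g % 8) (2 ^ 3 * c' + m34 g) =
      at2 (blk D.Y (g % 8) (m34 g)) c c' := fun c c' => mat_eq _ c c' _ _ g8 (m34_lt g)
  have m2 : ∀ c c' : ℕ, mat D.Y (2 ^ 3 * c + g % 8) (2 ^ 3 * c' + m13 g) =
      at2 (blk D.Y (g % 8) (m13 g)) c c' := fun c c' => mat_eq _ c c' _ _ g8 (m13_lt g)
  unfold T1 gY yL yR
  simp only [r12, r34, r13, m1, m2, Finset.sum_range_succ, Finset.range_zero, Finset.sum_empty,
    pos1, d13, if_true, zero_add, one_ne_zero, if_false, OfNat.ofNat_ne_zero, OfNat.ofNat_ne_one,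
    e04, e14, e24]
  interval_cases i <;> interval_cases j <;>
    simp only [Nat.beq, Nat.blt, Nat.ble, cond_true, cond_false, ite_ind, ind_and, bif_ind] <;>
    simp (decide := true) only [if_true, if_false, ind_true, ind_false, one_mul, zero_mul, mul_zero,
      add_zero, zero_add, sub_zero, neg_zero] <;> ring

/-- the table at a code -/
theorem F5_eq (D : D5) (g i j : ℕ) (hi : i < 5) (hj : j < 5) :
    D.tab (Chk.dec 5 g) i j = F5 D g i j := by
  unfold D5.tab F5
  rw [Chk.T_eq, gT_eq D g i j hi hj, gY_eq D g i j hi hj]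

/-- the check of the table -/
theorem nonPos5 (r : ℕ) (D : D5) (cl : ℕ → List ℕ)
    (h : Chk.allCls 5 r (F5 D) Chk.rep5 Chk.tau5 Chk.AUT5 cl = true) :
    NonPos r 5 (fun p i j => T 3 D.cert p i j + T1 D.cert.m D.cert.q (mat D.Y) p i j) :=
  Chk.nonPos_of_chk r _ (F5 D) Chk.rep5 Chk.tau5 Chk.AUT5 cl
    (fun c _ a ha b hb => F5_eq D c a b ha hb) Chk.rel5 h

end K5

end Pool.Agent.Work.MP_f94384_co.Flag
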