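import Pool.Agent.Work.MP_f94384_co.Flag.K5

/-!
# Kernel check of positive semidefiniteness with list products
-/

set_option autoImplicit false

open Finset

namespace Pool.Agent.Work.MP_f94384_co.Flag

namespace K5

open Chk

/-- scalar product of lists -/
def dot : List ℤ → List ℤ → ℤ
  | a :: l, b :: l' => a * b + dot l l'
  | _, _ => 0

theorem nth_nil {α : Type} (d : α) (x : ℕ) : nth d [] x = d := by
  cases x <;> rfl

theorem nth_ge {α : Type} (d : α) (l : List α) (x : ℕ) (h : l.length ≤ x) : nth d l x = d := by
  induction l generalizing x with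
  | nil => exact nth_nil d x
  | cons a l ih =>
    cases x with
    | zero => simp at h
    | succ x =>
      rw [nth]
      exact ih x (by simpa using h)

theorem dot_sum (l l' : List ℤ) (m : ℕ) (h : l.length ≤ m) :
    dot l l' = ∑ x ∈ range m, nth 0 l x * nth 0 l' x := by
  induction l generalizing l' m with
  | nil =>
    rw [dot, Finset.sum_eq_zero]
    · intro x _
      rw [nth_nil, zero_mul]
    · intro a b c d h
      cases h
  | cons a l ih =>
    cases l' with
    | nil =>
      rw [dot, Finset.sum_eq_zero]
      · intro x _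
        rw [nth_nil, mul_zero]
      · intro a b c d _ h
        cases h
    | cons b l' =>
      obtain ⟨m, rfl⟩ : ∃ m', m = m' + 1 := ⟨m - 1, by simp at h; omega⟩
      rw [dot, Finset.sum_range_succ', ih l' m (by simpa using h), add_comm]
      rfl

/-- a row of the remainder -/
def rowD (s : ℤ) (l : List ℤ) : List ℤ → List (List ℤ) → List ℤ
  | a :: z, l' :: L => (s * a - dot l l') :: rowD s l z L
  | _, _ => []

theorem nth_rowD (s : ℤ) (l : List ℤ) (z : List ℤ) (L : List (List ℤ)) (j : ℕ)
    (h1 : j < z.length) (h2 : j < L.length) :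
    nth 0 (rowD s l z L) j = s * nth 0 z j - dot l (nth [] L j) := by
  induction z generalizing L j with
  | nil => simp at h1
  | cons a z ih =>
    cases L with
    | nil => simp at h2
    | cons l' L =>
      cases j with
      | zero => rfl
      | succ j =>
        rw [rowD, nth, nth, nth]
        exact ih L j (by simpa using h1) (by simpa using h2)

theorem rowD_length (s : ℤ) (l : List ℤ) (z : List ℤ) (L : List (List ℤ))
    (h : z.length = L.length) : (rowD s l z L).length = z.length := by
  induction z generalizing L with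
  | nil =>
    cases L with
    | nil => rfl
    | cons _ _ => simp at h
  | cons a z ih =>
    cases L with
    | nil => simp at h
    | cons l' L =>
      rw [rowD, List.length_cons, List.length_cons, ih L (by simpa using h)]

/-- sum of absolute values -/
def sAbs : List ℤ → ℤ
  | [] => 0
  | a :: l => absZ a + sAbs l

theorem sAbs_eq (l : List ℤ) (m : ℕ) (h : l.length = m) :
    sAbs l = ∑ j ∈ range m, absZ (nth 0 l j) := by
  induction l generalizing m with
  | nil =>
    subst h
    simp [sAbs]
  | cons a l ih =>
    subst h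
    rw [sAbs, List.length_cons, Finset.sum_range_succ', ih l.length rfl, add_comm]
    rfl

/-- the check of the rows -/
def rowsB (s : ℤ) (m : ℕ) (L : List (List ℤ)) : ℕ → List (List ℤ) → List (List ℤ) → Bool
  | i, z :: Z, l :: L' =>
    Nat.beq z.length m && Nat.ble l.length m &&
      (fun r : List ℤ => decide (sAbs r ≤ 2 * nth 0 r i)) (rowD s l z L) &&
      rowsB s m L (i + 1) Z L'
  | _, [], [] => true
  | _, _, _ => false

theorem rowsB_spec (s : ℤ) (m : ℕ) (L : List (List ℤ)) (i : ℕ) (Z L' : List (List ℤ))
    (h : rowsB s m L i Z L' = true) (j : ℕ) (hj : j < Z.length) :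
    (nth [] Z j).length = m ∧ (nth [] L' j).length ≤ m ∧
    sAbs (rowD s (nth [] L' j) (nth [] Z j) L) ≤
      2 * nth 0 (rowD s (nth [] L' j) (nth [] Z j) L) (i + j) := by
  induction Z generalizing i L' j with
  | nil => simp at hj
  | cons z Z ih =>
    cases L' with
    | nil => simp [rowsB] at h
    | cons l L' =>
      rw [rowsB] at h
      simp only [Bool.and_eq_true] at h
      obtain ⟨⟨⟨h1, h2⟩, h3⟩, h4⟩ := h
      cases j with
      | zero =>
        refine ⟨Nat.eq_of_beq_eq_true h1, Nat.le_of_ble_eq_true h2, ?_⟩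
        exact of_decide_eq_true h3
      | succ j =>
        have := ih (i + 1) L' h4 j (by simpa using hj)
        rw [nth, nth]
        rw [show i + (j + 1) = i + 1 + j by ring]
        exact this

/-- check of positive semidefiniteness -/
def psdC (m : ℕ) (Z L : List (List ℤ)) (s : ℤ) : Bool :=
  decide (0 < s) && Nat.beq Z.length m && Nat.beq L.length m &&
    (allB m fun i => allB i fun j => decide (fn Z i j = fn Z j i)) && rowsB s m L 0 Z L

theorem psdC_spec {m : ℕ} {Z L : List (List ℤ)} {s : ℤ} (h : psdC m Z L s = true) :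
    PSDr m (fun p q => (fn Z p q : ℝ)) := by
  unfold psdC at h
  simp only [Bool.and_eq_true] at h
  obtain ⟨⟨⟨⟨h1, h2⟩, h3⟩, h4⟩, h5⟩ := h
  have h2' := Nat.eq_of_beq_eq_true h2
  have h3' := Nat.eq_of_beq_eq_true h3
  refine psdB_spec (L := L) (s := s) ?_
  unfold psdB
  rw [Bool.and_eq_true]
  refine ⟨h1, ?_⟩
  rw [allB_iff] at h4 ⊢
  intro i hi
  rw [Bool.and_eq_true]
  refine ⟨h4 i hi, ?_⟩
  obtain ⟨g1, g2, g3⟩ := rowsB_spec s m L 0 Z L h5 i (by omega)
  rw [zero_add] at g3
  have key : ∀ j < m, rem m Z L s i j = nth 0 (rowD s (nth [] L i) (nth [] Z i) L) j := by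
    intro j hj
    rw [nth_rowD _ _ _ _ _ (by omega) (by omega), dot_sum _ _ m g2]
    unfold rem fn
    rw [sumN_eq]
  have hlen : (rowD s (nth [] L i) (nth [] Z i) L).length = m := by
    rw [rowD_length _ _ _ _ (by omega), g1]
  refine decide_eq_true ?_
  rw [sumN_eq, key i hi]
  refine le_trans (le_of_eq ?_) g3
  rw [sAbs_eq _ m hlen]
  exact Finset.sum_congr rfl fun j hj => by rw [key j (Finset.mem_range.1 hj)]

/-- the rows of `B Z` -/
def rowsW (Z : List (List ℤ)) (B : List (List ℤ)) : List (List ℤ) :=
  B.map fun b => Z.map fun z => dot z b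

/-- comparison of a list with the values of a function -/
def cmpB (h : ℕ → ℤ) : ℕ → List ℤ → Bool
  | _, [] => true
  | q, a :: l => decide (h q = a) && cmpB h (q + 1) l

theorem cmpB_spec (h : ℕ → ℤ) (q : ℕ) (l : List ℤ) (hc : cmpB h q l = true) (j : ℕ)
    (hj : j < l.length) : h (q + j) = nth 0 l j := by
  induction l generalizing q j with
  | nil => simp at hj
  | cons a l ih =>
    rw [cmpB, Bool.and_eq_true] at hc
    cases j with
    | zero => exact of_decide_eq_true hc.1
    | succ j =>
      have := ih (q + 1) hc.2 j (by simpa using hj)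
      rw [nth, ← this]
      congr 1
      ring

/-- comparison of all rows -/
def cmpR (Y : ℕ → ℕ → ℤ) (W : List (List ℤ)) : ℕ → List (List ℤ) → Bool
  | _, [] => true
  | p, b :: B => cmpB (Y p) 0 (W.map fun w => dot b w) && cmpR Y W (p + 1) B

theorem nth_map {α β : Type} (f : α → β) (d : α) (e : β) (l : List α) (j : ℕ)
    (hj : j < l.length) : nth e (l.map f) j = f (nth d l j) := by
  induction l generalizing j with
  | nil => simp at hj
  | cons a l ih =>
    cases j with
    | zero => rfl
    | succ j =>
      rw [List.map_cons, nth, nth]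
      exact ih j (by simpa using hj)

theorem cmpR_spec (Y : ℕ → ℕ → ℤ) (W : List (List ℤ)) (p : ℕ) (B : List (List ℤ))
    (hc : cmpR Y W p B = true) (i j : ℕ) (hi : i < B.length) (hj : j < W.length) :
    Y (p + i) j = dot (nth [] B i) (nth [] W j) := by
  induction B generalizing p i with
  | nil => simp at hi
  | cons b B ih =>
    rw [cmpR, Bool.and_eq_true] at hc
    cases i with
    | zero =>
      have := cmpB_spec (Y p) 0 _ hc.1 j (by simpa using hj)
      rw [zero_add] at this
      rw [add_zero, this, nth_map _ [] _ _ _ hj]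
      rfl
    | succ i =>
      have := ih (p + 1) hc.2 i (by simpa using hi)
      rw [nth, ← this]
      congr 1
      ring

/-- the check of one block: `Y = B Z B^T` with `B` given by its rows -/
def blkB (n m : ℕ) (B Z L : List (List ℤ)) (s : ℤ) (Y : List (List (List (List ℤ)))) : Bool :=
  psdC m Z L s && Nat.beq B.length n && (B.all fun b => Nat.ble b.length m) &&
    (fun W : List (List ℤ) => cmpR (mat Y) W 0 B) (rowsW Z B)

theorem mem_nth {α : Type} (d : α) (l : List α) (i : ℕ) (hi : i < l.length) : nth d l i ∈ l := by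
  induction l generalizing i with
  | nil => simp at hi
  | cons a l ih =>
    cases i with
    | zero => exact List.mem_cons_self
    | succ i => exact List.mem_cons_of_mem _ (ih i (by simpa using hi))

theorem blkB_spec {n m : ℕ} {B Z L : List (List ℤ)} {s : ℤ} {Y : List (List (List (List ℤ)))}
    (h : blkB n m B Z L s Y = true) : PSDn n (mat Y) := by
  unfold blkB at h
  simp only [Bool.and_eq_true] at h
  obtain ⟨⟨⟨h1, h2⟩, h3⟩, h4⟩ := h
  have hZ : Z.length = m := by
    unfold psdC at h1
    simp only [Bool.and_eq_true] at h1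
    exact Nat.eq_of_beq_eq_true h1.1.1.1.2
  have hZr : ∀ x < m, (nth [] Z x).length = m := by
    intro x hx
    unfold psdC at h1
    simp only [Bool.and_eq_true] at h1
    exact (rowsB_spec s m L 0 Z L h1.2 x (by omega)).1
  have hB := Nat.eq_of_beq_eq_true h2
  have hBl : ∀ i < n, (nth [] B i).length ≤ m := by
    intro i hi
    exact Nat.le_of_ble_eq_true (List.all_eq_true.1 h3 _ (mem_nth [] B i (by omega)))
  have h5 := (psdC_spec h1).conj (n := n) (fun p x => (fn B p x : ℝ))
  obtain ⟨t, b, hb⟩ := h5
  refine ⟨t, b, fun p hp q hq => ?_⟩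
  rw [← hb p hp q hq]
  have hW : (rowsW Z B).length = n := by unfold rowsW; rw [List.length_map, hB]
  have h6 := cmpR_spec (mat Y) (rowsW Z B) 0 B h4 p q (by omega) (by omega)
  rw [zero_add] at h6
  have h7 : nth [] (rowsW Z B) q = Z.map fun z => dot z (nth [] B q) := by
    unfold rowsW
    rw [nth_map _ [] _ _ _ (by omega)]
  have h8 : mat Y p q = ∑ x ∈ range m, ∑ y ∈ range m, fn B p x * fn Z x y * fn B q y := by
    rw [h6, h7, dot_sum _ _ m (hBl p hp)]
    refine Finset.sum_congr rfl fun x hx => ?_
    have hx' := Finset.mem_range.1 hx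
    rw [nth_map _ [] _ _ _ (by omega), dot_sum _ _ m (le_of_eq (hZr x hx')), Finset.mul_sum]
    exact Finset.sum_congr rfl fun y _ => by unfold fn; ring
  rw [h8]
  push_cast
  rfl

theorem psdn_nil {n : ℕ} {Y : List (List (List (List ℤ)))} (h : Y = []) : PSDn n (mat Y) := by
  subst h
  refine ⟨0, fun _ _ => 0, fun p _ q _ => ?_⟩
  have h0 : mat [] p q = 0 := by
    unfold mat at2 blk
    rw [nth_nil, nth_nil, nth_nil, nth_nil]
  rw [h0]
  simp

end K5

end Pool.Agent.Work.MP_f94384_co.Flag
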