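import Pool.Agent.Work.MP_f94384_co.Flag.Chk4

/-!
# Linearity: the table of the parametric certificate of order 4
-/

set_option autoImplicit false
set_option linter.unusedSectionVars false

open Finset

namespace Pool.Agent.Work.MP_f94384_co.Flag

namespace Chk

/-- polynomial of degree 4 -/
def P5 (t : ℤ) (f : ℕ → ℤ) : ℤ := f 0 + t * f 1 + t ^ 2 * f 2 + t ^ 3 * f 3 + t ^ 4 * f 4

theorem fn_nil (a b : ℕ) : fn [] a b = 0 := rfl

theorem cr_nil (k S S' i j : ℕ) : cr k S S' (fn []) i j = 0 := by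
  unfold cr
  simp [fn_nil]

theorem idn_nil (k S i j : ℕ) : idn k S (fn []) i j = 0 := by
  unfold idn
  simp [fn_nil]

theorem tl_nil (k S m i j : ℕ) : tl k S m (fn []) i j = 0 := by
  unfold tl
  rw [sumN_eq]
  simp [fn_nil]

theorem cr_lin (k S S' : ℕ) (u t : ℤ) (Y : ℕ → ℕ → ℕ → ℤ) (i j : ℕ) :
    cr k S S' (fun a b => u * P5 t (fun l => Y l a b)) i j =
      u * P5 t (fun l => cr k S S' (Y l) i j) := by
  unfold cr
  split_ifs <;> simp [P5]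

theorem idn_lin (k S : ℕ) (u t : ℤ) (Y : ℕ → ℕ → ℕ → ℤ) (i j : ℕ) :
    idn k S (fun a b => u * P5 t (fun l => Y l a b)) i j =
      u * P5 t (fun l => idn k S (Y l) i j) := by
  unfold idn
  split_ifs <;> simp [P5]

theorem sumN_lin (n : ℕ) (u t : ℤ) (b : ℕ → Bool) (f : ℕ → ℕ → ℤ) :
    sumN n (fun c => if b c = true then u * P5 t (fun l => f l c) else 0) =
      u * P5 t (fun l => sumN n (fun c => if b c = true then f l c else 0)) := by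
  induction n with
  | zero => simp [sumN, P5]
  | succ n ih =>
    simp only [sumN]
    rw [ih]
    unfold P5
    split_ifs <;> ring

theorem tl_lin (k S m : ℕ) (u t : ℤ) (Y : ℕ → ℕ → ℕ → ℤ) (i j : ℕ) :
    tl k S m (fun a b => u * P5 t (fun l => Y l a b)) i j =
      u * P5 t (fun l => tl k S m (Y l) i j) := by
  unfold tl
  split_ifs
  · exact sumN_lin (k + 1) u t (fun c => m.testBit c)
      (fun l c => Y l (2 ^ k * c + S) (2 ^ k * j + S))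
  · simp [P5]
  · simp [P5]

theorem fZ_lin (k m : ℕ) (u t : ℤ) (Y : ℕ → ℕ → ℕ → ℤ) (i j : ℕ) :
    fZ k m (fun a b => u * P5 t (fun l => Y l a b)) i j =
      u * P5 t (fun l => fZ k m (Y l) i j) := by
  unfold fZ
  split_ifs
  · exact sumN_lin (k + 1) u t (fun c => m.testBit c) (fun l c => Y l c j)
  · simp [P5]
  · simp [P5]

theorem fE_lin (k S S' m : ℕ) (v w u t : ℤ) (Y : ℕ → ℕ → ℕ → ℤ) (i j : ℕ) :
    fE k S S' m v w (fun a b => u * P5 t (fun l => Y l a b)) i j =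
      u * (v * P5 t (fun l => fE k S S' m 1 0 (Y l) i j) -
        w * P5 t (fun l => idn k S (Y l) i j)) := by
  unfold fE
  rw [cr_lin, idn_lin, tl_lin]
  unfold P5
  split_ifs <;> ring

theorem fE_split (k S S' m : ℕ) (v w : ℤ) (Y : ℕ → ℕ → ℤ) (i j : ℕ) :
    fE k S S' m v w Y i j = v * fE k S S' m 1 0 Y i j - w * idn k S Y i j := by
  unfold fE
  split_ifs <;> ring

theorem fQ_split (k S S' m : ℕ) (v w x : ℤ) (a : ℕ) (Y : ℕ → ℕ → ℤ) (i j : ℕ) :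
    fQ k S S' m v w x a Y i j = v * fQ k S S' m 1 0 0 a Y i j +
      w * fQ k S S' m 0 1 0 a Y i j + x * fQ k S S' m 0 0 1 a Y i j := by
  unfold fQ
  split_ifs <;> ring

theorem fQ_lin (k S S' m : ℕ) (v w x : ℤ) (n : ℕ) (u t : ℤ) (Y : ℕ → ℕ → ℕ → ℤ) (i j : ℕ) :
    fQ k S S' m v w x n (fun a b => u * P5 t (fun l => Y l a b)) i j =
      u * P5 t (fun l => fQ k S S' m v w x n (Y l) i j) := by
  unfold fQ
  rw [cr_lin, idn_lin, tl_lin]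
  unfold P5
  split_ifs <;> ring

theorem fE_nil (k S S' m : ℕ) (v w : ℤ) (i j : ℕ) : fE k S S' m v w (fn []) i j = 0 := by
  unfold fE
  rw [cr_nil, idn_nil, tl_nil]
  simp

theorem fQ_nil (k S S' m : ℕ) (v w x : ℤ) (n i j : ℕ) :
    fQ k S S' m v w x n (fn []) i j = 0 := by
  unfold fQ
  rw [cr_nil, idn_nil, tl_nil]
  simp

theorem fQ_zero (k S S' m : ℕ) (v w x : ℤ) (n i j : ℕ) :
    fQ k S S' m v w x n (fun _ _ => 0) i j = 0 := fQ_nil k S S' m v w x n i j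

/-- the certificate for `r = t + 5` -/
def C4 (t : ℤ) : Cert ℤ where
  U h a b := (t + 4) * P5 t fun l => fn (Ut l h) a b
  E h a b := 1 * P5 t fun l => fn (Et l h) a b
  Q h n a b := if n = 0 then (t + 4) * P5 t fun l => fn (Qt l h) a b else 0
  Z h a b := (t + 4) * P5 t fun l => zt l h a b
  m := (t + 5) * (t + 4)
  q := (t + 4) * (t + 3)
  f := (t + 5) * (t + 2)

theorem C4_table (t : ℤ) (c i j : ℕ) :
    T 2 (C4 t) (dec 4 c) i j = (t + 4) * P5 t (fun k => F4 k c i j) := by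
  rw [T_eq 2 (C4 t) c i j]
  unfold fT
  have t2 : tri 2 = 1 := rfl
  have t3 : tri 3 = 3 := rfl
  have hQ1 : (C4 t).Q (c % 2 ^ tri 2) 1 = fun _ _ => 0 := by
    funext a b
    rfl
  have hQ0 : (C4 t).Q (c % 2 ^ tri 2) 0 =
      fun a b => (t + 4) * P5 t fun l => fn (Qt l (c % 2 ^ tri 2)) a b := by
    funext a b
    rfl
  simp only [sumN]
  rw [hQ0, hQ1, fQ_zero, fQ_lin]
  have hU : (C4 t).U (c % 2 ^ tri 2) =
      fun a b => (t + 4) * P5 t fun l => fn (Ut l (c % 2 ^ tri 2)) a b := rfl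
  have hE : (C4 t).E (c % 2 ^ tri 2) =
      fun a b => 1 * P5 t fun l => fn (Et l (c % 2 ^ tri 2)) a b := rfl
  have hZ : (C4 t).Z (c % 2 ^ tri (2 + 1)) =
      fun a b => (t + 4) * P5 t fun l => zt l (c % 2 ^ tri (2 + 1)) a b := rfl
  rw [hU, hE, hZ, cr_lin, fE_lin, fZ_lin]
  simp only [t2, t3, show (2 + 1) = 3 from rfl, pow_one,
    show (2 ^ 3 : ℕ) = 8 from rfl, show (2 ^ 2 : ℕ) = 4 from rfl]
  unfold F4 G4
  have e4 : Et 4 (c % 2) = [] := rfl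
  have q3 : Qt 3 (c % 2) = [] := rfl
  have q4 : Qt 4 (c % 2) = [] := rfl
  have e10 : Et1 0 (c % 2) = [] := rfl
  have e11 : Et1 1 (c % 2) = Et 0 (c % 2) := rfl
  have e12 : Et1 2 (c % 2) = Et 1 (c % 2) := rfl
  have e13 : Et1 3 (c % 2) = Et 2 (c % 2) := rfl
  have e14 : Et1 4 (c % 2) = Et 3 (c % 2) := rfl
  have q10 : Qt1 0 (c % 2) = [] := rfl
  have q11 : Qt1 1 (c % 2) = Qt 0 (c % 2) := rfl
  have q12 : Qt1 2 (c % 2) = Qt 1 (c % 2) := rfl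
  have q13 : Qt1 3 (c % 2) = Qt 2 (c % 2) := rfl
  have q14 : Qt1 4 (c % 2) = [] := rfl
  have q20 : Qt2 0 (c % 2) = [] := rfl
  have q21 : Qt2 1 (c % 2) = [] := rfl
  have q22 : Qt2 2 (c % 2) = Qt 0 (c % 2) := rfl
  have q23 : Qt2 3 (c % 2) = Qt 1 (c % 2) := rfl
  have q24 : Qt2 4 (c % 2) = Qt 2 (c % 2) := rfl
  have hm : (C4 t).m = (t + 5) * (t + 4) := rfl
  have hq : (C4 t).q = (t + 4) * (t + 3) := rfl
  have hf : (C4 t).f = (t + 5) * (t + 2) := rfl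
  rw [hm, hq, hf]
  simp only [P5]
  rw [e4, q3, q4, e10, e11, e12, e13, e14, q10, q11, q12, q13, q14, q20, q21, q22, q23, q24]
  simp only [fE_nil, fQ_nil, idn_nil]
  rw [fE_split 2 _ _ _ 5 3 (fn (Et 0 (c % 2))), fE_split 2 _ _ _ 5 3 (fn (Et 1 (c % 2))),
    fE_split 2 _ _ _ 5 3 (fn (Et 2 (c % 2))), fE_split 2 _ _ _ 5 3 (fn (Et 3 (c % 2))),
    fE_split 2 _ _ _ 1 1 (fn (Et 0 (c % 2))), fE_split 2 _ _ _ 1 1 (fn (Et 1 (c % 2))),
    fE_split 2 _ _ _ 1 1 (fn (Et 2 (c % 2))), fE_split 2 _ _ _ 1 1 (fn (Et 3 (c % 2)))]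
  rw [fQ_split 2 _ _ _ 20 12 10 0 (fn (Qt 0 (c % 2))),
    fQ_split 2 _ _ _ 20 12 10 0 (fn (Qt 1 (c % 2))),
    fQ_split 2 _ _ _ 20 12 10 0 (fn (Qt 2 (c % 2))),
    fQ_split 2 _ _ _ 9 7 7 0 (fn (Qt 0 (c % 2))),
    fQ_split 2 _ _ _ 9 7 7 0 (fn (Qt 1 (c % 2))),
    fQ_split 2 _ _ _ 9 7 7 0 (fn (Qt 2 (c % 2))),
    fQ_split 2 _ _ _ 1 1 1 0 (fn (Qt 0 (c % 2))),
    fQ_split 2 _ _ _ 1 1 1 0 (fn (Qt 1 (c % 2))),
    fQ_split 2 _ _ _ 1 1 1 0 (fn (Qt 2 (c % 2)))]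
  rw [fQ_split 2 _ _ _ ((t + 5) * (t + 4)) ((t + 4) * (t + 3)) ((t + 5) * (t + 2)) 0
      (fn (Qt 0 (c % 2))),
    fQ_split 2 _ _ _ ((t + 5) * (t + 4)) ((t + 4) * (t + 3)) ((t + 5) * (t + 2)) 0
      (fn (Qt 1 (c % 2))),
    fQ_split 2 _ _ _ ((t + 5) * (t + 4)) ((t + 4) * (t + 3)) ((t + 5) * (t + 2)) 0
      (fn (Qt 2 (c % 2)))]
  ring

end Chk

end Pool.Agent.Work.MP_f94384_co.Flag
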