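import Pool.Agent.Work.MP_f94384_co.Flag.Sym

/-!
# Item DEC: the code of a pattern
-/

set_option autoImplicit false

open Finset

namespace Pool.Agent.Work.MP_f94384_co.Flag

namespace NDEC

/-- a number given by its bits -/
def bsum (m : ℕ) (b : ℕ → Bool) : ℕ := ∑ i ∈ range m, if b i = true then 2 ^ i else 0

theorem bsum_succ (m : ℕ) (b : ℕ → Bool) :
    bsum (m + 1) b = 2 ^ m * (if b m = true then 1 else 0) + bsum m b := by
  unfold bsum
  rw [Finset.sum_range_succ]
  by_cases h : b m = true
  · rw [if_pos h, if_pos h, mul_one, add_comm]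
  · rw [if_neg h, if_neg h, mul_zero, zero_add, add_zero]

theorem bsum_lt (m : ℕ) (b : ℕ → Bool) : bsum m b < 2 ^ m := by
  induction m with
  | zero => simp [bsum]
  | succ m ih =>
    rw [bsum_succ, pow_succ]
    split_ifs <;> omega

theorem testBit_bsum (m : ℕ) (b : ℕ → Bool) (i : ℕ) (hi : i < m) :
    (bsum m b).testBit i = b i := by
  induction m with
  | zero => omega
  | succ m ih =>
    rw [bsum_succ, Nat.testBit_two_pow_mul_add _ (bsum_lt m b)]
    rcases Nat.lt_or_ge i m with h | h
    · rw [if_pos h, ih h]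
    · have him : i = m := by omega
      subst him
      rw [if_neg (lt_irrefl _), Nat.sub_self]
      by_cases hb : b i = true
      · rw [if_pos hb, hb]
        rfl
      · rw [if_neg hb, (Bool.not_eq_true _).mp hb]
        rfl

theorem tri_succ (k : ℕ) : (k + 1) * (k + 1 - 1) / 2 = k * (k - 1) / 2 + k :=
  Nat.triangle_succ k

theorem tri_mono {j k : ℕ} (h : j ≤ k) : j * (j - 1) / 2 ≤ k * (k - 1) / 2 :=
  Nat.div_le_div_right (Nat.mul_le_mul h (Nat.sub_le_sub_right h 1))

theorem enc_succ (k : ℕ) (p : ℕ → ℕ → Bool) :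
    enc (k + 1) p = 2 ^ (k * (k - 1) / 2) * bsum k (fun i => p i k) + enc k p := by
  unfold enc bsum
  rw [Finset.sum_range_succ, add_comm, Finset.mul_sum]
  congr 1
  refine Finset.sum_congr rfl fun i _ => ?_
  by_cases h : p i k = true
  · rw [if_pos h, if_pos h, pow_add]
  · rw [if_neg h, if_neg h, mul_zero]

end NDEC

open NDEC

theorem enc_lt (N : ℕ) (p : ℕ → ℕ → Bool) : enc N p < 2 ^ (N * (N - 1) / 2) := by
  induction N with
  | zero => simp [enc]
  | succ k ih =>
    rw [enc_succ, tri_succ, pow_add]
    have h := bsum_lt k (fun i => p i k)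
    calc 2 ^ (k * (k - 1) / 2) * bsum k (fun i => p i k) + enc k p
        < 2 ^ (k * (k - 1) / 2) * bsum k (fun i => p i k) + 2 ^ (k * (k - 1) / 2) :=
          Nat.add_lt_add_left ih _
      _ = 2 ^ (k * (k - 1) / 2) * (bsum k (fun i => p i k) + 1) := by ring
      _ ≤ _ := Nat.mul_le_mul_left _ h

theorem testBit_enc (N : ℕ) (p : ℕ → ℕ → Bool) (i j : ℕ) (hij : i < j) (hj : j < N) :
    (enc N p).testBit (j * (j - 1) / 2 + i) = p i j := by
  induction N with
  | zero => omega
  | succ k ih =>
    rw [enc_succ, Nat.testBit_two_pow_mul_add _ (enc_lt k p)]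
    rcases Nat.lt_or_ge j k with h | h
    · have h1 : j * (j - 1) / 2 + i < k * (k - 1) / 2 := by
        have h2 := tri_mono (Nat.succ_le_of_lt h)
        rw [Nat.succ_eq_add_one, tri_succ] at h2
        omega
      rw [if_pos h1, ih h]
    · have hjk : j = k := by omega
      subst hjk
      rw [if_neg (by omega), Nat.add_sub_cancel_left, testBit_bsum _ _ _ hij]

theorem testBit_enc_out (N : ℕ) (p : ℕ → ℕ → Bool) (i j : ℕ) (hj : N ≤ j) :
    (enc N p).testBit (j * (j - 1) / 2 + i) = false := by
  refine Nat.testBit_lt_two_pow (lt_of_lt_of_le (enc_lt N p) ?_)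
  refine Nat.pow_le_pow_right (by norm_num) ?_
  have := tri_mono hj
  omega

theorem dec_enc (N : ℕ) (p : ℕ → ℕ → Bool) (hs : ∀ i j, p i j = p j i)
    (hi : ∀ i, p i i = false) (hN : ∀ i j, p i j = true → i < N ∧ j < N) :
    dec (enc N p) = p := by
  have key : ∀ i j, i < j → (enc N p).testBit (j * (j - 1) / 2 + i) = p i j := by
    intro i j hij
    rcases Nat.lt_or_ge j N with h | h
    · exact testBit_enc N p i j hij h
    · rw [testBit_enc_out N p i j h]
      by_contra hne
      have hp : p i j = true := by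
        cases hpp : p i j
        · exact absurd hpp.symm hne
        · rfl
      have := (hN i j hp).2
      omega
  funext i j
  unfold dec
  rcases lt_trichotomy i j with h | h | h
  · rw [if_pos h, key i j h]
  · subst h
    rw [if_neg (lt_irrefl _), if_neg (lt_irrefl _), hi]
  · rw [if_neg (by omega), if_pos h, key j i h, hs]

open Classical in
theorem pr_DEC : DEC := by
  intro N V _ _ G v
  refine ⟨dec_enc N _ ?_ ?_ ?_, enc_lt N _⟩
  · intro i j
    unfold pat
    by_cases h : i < N ∧ j < N
    · rw [dif_pos h, dif_pos h.symm]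
      exact decide_eq_decide.2 (G.adj_comm _ _)
    · rw [dif_neg h, dif_neg (fun h' => h h'.symm)]
  · intro i
    unfold pat
    by_cases h : i < N ∧ i < N
    · rw [dif_pos h]
      exact decide_eq_false (G.loopless.irrefl _)
    · rw [dif_neg h]
  · intro i j h
    unfold pat at h
    by_contra hne
    rw [dif_neg hne] at h
    exact absurd h (by decide)

end Pool.Agent.Work.MP_f94384_co.Flag
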