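import Pool.Agent.Work.MP_f94384_co.Flag.Stmts

/-!
# Item FT1: pattern sum of the additional square
-/

set_option autoImplicit false

open Finset

namespace Pool.Agent.Work.MP_f94384_co.Flag

namespace FT1_aux

theorem pos1_lt {a b c : ℕ} (ha : a < 5) (hb : b < 5) : pos1 a b c < 5 := by
  unfold pos1
  split_ifs <;> omega

theorem pick (xv : ℕ → ℝ) {a b : ℕ} (ha : a < 5) (hb : b < 5) (t : ℝ) :
    ∑ i ∈ range 5, ∑ j ∈ range 5, (if i = a ∧ j = b then t else 0) * xv i * xv j =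
      t * xv a * xv b := by
  rw [Finset.sum_eq_single a]
  · rw [Finset.sum_eq_single b]
    · rw [if_pos ⟨rfl, rfl⟩]
    · intro j _ hj
      rw [if_neg (fun h => hj h.2)]
      ring
    · intro h
      exact absurd (Finset.mem_range.mpr hb) h
  · intro i _ hi
    refine Finset.sum_eq_zero fun j _ => ?_
    rw [if_neg (fun h => hi h.1)]
    ring
  · intro h
    exact absurd (Finset.mem_range.mpr ha) h

theorem pick3 (xv : ℕ → ℝ) {a b : ℕ} (ha : a < 5) (hb : b < 5) (P : Prop) [Decidable P] (t : ℝ) :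
    ∑ i ∈ range 5, ∑ j ∈ range 5, (if i = a ∧ j = b ∧ P then t else 0) * xv i * xv j =
      (if P then t else 0) * xv a * xv b := by
  by_cases hP : P
  · simp only [hP, and_true, if_true]
    exact pick xv ha hb t
  · simp [hP]

theorem step (m q : ℝ) (Y : ℕ → ℕ → ℝ) (p : ℕ → ℕ → Bool) (xv : ℕ → ℝ) :
    ∑ i ∈ range 5, ∑ j ∈ range 5, T1 m q Y p i j * xv i * xv j =
      ∑ c ∈ range 3, ∑ c' ∈ range 3,
        ((if p 1 3 = true then m * Y (row1 p 1 2 c) (row1 p 3 4 c') else 0) *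
            xv (pos1 1 2 c) * xv (pos1 3 4 c') +
          (if p (pos1 1 2 c) 4 = true then m * Y (row1 p 1 2 c) (row1 p 1 3 c') else 0) *
            xv 4 * xv (pos1 1 3 c') -
          q * Y (row1 p 1 2 c) (row1 p 1 3 c') * xv (pos1 1 2 c) * xv (pos1 1 3 c')) := by
  unfold T1
  simp only [Finset.sum_mul]
  have h1 : ∀ t : ℕ → ℕ → ℕ → ℕ → ℝ,
      ∑ i ∈ range 5, ∑ j ∈ range 5, ∑ c ∈ range 3, ∑ c' ∈ range 3, t i j c c' =
      ∑ c ∈ range 3, ∑ c' ∈ range 3, ∑ i ∈ range 5, ∑ j ∈ range 5, t i j c c' := by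
    intro t
    calc ∑ i ∈ range 5, ∑ j ∈ range 5, ∑ c ∈ range 3, ∑ c' ∈ range 3, t i j c c'
        = ∑ i ∈ range 5, ∑ c ∈ range 3, ∑ j ∈ range 5, ∑ c' ∈ range 3, t i j c c' :=
          Finset.sum_congr rfl fun i _ => Finset.sum_comm
      _ = ∑ c ∈ range 3, ∑ i ∈ range 5, ∑ j ∈ range 5, ∑ c' ∈ range 3, t i j c c' :=
          Finset.sum_comm
      _ = ∑ c ∈ range 3, ∑ i ∈ range 5, ∑ c' ∈ range 3, ∑ j ∈ range 5, t i j c c' :=
          Finset.sum_congr rfl fun c _ => Finset.sum_congr rfl fun i _ => Finset.sum_comm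
      _ = ∑ c ∈ range 3, ∑ c' ∈ range 3, ∑ i ∈ range 5, ∑ j ∈ range 5, t i j c c' :=
          Finset.sum_congr rfl fun c _ => Finset.sum_comm
  rw [h1]
  refine Finset.sum_congr rfl fun c _ => Finset.sum_congr rfl fun c' _ => ?_
  have e1 : pos1 1 2 c < 5 := pos1_lt (by norm_num) (by norm_num)
  have e2 : pos1 3 4 c' < 5 := pos1_lt (by norm_num) (by norm_num)
  have e3 : pos1 1 3 c' < 5 := pos1_lt (by norm_num) (by norm_num)
  simp only [add_mul, sub_mul, Finset.sum_add_distrib, Finset.sum_sub_distrib]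
  rw [pick3 xv e1 e2, pick3 xv (by norm_num) e3, pick xv e1 e3]

variable {V : Type} [Fintype V] [DecidableEq V]

omit [DecidableEq V] in
theorem sum_cons {n : ℕ} (F : (Fin (n + 1) → V) → ℝ) :
    ∑ v, F v = ∑ a, ∑ v : Fin n → V, F (Matrix.vecCons a v) := by
  rw [← (Fin.consEquiv (fun _ => V)).sum_comp, Fintype.sum_prod_type]
  rfl

theorem sum_five (F : (Fin 5 → V) → ℝ) :
    ∑ v, F v = ∑ u, ∑ w, ∑ z, ∑ w2, ∑ z2, F ![u, w, z, w2, z2] := by
  rw [sum_cons]
  refine Finset.sum_congr rfl fun u _ => ?_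
  rw [sum_cons]
  refine Finset.sum_congr rfl fun w _ => ?_
  rw [sum_cons]
  refine Finset.sum_congr rfl fun z _ => ?_
  rw [sum_cons]
  refine Finset.sum_congr rfl fun w2 _ => ?_
  rw [sum_cons]
  refine Finset.sum_congr rfl fun z2 _ => ?_
  rw [Fintype.sum_unique]
  congr 1

/-- the vertex belonging to the weight `c` -/
def V1 (u w z : V) (c : ℕ) : V := if c = 0 then u else if c = 1 then w else z

omit [Fintype V] [DecidableEq V] in
theorem X1_eq (x : V → ℝ) (u w z : V) (c : ℕ) : X1 x u w z c = x (V1 u w z c) := by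
  unfold X1 V1
  split_ifs <;> rfl

theorem tuple (G : SimpleGraph V) (x : V → ℝ) (m q : ℝ) (Y : ℕ → ℕ → ℝ) (u w z w2 z2 : V) :
    ∑ i : Fin 5, ∑ j : Fin 5, T1 m q Y (pat G ![u, w, z, w2, z2]) i j *
      x (![u, w, z, w2, z2] i) * x (![u, w, z, w2, z2] j) =
    ∑ c ∈ range 3, ∑ c' ∈ range 3,
      (W G w w2 * (m * (Y (8 * c + mk1 G u w z) (8 * c' + mk1 G u w2 z2) * X1 x u w z c *
          X1 x u w2 z2 c')) +
        (W G (V1 u w z c) z2 * x z2) * (m * (Y (8 * c + mk1 G u w z) (8 * c' + mk1 G u w w2) *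
          X1 x u w w2 c')) -
        q * (Y (8 * c + mk1 G u w z) (8 * c' + mk1 G u w w2) * X1 x u w z c *
          X1 x u w w2 c')) := by
  classical
  set v : Fin 5 → V := ![u, w, z, w2, z2] with hv
  set xv : ℕ → ℝ := fun i => if h : i < 5 then x (v ⟨i, h⟩) else 0 with hxv
  have h1 : ∑ i : Fin 5, ∑ j : Fin 5, T1 m q Y (pat G v) i j * x (v i) * x (v j) =
      ∑ i ∈ range 5, ∑ j ∈ range 5, T1 m q Y (pat G v) i j * xv i * xv j := by
    rw [← Fin.sum_univ_eq_sum_range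
      (fun i => ∑ j ∈ range 5, T1 m q Y (pat G v) i j * xv i * xv j)]
    refine Finset.sum_congr rfl fun i _ => ?_
    rw [← Fin.sum_univ_eq_sum_range (fun j => T1 m q Y (pat G v) i j * xv i * xv j)]
    refine Finset.sum_congr rfl fun j _ => ?_
    have e1 : xv i = x (v i) := by simp [hxv]
    have e2 : xv j = x (v j) := by simp [hxv]
    rw [e1, e2]
  rw [h1, step]
  refine Finset.sum_congr rfl fun c hc => Finset.sum_congr rfl fun c' hc' => ?_
  have p13 : (pat G v 1 3 = true) ↔ G.Adj w w2 := by simp [pat, hv]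
  have r12 : ∀ c, row1 (pat G v) 1 2 c = 8 * c + mk1 G u w z := by
    intro c
    have a1 : (pat G v 1 0 = true) ↔ G.Adj w u := by simp [pat, hv]
    have a2 : (pat G v 2 0 = true) ↔ G.Adj z u := by simp [pat, hv]
    have a3 : (pat G v 1 2 = true) ↔ G.Adj w z := by simp [pat, hv]
    unfold row1 mk1
    rw [if_congr a1 rfl rfl, if_congr a2 rfl rfl, if_congr a3 rfl rfl]
    ring
  have r34 : ∀ c, row1 (pat G v) 3 4 c = 8 * c + mk1 G u w2 z2 := by
    intro c
    have a1 : (pat G v 3 0 = true) ↔ G.Adj w2 u := by simp [pat, hv]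
    have a2 : (pat G v 4 0 = true) ↔ G.Adj z2 u := by simp [pat, hv]
    have a3 : (pat G v 3 4 = true) ↔ G.Adj w2 z2 := by simp [pat, hv]
    unfold row1 mk1
    rw [if_congr a1 rfl rfl, if_congr a2 rfl rfl, if_congr a3 rfl rfl]
    ring
  have r13 : ∀ c, row1 (pat G v) 1 3 c = 8 * c + mk1 G u w w2 := by
    intro c
    have a1 : (pat G v 1 0 = true) ↔ G.Adj w u := by simp [pat, hv]
    have a2 : (pat G v 3 0 = true) ↔ G.Adj w2 u := by simp [pat, hv]
    have a3 : (pat G v 1 3 = true) ↔ G.Adj w w2 := by simp [pat, hv]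
    unfold row1 mk1
    rw [if_congr a1 rfl rfl, if_congr a2 rfl rfl, if_congr a3 rfl rfl]
    ring
  have x12 : ∀ c, xv (pos1 1 2 c) = X1 x u w z c := by
    intro c
    unfold pos1 X1
    split_ifs
    · simp [hxv, hv]
    · simp [hxv, hv]
    · simp [hxv, hv]
  have x34 : ∀ c, xv (pos1 3 4 c) = X1 x u w2 z2 c := by
    intro c
    unfold pos1 X1
    split_ifs
    · simp [hxv, hv]
    · simp [hxv, hv]
    · simp [hxv, hv]
  have x13 : ∀ c, xv (pos1 1 3 c) = X1 x u w w2 c := by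
    intro c
    unfold pos1 X1
    split_ifs
    · simp [hxv, hv]
    · simp [hxv, hv]
    · simp [hxv, hv]
  have x4 : xv 4 = x z2 := by simp [hxv, hv]
  have p4 : (pat G v (pos1 1 2 c) 4 = true) ↔ G.Adj (V1 u w z c) z2 := by
    unfold pos1 V1
    split_ifs
    · simp [pat, hv]
    · simp [pat, hv]
    · simp [pat, hv]
  rw [r12, r34, r13, x12, x34, x13, x4]
  have w13 : ∀ t : ℝ, (if pat G v 1 3 = true then t else 0) = W G w w2 * t := by
    intro t
    unfold W
    by_cases h : G.Adj w w2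
    · rw [if_pos (p13.mpr h), if_pos h, one_mul]
    · rw [if_neg (fun h' => h (p13.mp h')), if_neg h, zero_mul]
  have w4 : ∀ t : ℝ, (if pat G v (pos1 1 2 c) 4 = true then t else 0) =
      W G (V1 u w z c) z2 * t := by
    intro t
    unfold W
    by_cases h : G.Adj (V1 u w z c) z2
    · rw [if_pos (p4.mpr h), if_pos h, one_mul]
    · rw [if_neg (fun h' => h (p4.mp h')), if_neg h, zero_mul]
  rw [w13, w4]
  ring

end FT1_aux

open FT1_aux in
theorem pr_FT1 : FT1 := by
  intro V _ _ G x l hE m q Y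
  unfold Phi
  rw [sum_five]
  refine Finset.sum_congr rfl fun u _ => ?_
  simp only [tuple]
  -- the sum over the last vertex in the second part
  have hdeg : ∀ v, ∑ z2, W G v z2 * x z2 = l * x v := fun v => hE v
  -- abbreviations
  set A : V → V → V → V → ℝ := fun w z w2 z2 => ∑ c ∈ range 3, ∑ c' ∈ range 3,
    Y (8 * c + mk1 G u w z) (8 * c' + mk1 G u w2 z2) * X1 x u w z c * X1 x u w2 z2 c' with hA
  have hBk : ∀ w w2, Bk1 G x Y u w w2 = ∑ z, ∑ z2, A w z w2 z2 := fun w w2 => rfl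
  have key : ∀ w z w2, ∑ z2, ∑ c ∈ range 3, ∑ c' ∈ range 3,
      (W G w w2 * (m * (Y (8 * c + mk1 G u w z) (8 * c' + mk1 G u w2 z2) * X1 x u w z c *
          X1 x u w2 z2 c')) +
        (W G (V1 u w z c) z2 * x z2) * (m * (Y (8 * c + mk1 G u w z) (8 * c' + mk1 G u w w2) *
          X1 x u w w2 c')) -
        q * (Y (8 * c + mk1 G u w z) (8 * c' + mk1 G u w w2) * X1 x u w z c *
          X1 x u w w2 c')) =
      m * (W G w w2 * ∑ z2, A w z w2 z2) + (m * l - q * (Fintype.card V : ℝ)) * A w z w w2 := by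
    intro w z w2
    have e1 : ∀ z2, ∑ c ∈ range 3, ∑ c' ∈ range 3,
        W G w w2 * (m * (Y (8 * c + mk1 G u w z) (8 * c' + mk1 G u w2 z2) * X1 x u w z c *
          X1 x u w2 z2 c')) = m * (W G w w2 * A w z w2 z2) := by
      intro z2
      simp only [hA, Finset.mul_sum]
      exact Finset.sum_congr rfl fun c _ => Finset.sum_congr rfl fun c' _ => by ring
    have e2 : ∑ z2, ∑ c ∈ range 3, ∑ c' ∈ range 3,
        (W G (V1 u w z c) z2 * x z2) * (m * (Y (8 * c + mk1 G u w z) (8 * c' + mk1 G u w w2) *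
          X1 x u w w2 c')) = m * l * A w z w w2 := by
      rw [Finset.sum_comm]
      simp only [hA, Finset.mul_sum]
      refine Finset.sum_congr rfl fun c _ => ?_
      rw [Finset.sum_comm]
      refine Finset.sum_congr rfl fun c' _ => ?_
      rw [← Finset.sum_mul, hdeg, X1_eq x u w z c]
      ring
    have e3 : ∑ _z2 : V, ∑ c ∈ range 3, ∑ c' ∈ range 3,
        q * (Y (8 * c + mk1 G u w z) (8 * c' + mk1 G u w w2) * X1 x u w z c *
          X1 x u w w2 c') = q * (Fintype.card V : ℝ) * A w z w w2 := by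
      have e4 : ∑ c ∈ range 3, ∑ c' ∈ range 3,
        q * (Y (8 * c + mk1 G u w z) (8 * c' + mk1 G u w w2) * X1 x u w z c *
          X1 x u w w2 c') = q * A w z w w2 := by
        simp only [hA, Finset.mul_sum]
      rw [e4, Finset.sum_const, Finset.card_univ, nsmul_eq_mul]
      ring
    simp only [Finset.sum_add_distrib, Finset.sum_sub_distrib]
    rw [e2, e3, Finset.sum_congr rfl fun z2 _ => e1 z2, ← Finset.mul_sum, ← Finset.mul_sum]
    ring
  have h2 : ∀ w z, ∑ w2, ∑ z2, ∑ c ∈ range 3, ∑ c' ∈ range 3,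
      (W G w w2 * (m * (Y (8 * c + mk1 G u w z) (8 * c' + mk1 G u w2 z2) * X1 x u w z c *
          X1 x u w2 z2 c')) +
        (W G (V1 u w z c) z2 * x z2) * (m * (Y (8 * c + mk1 G u w z) (8 * c' + mk1 G u w w2) *
          X1 x u w w2 c')) -
        q * (Y (8 * c + mk1 G u w z) (8 * c' + mk1 G u w w2) * X1 x u w z c *
          X1 x u w w2 c')) =
      ∑ w2, m * (W G w w2 * ∑ z2, A w z w2 z2) +
        (m * l - q * (Fintype.card V : ℝ)) * ∑ w2, A w z w w2 := by
    intro w z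
    rw [Finset.sum_congr rfl fun w2 _ => key w z w2, Finset.sum_add_distrib, Finset.mul_sum]
  have h3 : ∀ w, ∑ z, ∑ w2, ∑ z2, ∑ c ∈ range 3, ∑ c' ∈ range 3,
      (W G w w2 * (m * (Y (8 * c + mk1 G u w z) (8 * c' + mk1 G u w2 z2) * X1 x u w z c *
          X1 x u w2 z2 c')) +
        (W G (V1 u w z c) z2 * x z2) * (m * (Y (8 * c + mk1 G u w z) (8 * c' + mk1 G u w w2) *
          X1 x u w w2 c')) -
        q * (Y (8 * c + mk1 G u w z) (8 * c' + mk1 G u w w2) * X1 x u w z c *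
          X1 x u w w2 c')) =
      m * ∑ w2, W G w w2 * Bk1 G x Y u w w2 +
        (m * l - q * (Fintype.card V : ℝ)) * Bk1 G x Y u w w := by
    intro w
    rw [Finset.sum_congr rfl fun z _ => h2 w z, Finset.sum_add_distrib, ← Finset.mul_sum,
      ← hBk w w, Finset.sum_comm]
    congr 1
    rw [Finset.mul_sum]
    refine Finset.sum_congr rfl fun w2 _ => ?_
    rw [← Finset.mul_sum, ← Finset.mul_sum, ← hBk w w2]
  rw [Finset.sum_congr rfl fun w _ => h3 w, Finset.sum_add_distrib, ← Finset.mul_sum,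
    ← Finset.mul_sum]

end Pool.Agent.Work.MP_f94384_co.Flag
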