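import Pool.Agent.Work.MP_f94384_co.Flag.Sym

/-!
# Item NCL: tuples in clique free graphs
-/

set_option autoImplicit false

open Finset

namespace Pool.Agent.Work.MP_f94384_co.Flag

theorem pr_NCL : DEC → NCL := by
  intro hD s N V _ _ G v hG t ht
  by_contra hcon
  push Not at hcon
  have hadj : ∀ a ∈ t, ∀ b ∈ t, a ≠ b → G.Adj (v a) (v b) := by
    intro a ha b hb hab
    have h := hcon a ha b hb hab
    rw [(hD N V G v).1] at h
    simp only [pat] at h
    simpa using h
  have hinj : Set.InjOn v (t : Set (Fin N)) := by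
    intro a ha b hb hab
    by_contra hne
    have h := hadj a ha b hb hne
    rw [hab] at h
    exact G.loopless.irrefl _ h
  apply hG (t.image v)
  rw [SimpleGraph.isNClique_iff]
  refine ⟨?_, ?_⟩
  · intro x hx y hy hxy
    rw [Finset.coe_image] at hx hy
    obtain ⟨a, ha, rfl⟩ := hx
    obtain ⟨b, hb, rfl⟩ := hy
    exact hadj a ha b hb (fun h => hxy (by rw [h]))
  · rw [Finset.card_image_of_injOn hinj, ht]

end Pool.Agent.Work.MP_f94384_co.Flag
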