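import Pool.Agent.Work.MP_f94384_co.Flag.Sym

/-!
# Item ORB: the symmetrised table on an orbit
-/

set_option autoImplicit false

open Finset

namespace Pool.Agent.Work.MP_f94384_co.Flag

theorem pr_ORB : PP2 → ORB := by
  intro h N g A σ i j hg
  unfold SA
  refine Fintype.sum_equiv (Equiv.mulLeft σ) _ _ ?_
  intro π
  rw [(h N g π σ hg).1]
  simp [Equiv.coe_mulLeft, mul_inv_rev]

end Pool.Agent.Work.MP_f94384_co.Flag
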