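import Pool.Agent.Work.MP_f94384_co.Flag.Sym

/-!
# Item PCL: list version of the permuted code
-/

set_option autoImplicit false

open Finset

namespace Pool.Agent.Work.MP_f94384_co.Flag

theorem PCLP.getD_lst {N : ℕ} (π : Equiv.Perm (Fin N)) (a : ℕ) : (lst π).getD a a = px π a := by
  unfold lst px
  by_cases h : a < N
  · rw [dif_pos h, List.getD_eq_getElem?_getD, List.getElem?_ofFn, dif_pos h]
    rfl
  · rw [dif_neg h, List.getD_eq_getElem?_getD, List.getElem?_ofFn, dif_neg h]
    rfl

theorem PCLP.nodup_lst {N : ℕ} (π : Equiv.Perm (Fin N)) : (lst π).Nodup := by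
  unfold lst
  rw [List.nodup_ofFn]
  intro i j h
  exact π.injective (Fin.ext h)

theorem pr_PCL : PCL := by
  intro N g π
  refine ⟨?_, ?_⟩
  · unfold pcp pcl
    congr 1
    funext a b
    rw [PCLP.getD_lst, PCLP.getD_lst]
  · intro i
    have hlen : (lst π).length = N := by simp [lst]
    have hj : ((π⁻¹ i : Fin N) : ℕ) < (lst π).length := by
      rw [hlen]; exact (π⁻¹ i).2
    have hget : (lst π)[((π⁻¹ i : Fin N) : ℕ)] = (i : ℕ) := by
      simp [lst]
    have := (PCLP.nodup_lst π).idxOf_getElem ((π⁻¹ i : Fin N) : ℕ) hj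
    rw [hget] at this
    exact this.symm

end Pool.Agent.Work.MP_f94384_co.Flag
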