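import Pool.Agent.Work.MP_f94384_co.Flag.Sym

set_option autoImplicit false

open Finset

namespace Pool.Agent.Work.MP_f94384_co.Flag

theorem pr_PCON : PCON := by
  intro n m B Z hZ
  obtain ⟨s, b, hb⟩ := hZ
  refine ⟨s, fun a p => ∑ i ∈ range m, (B i p : ℝ) * b a i, ?_⟩
  intro p _ q _
  have h1 : ((∑ i ∈ range m, ∑ j ∈ range m, B i p * Z i j * B j q : ℤ) : ℝ) =
      ∑ i ∈ range m, ∑ j ∈ range m, ∑ a ∈ range s,
        ((B i p : ℝ) * b a i) * ((B j q : ℝ) * b a j) := by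
    push_cast
    refine Finset.sum_congr rfl fun i hi => Finset.sum_congr rfl fun j hj => ?_
    rw [hb i (mem_range.1 hi) j (mem_range.1 hj), Finset.mul_sum, Finset.sum_mul]
    refine Finset.sum_congr rfl fun a _ => ?_
    ring
  rw [h1]
  have h2 : ∀ i ∈ range m, ∑ j ∈ range m, ∑ a ∈ range s,
        ((B i p : ℝ) * b a i) * ((B j q : ℝ) * b a j) =
      ∑ a ∈ range s, ∑ j ∈ range m, ((B i p : ℝ) * b a i) * ((B j q : ℝ) * b a j) :=
    fun i _ => Finset.sum_comm
  rw [Finset.sum_congr rfl h2, Finset.sum_comm]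
  refine Finset.sum_congr rfl fun a _ => ?_
  rw [Finset.sum_mul_sum]

end Pool.Agent.Work.MP_f94384_co.Flag
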