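import Pool.Agent.Work.MP_f94384_co.Flag.Sym

/-!
# Item PL: sums over permutations as sums over lists
-/

set_option autoImplicit false

open Finset

namespace Pool.Agent.Work.MP_f94384_co.Flag

theorem PL_of_eq (N : ℕ) (F : List ℕ → ℤ)
    (h : (Finset.univ : Finset (Equiv.Perm (Fin N))).val.map lst = (pl N : Multiset (List ℕ))) :
    ∑ π : Equiv.Perm (Fin N), F (lst π) = ((pl N).map F).sum := by
  have h1 : ∑ π : Equiv.Perm (Fin N), F (lst π) =
      (((Finset.univ : Finset (Equiv.Perm (Fin N))).val.map lst).map F).sum := by
    rw [Multiset.map_map]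
    rfl
  rw [h1, h, Multiset.map_coe, Multiset.sum_coe]

theorem pr_PL : PL := by
  intro N F hN
  apply PL_of_eq
  interval_cases N
  · decide +kernel
  · decide +kernel
  · decide +kernel
  · decide +kernel
  · decide +kernel
  · decide +kernel

end Pool.Agent.Work.MP_f94384_co.Flag
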