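import Pool.Agent.Work.MP_f94384_co.Flag.Sym

/-!
# Positive semidefinite matrices from a triangular matrix and a diagonally dominant remainder
-/

set_option autoImplicit false

open Finset

namespace Pool.Agent.Work.MP_f94384_co.Flag

theorem pr_PLL : PADD → PCON → PDD → PLL := by
  intro hadd hcon hdd n m B L R hsym hdom
  have h1 : PSDn m (fun i j => ∑ a ∈ range m, L i a * L j a) := by
    refine ⟨m, fun a p => (L p a : ℝ), ?_⟩
    intro p _ q _
    push_cast
    rfl
  have h2 : PSDn m R := hdd m R hsym hdom
  have h3 := hadd m _ R h1 h2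
  exact hcon n m B _ h3

end Pool.Agent.Work.MP_f94384_co.Flag
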