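import Pool.Agent.Work.MP_f94384_co.Flag.Sym
import Pool.Agent.Work.MP_f94384_co.Flag.Code

/-!
# Item PP2: composition of permutations (helper17)
-/

set_option autoImplicit false

open Finset

namespace Pool.Agent.Work.MP_f94384_co.Flag

theorem PP2_dec_symm (g i j : ℕ) : dec g i j = dec g j i := by
  unfold dec
  rcases lt_trichotomy i j with h | h | h
  · rw [if_pos h, if_neg (by omega), if_pos h]
  · subst h; rfl
  · rw [if_neg (by omega), if_pos h, if_pos h]

theorem PP2_dec_irr (g i : ℕ) : dec g i i = false := by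
  unfold dec
  rw [if_neg (lt_irrefl _), if_neg (lt_irrefl _)]

theorem PP2_dec_enc (N : ℕ) (p : ℕ → ℕ → Bool) (hs : ∀ i j, p i j = p j i)
    (hi : ∀ i, p i i = false) (a b : ℕ) (ha : a < N) (hb : b < N) :
    dec (enc N p) a b = p a b := by
  unfold dec
  rcases lt_trichotomy a b with h | h | h
  · rw [if_pos h]
    exact Chk.testBit_enc N p a b h hb
  · subst h
    rw [if_neg (lt_irrefl _), if_neg (lt_irrefl _), hi]
  · rw [if_neg (by omega), if_pos h, hs a b]
    exact Chk.testBit_enc N p b a h ha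

theorem PP2_px_lt {N : ℕ} (π : Equiv.Perm (Fin N)) (a : ℕ) (ha : a < N) : px π a < N := by
  unfold px
  rw [dif_pos ha]
  exact (π ⟨a, ha⟩).2

theorem PP2_px_coe {N : ℕ} (π : Equiv.Perm (Fin N)) (a : Fin N) : px π a = (π a : ℕ) := by
  unfold px
  rw [dif_pos a.2]

theorem PP2_px_mul {N : ℕ} (π σ : Equiv.Perm (Fin N)) (a : ℕ) :
    px (σ * π) a = px σ (px π a) := by
  by_cases ha : a < N
  · have h1 : a = ((⟨a, ha⟩ : Fin N) : ℕ) := rfl
    rw [h1, PP2_px_coe, PP2_px_coe, PP2_px_coe, Equiv.Perm.mul_apply]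
  · unfold px
    rw [dif_neg ha, dif_neg ha, dif_neg ha]

theorem PP2_dec_pcp {N : ℕ} (π : Equiv.Perm (Fin N)) (g a b : ℕ) (ha : a < N) (hb : b < N) :
    dec (pcp N π g) a b = dec g (px π a) (px π b) := by
  unfold pcp
  rw [PP2_dec_enc N _ (fun i j => PP2_dec_symm _ _ _) (fun i => PP2_dec_irr _ _) a b ha hb]

theorem pr_PP2 : PP2 := by
  intro N g π σ _
  refine ⟨?_, Chk.enc_lt _ _, ?_⟩
  · have h1 : pcp N π (pcp N σ g) = enc N (fun a b => dec (pcp N σ g) (px π a) (px π b)) := rfl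
    have h2 : pcp N (σ * π) g = enc N (fun a b => dec g (px (σ * π) a) (px (σ * π) b)) := rfl
    rw [h1, h2]
    apply Chk.enc_congr
    intro i hi j hj
    rw [PP2_dec_pcp σ g _ _ (PP2_px_lt π i hi) (PP2_px_lt π j hj), PP2_px_mul, PP2_px_mul]
  · intro a b
    rw [PP2_dec_pcp π g a b a.2 b.2, PP2_px_coe, PP2_px_coe]

end Pool.Agent.Work.MP_f94384_co.Flag
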