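import Pool.Agent.Work.MP_f94384_co.Flag.Sym

/-!
# The pattern of a permuted tuple
-/

set_option autoImplicit false

open Finset

namespace Pool.Agent.Work.MP_f94384_co.Flag

namespace ItPPC

theorem px_lt {N : ℕ} (π : Equiv.Perm (Fin N)) (a : ℕ) (ha : a < N) :
    px π a = (π ⟨a, ha⟩ : ℕ) := by
  unfold px
  rw [dif_pos ha]

theorem pat_perm (N : ℕ) (V : Type) [Fintype V] [DecidableEq V] (G : SimpleGraph V)
    (v : Fin N → V) (π : Equiv.Perm (Fin N)) (a b : ℕ) (ha : a < N) (hb : b < N) :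
    pat G (fun i => v (π i)) a b = pat G v (px π a) (px π b) := by
  rw [px_lt π a ha, px_lt π b hb]
  unfold pat
  rw [dif_pos ⟨ha, hb⟩, dif_pos ⟨(π ⟨a, ha⟩).2, (π ⟨b, hb⟩).2⟩]

theorem enc_congr (N : ℕ) (p q : ℕ → ℕ → Bool) (h : ∀ a < N, ∀ b < N, p a b = q a b) :
    enc N p = enc N q := by
  unfold enc
  refine Finset.sum_congr rfl fun j hj => Finset.sum_congr rfl fun i hi => ?_
  have hj' := Finset.mem_range.mp hj
  have hi' := Finset.mem_range.mp hi
  rw [h i (by omega) j hj']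

end ItPPC

theorem pr_PPC : DEC → PPC := by
  intro hD N V _ _ G v π
  unfold pcp
  rw [(hD N V G v).1]
  exact ItPPC.enc_congr N _ _ fun a ha b hb => ItPPC.pat_perm N V G v π a b ha hb

end Pool.Agent.Work.MP_f94384_co.Flag
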