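import Pool.Agent.Work.MP_f94384_co.Flag.Sym

/-!
# Item REP: representatives suffice
-/

set_option autoImplicit false

open Finset

namespace Pool.Agent.Work.MP_f94384_co.Flag

theorem pr_REP : SYM → PP2 → ORB → REP := by
  intro hS hP hO r N A L hL hrep hneg
  apply hS r N A
  intro g hg hcl i j
  obtain ⟨g0, hg0, σ, rfl⟩ := hrep g hg
  have h0 := hL g0 hg0
  rw [hO N g0 A σ i j h0, hO N g0 A σ j i h0]
  apply hneg g0 hg0
  intro t ht
  obtain ⟨a, ha, b, hb, hab, hd⟩ := hcl (t.map (σ⁻¹ : Equiv.Perm (Fin N)).toEmbedding)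
    (by rw [Finset.card_map]; exact ht)
  rw [Finset.mem_map] at ha hb
  obtain ⟨a', ha', rfl⟩ := ha
  obtain ⟨b', hb', rfl⟩ := hb
  refine ⟨a', ha', b', hb', ?_, ?_⟩
  · rintro rfl
    exact hab rfl
  · rw [(hP N g0 σ 1 h0).2.2] at hd
    simpa using hd

end Pool.Agent.Work.MP_f94384_co.Flag
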