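import Pool.Agent.Work.MP_f94384_co.Flag.Stmts

/-!
# Item SPLIT
-/

set_option autoImplicit false

open Finset

namespace Pool.Agent.Work.MP_f94384_co.Flag

theorem split_one (n : ℕ) (V : Type) [Fintype V] [DecidableEq V] (F : (Fin (n + 1) → V) → ℝ) :
    ∑ v, F v = ∑ ρ : Fin n → V, ∑ w, F (Fin.snoc (α := fun _ => V) ρ w) := by
  rw [← (Fin.snocEquiv (fun _ : Fin (n + 1) => V)).sum_comp, Fintype.sum_prod_type,
    Finset.sum_comm]
  rfl

theorem pr_SPLIT : SPLIT := by
  intro k V _ _ F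
  rw [split_one (k + 1), split_one k]
  rfl

end Pool.Agent.Work.MP_f94384_co.Flag
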