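import Pool.Agent.Work.MP_f94384_co.Flag.Sym

/-!
# Item SYM: the sign condition on the symmetrised table
-/

set_option autoImplicit false

open Finset

namespace Pool.Agent.Work.MP_f94384_co.Flag

theorem sym_quad_nonpos {N : ℕ} (S : Fin N → Fin N → ℝ) (y : Fin N → ℝ) (hy : ∀ i, 0 ≤ y i)
    (hS : ∀ i j, S i j + S j i ≤ 0) : ∑ i, ∑ j, S i j * y i * y j ≤ 0 := by
  have h2 : ∑ i, ∑ j, S i j * y i * y j = ∑ i, ∑ j, S j i * y i * y j := by
    rw [Finset.sum_comm]
    exact Finset.sum_congr rfl fun i _ => Finset.sum_congr rfl fun j _ => by ring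
  have h3 : ∑ i, ∑ j, S i j * y i * y j + ∑ i, ∑ j, S j i * y i * y j ≤ 0 := by
    rw [← Finset.sum_add_distrib]
    refine Finset.sum_nonpos fun i _ => ?_
    rw [← Finset.sum_add_distrib]
    refine Finset.sum_nonpos fun j _ => ?_
    have h4 : S i j * y i * y j + S j i * y i * y j = (S i j + S j i) * (y i * y j) := by ring
    rw [h4]
    exact mul_nonpos_of_nonpos_of_nonneg (hS i j) (mul_nonneg (hy i) (hy j))
  linarith

theorem pr_SYM : DEC → NCL → SYM1 → SYM := by
  intro hD hN hS1 r N A hA V _ _ G x hx hG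
  have h1 := hS1 N A V G x
  have h2 : ∑ v : Fin N → V, ∑ i : Fin N, ∑ j : Fin N,
      (SA N A (enc N (pat G v)) i j : ℝ) * x (v i) * x (v j) ≤ 0 := by
    refine Finset.sum_nonpos fun v _ => ?_
    refine sym_quad_nonpos (fun i j => (SA N A (enc N (pat G v)) i j : ℝ)) (fun i => x (v i))
      (fun i => hx (v i)) fun i j => ?_
    have h3 := hA (enc N (pat G v)) (hD N V G v).2 (hN (r + 1) N V G v hG) i j
    exact_mod_cast h3
  have h4 : (0 : ℝ) < (N.factorial : ℝ) := by exact_mod_cast Nat.factorial_pos N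
  rw [← h1] at h2
  by_contra hcon
  push Not at hcon
  exact absurd h2 (not_le.mpr (mul_pos h4 hcon))

end Pool.Agent.Work.MP_f94384_co.Flag
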