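import Pool.Agent.Work.MP_f94384_co.Flag.Sym

set_option autoImplicit false

open Finset

namespace Pool.Agent.Work.MP_f94384_co.Flag

namespace SYM1_aux

theorem key (hD : DEC) (hP : PPC) (N : ℕ) (A : (ℕ → ℕ → Bool) → ℕ → ℕ → ℤ) (V : Type)
    [Fintype V] [DecidableEq V] (G : SimpleGraph V) (x : V → ℝ) (π : Equiv.Perm (Fin N)) :
    Phi G x N (fun p i j => (A p i j : ℝ)) =
      ∑ v : Fin N → V, ∑ i : Fin N, ∑ j : Fin N,
        (A (dec (pcp N π (enc N (pat G v)))) ((π⁻¹ i : Fin N) : ℕ) ((π⁻¹ j : Fin N) : ℕ) : ℝ) *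
          x (v i) * x (v j) := by
  unfold Phi
  rw [← Equiv.sum_comp (Equiv.arrowCongr π.symm (Equiv.refl V))]
  refine Finset.sum_congr rfl fun v _ => ?_
  have hv : (Equiv.arrowCongr π.symm (Equiv.refl V)) v = fun i => v (π i) := by
    funext i
    rfl
  rw [hv, ← hP N V G v π, (hD N V G fun i => v (π i)).1]
  rw [← Equiv.sum_comp π (fun i : Fin N => ∑ j : Fin N,
        (A (pat G fun i => v (π i)) ((π⁻¹ i : Fin N) : ℕ) ((π⁻¹ j : Fin N) : ℕ) : ℝ) *
          x (v i) * x (v j))]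
  refine Finset.sum_congr rfl fun i _ => ?_
  rw [← Equiv.sum_comp π (fun j : Fin N =>
        (A (pat G fun i => v (π i)) ((π⁻¹ (π i) : Fin N) : ℕ) ((π⁻¹ j : Fin N) : ℕ) : ℝ) *
          x (v (π i)) * x (v j))]
  refine Finset.sum_congr rfl fun j _ => ?_
  have hi : ∀ i : Fin N, (π⁻¹ : Equiv.Perm (Fin N)) (π i) = i := fun i => π.symm_apply_apply i
  rw [hi, hi]

end SYM1_aux

/-- Item SYM1: symmetrisation of a pattern sum. -/
theorem pr_SYM1 : DEC → PPC → SYM1 := by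
  intro hD hP N A V _ _ G x
  have h1 : (N.factorial : ℝ) * Phi G x N (fun p i j => (A p i j : ℝ)) =
      ∑ _π : Equiv.Perm (Fin N), Phi G x N (fun p i j => (A p i j : ℝ)) := by
    rw [Finset.sum_const, Finset.card_univ, Fintype.card_perm, Fintype.card_fin, nsmul_eq_mul]
  rw [h1, Finset.sum_congr rfl fun π _ => SYM1_aux.key hD hP N A V G x π, Finset.sum_comm]
  refine Finset.sum_congr rfl fun v _ => ?_
  rw [Finset.sum_comm]
  refine Finset.sum_congr rfl fun i _ => ?_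
  rw [Finset.sum_comm]
  refine Finset.sum_congr rfl fun j _ => ?_
  unfold SA
  rw [Int.cast_sum, Finset.sum_mul, Finset.sum_mul]

end Pool.Agent.Work.MP_f94384_co.Flag
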