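import Pool.Agent.Work.MP_f94384_co.Flag.R2Data

/-!
# The certificate of order 5 for r = 2: the table
-/

set_option autoImplicit false
set_option maxRecDepth 100000

namespace Pool.Agent.Work.MP_f94384_co.Flag.K5.R2

/-- cliques of the excluded patterns -/
def cl (g : ℕ) : List ℕ :=
  bif Nat.beq g 7 then [0, 1, 2] else
  bif Nat.beq g 15 then [0, 1, 2] else
  bif Nat.beq g 31 then [0, 1, 2] else
  bif Nat.beq g 63 then [0, 1, 2] else
  bif Nat.beq g 79 then [0, 1, 2] else
  bif Nat.beq g 87 then [0, 1, 2] else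
  bif Nat.beq g 95 then [0, 1, 2] else
  bif Nat.beq g 116 then [1, 2, 3] else
  bif Nat.beq g 117 then [1, 2, 3] else
  bif Nat.beq g 119 then [0, 1, 2] else
  bif Nat.beq g 127 then [0, 1, 2] else
  bif Nat.beq g 223 then [0, 1, 2] else
  bif Nat.beq g 235 then [0, 1, 4] else
  bif Nat.beq g 237 then [0, 1, 4] else
  bif Nat.beq g 239 then [0, 1, 2] else
  bif Nat.beq g 254 then [0, 2, 3] else
  bif Nat.beq g 255 then [0, 1, 2] else
  bif Nat.beq g 507 then [0, 1, 3] else
  bif Nat.beq g 511 then [0, 1, 2] else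
  bif Nat.beq g 1023 then [0, 1, 2] else
  []

theorem tab_ok : Chk.allCls 5 2 (F5 dat) Chk.rep5 Chk.tau5 Chk.AUT5 cl = true := by
  decide +kernel

end Pool.Agent.Work.MP_f94384_co.Flag.K5.R2
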