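import Pool.Agent.Work.MP_f94384_co.Flag.R3Data

/-!
# The certificate of order 5 for r = 3: the table
-/

set_option autoImplicit false
set_option maxRecDepth 100000

namespace Pool.Agent.Work.MP_f94384_co.Flag.K5.R3

/-- cliques of the excluded patterns -/
def cl (g : ℕ) : List ℕ :=
  bif Nat.beq g 63 then [0, 1, 2, 3] else
  bif Nat.beq g 127 then [0, 1, 2, 3] else
  bif Nat.beq g 255 then [0, 1, 2, 3] else
  bif Nat.beq g 511 then [0, 1, 2, 3] else
  bif Nat.beq g 1023 then [0, 1, 2, 3] else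
  []

theorem tab_ok : Chk.allCls 5 3 (F5 dat) Chk.rep5 Chk.tau5 Chk.AUT5 cl = true := by
  decide +kernel

end Pool.Agent.Work.MP_f94384_co.Flag.K5.R3
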