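import Pool.Agent.Work.MP_f94384_co.Flag.Fin
import Pool.Agent.Work.MP_f94384_co.Flag.R4Psd
import Pool.Agent.Work.MP_f94384_co.Flag.R4Tab

/-!
# The certificate of order 5 for r = 4
-/

set_option autoImplicit false
set_option maxRecDepth 100000

open Finset

namespace Pool.Agent.Work.MP_f94384_co.Flag

namespace K5

open Chk

namespace R4

theorem hU : ∀ t, PSDn 32 (mat (nth [] dU t)) := by
  intro t
  rcases lt_or_ge t 8 with h | h
  · interval_cases t
    · exact blkB_spec pU0
    · exact blkB_spec pU1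
    · exact psdn_nil rfl
    · exact blkB_spec pU3
    · exact psdn_nil rfl
    · exact psdn_nil rfl
    · exact psdn_nil rfl
    · exact blkB_spec pU7
  · exact psdn_nil (nth_ge _ _ _ (le_trans (by decide) h))

theorem hE : ∀ t, PSDn 32 (mat (nth [] dE t)) := by
  intro t
  rcases lt_or_ge t 8 with h | h
  · interval_cases t
    · exact blkB_spec pE0
    · exact blkB_spec pE1
    · exact psdn_nil rfl
    · exact blkB_spec pE3
    · exact psdn_nil rfl
    · exact psdn_nil rfl
    · exact psdn_nil rfl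
    · exact psdn_nil rfl
  · exact psdn_nil (nth_ge _ _ _ (le_trans (by decide) h))

theorem hQ : ∀ t a, PSDn 32 (mat (nth [] (nth [] dQ t) a)) := by
  intro t a
  rcases lt_or_ge t 8 with h | h
  · interval_cases t
    · rcases lt_or_ge a 3 with h' | h'
      · interval_cases a
        · exact blkB_spec pQ0_0
        · exact psdn_nil rfl
        · exact psdn_nil rfl
      · exact psdn_nil (nth_ge _ _ _ (le_trans (by decide) h'))
    · rcases lt_or_ge a 3 with h' | h'
      · interval_cases a
        · exact blkB_spec pQ1_0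
        · exact psdn_nil rfl
        · exact blkB_spec pQ1_2
      · exact psdn_nil (nth_ge _ _ _ (le_trans (by decide) h'))
    · exact psdn_nil (nth_ge _ _ _ (Nat.zero_le a))
    · exact psdn_nil (nth_ge _ _ _ (Nat.zero_le a))
    · exact psdn_nil (nth_ge _ _ _ (Nat.zero_le a))
    · exact psdn_nil (nth_ge _ _ _ (Nat.zero_le a))
    · exact psdn_nil (nth_ge _ _ _ (Nat.zero_le a))
    · exact psdn_nil (nth_ge _ _ _ (Nat.zero_le a))
  · rw [nth_ge [] dQ t (le_trans (by decide) h)]
    exact psdn_nil (nth_nil _ _)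

theorem hY : PSDn 24 (mat dat.Y) := blkB_spec pY

theorem hS : (0 < ∑ c ∈ range 4, ∑ c' ∈ range 4, dat.cert.E 0 (2 ^ 3 * c) (2 ^ 3 * c')) := by
  decide +kernel

theorem good : Good 3 dat.cert where
  m := by decide
  U := hU
  E := hE
  Q := hQ
  Z := by
    intro h a b
    change _ - _ = -(_ - _)
    ring
  S := hS

end R4

end K5

/-- base case: `r = 4` with the constant `1 / 2` -/
theorem PB4 : PB 4 (1 / 2) := by
  have h3 : PB (4 - 1) ((K5.R4.dat.cert.f : ℝ) / K5.R4.dat.cert.m) := by
    have e : ((K5.R4.dat.cert.f : ℝ) / K5.R4.dat.cert.m) = 7 / 18 := by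
      change (((7 : ℤ) : ℝ) / ((18 : ℤ) : ℝ)) = 7 / 18
      norm_num
    rw [e]
    exact PB3
  have h := main1 (r := 4) (by norm_num) K5.R4.good K5.R4.hY
    (K5.nonPos5 4 K5.R4.dat K5.R4.cl K5.R4.tab_ok) h3
  have e : ((K5.R4.dat.cert.q : ℝ) / K5.R4.dat.cert.m) = 1 / 2 := by
    change (((9 : ℤ) : ℝ) / ((18 : ℤ) : ℝ)) = 1 / 2
    norm_num
  rwa [e] at h

end Pool.Agent.Work.MP_f94384_co.Flag
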