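import Pool.Agent.Work.MP_f94384_co.Final

/-!
# Reductions for the flag certificates

`PB r φ`: for every `K_{r+1}`-free graph on a finite type the Rayleigh quotients are at most
`φ |V| + μ`, whenever `-μ` is a lower bound for them. It is equivalent to
`lamMax G + lamMin G ≤ φ |V|`, and passes to subsets of vertices.
-/

open Finset

set_option autoImplicit false

namespace Pool.Agent.Work.MP_f94384_co.Red

/-- the bound `λ_1 + λ_n ≤ φ n` for `K_{r+1}`-free graphs, in Rayleigh form -/
def PB (r : ℕ) (φ : ℝ) : Prop :=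
  ∀ (V : Type) [Fintype V] [DecidableEq V] (G : SimpleGraph V), G.CliqueFree (r + 1) →
    ∀ μ : ℝ, (∀ f : V → ℝ, -μ * sq univ f ≤ qf G univ f) →
      ∀ f : V → ℝ, qf G univ f ≤ (φ * (Fintype.card V : ℝ) + μ) * sq univ f

theorem PB_of_sum {r : ℕ} {φ : ℝ}
    (h : ∀ (V : Type) [Fintype V] [DecidableEq V] (G : SimpleGraph V),
      (univ : Finset V).Nonempty → G.CliqueFree (r + 1) →
        lamMax G + lamMin G ≤ φ * (Fintype.card V : ℝ)) : PB r φ := by
  intro V _ _ G hG μ hμ f
  rcases (univ : Finset V).eq_empty_or_nonempty with hV | hV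
  · have h1 : qf G univ f = 0 := by
      unfold qf
      rw [Finset.sum_eq_zero]
      intro u _
      exact absurd (Finset.mem_univ u) (by rw [hV]; exact Finset.notMem_empty u)
    have h2 : sq univ f = 0 := by
      unfold sq
      rw [Finset.sum_eq_zero]
      intro u _
      exact absurd (Finset.mem_univ u) (by rw [hV]; exact Finset.notMem_empty u)
    rw [h1, h2, mul_zero]
  · obtain ⟨⟨y, hy1, hy2⟩, _⟩ := bot_facts G hV
    obtain ⟨x, _, hx1, _, _, hmax⟩ := top_facts G hV
    have h1 := h V G hV hG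
    have h2 := hμ y
    rw [hy1, hy2] at h2
    refine (hmax f).trans (mul_le_mul_of_nonneg_right ?_ (sq_nonneg' _ _))
    linarith

theorem sum_of_PB {r : ℕ} {φ : ℝ} (h : PB r φ) {V : Type} [Fintype V] [DecidableEq V]
    (G : SimpleGraph V) (hV : (univ : Finset V).Nonempty) (hG : G.CliqueFree (r + 1)) :
    lamMax G + lamMin G ≤ φ * (Fintype.card V : ℝ) := by
  obtain ⟨x, _, hx1, _, hx2, _⟩ := top_facts G hV
  have h1 := h V G hG (-lamMin G) (by simpa using (bot_facts G hV).2) x
  rw [hx1, hx2] at h1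
  linarith

theorem PB_mono {r : ℕ} {φ ψ : ℝ} (h : PB r φ) (hφ : φ ≤ ψ) : PB r ψ := by
  intro V _ _ G hG μ hμ f
  refine (h V G hG μ hμ f).trans (mul_le_mul_of_nonneg_right ?_ (sq_nonneg' _ _))
  have := mul_le_mul_of_nonneg_right hφ (Nat.cast_nonneg (α := ℝ) (Fintype.card V))
  linarith

/-- the bound for subsets of the vertices -/
theorem PB_on {r : ℕ} {φ : ℝ} (h : PB r φ) {V : Type} [Fintype V] [DecidableEq V]
    (G : SimpleGraph V) (S : Finset V) (hS : G.CliqueFreeOn (S : Set V) (r + 1)) {μ : ℝ}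
    (hμ : ∀ f : V → ℝ, -μ * sq univ f ≤ qf G univ f) (f : V → ℝ) :
    qf G S f ≤ (φ * (S.card : ℝ) + μ) * sq S f := by
  classical
  set H : SimpleGraph S := G.comap (Subtype.val : S → V) with hH
  have hW : ∀ u v : S, W H u v = W G u.1 v.1 := by
    intro u v
    unfold W
    rw [hH, SimpleGraph.comap_adj]
  have hq : ∀ g : V → ℝ, qf H univ (fun u : S => g u.1) = qf G S g := by
    intro g
    rw [qf_eq, qf_eq, ← Finset.sum_coe_sort S]
    refine Finset.sum_congr rfl fun u _ => ?_
    rw [← Finset.sum_coe_sort S]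
    exact Finset.sum_congr rfl fun v _ => by rw [hW]
  have hs : ∀ g : V → ℝ, sq univ (fun u : S => g u.1) = sq S g := by
    intro g
    unfold sq
    rw [← Finset.sum_coe_sort S]
  have hfree : H.CliqueFree (r + 1) := by
    intro t ht
    apply hS (t := t.map ⟨Subtype.val, Subtype.val_injective⟩)
    · intro u hu
      rw [Finset.mem_coe, Finset.mem_map] at hu
      obtain ⟨a, _, rfl⟩ := hu
      exact a.2
    · constructor
      · intro u hu v hv huv
        rw [Finset.mem_coe, Finset.mem_map] at hu hv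
        obtain ⟨a, ha, rfl⟩ := hu
        obtain ⟨b, hb, rfl⟩ := hv
        exact ht.1 ha hb fun hab => huv (by rw [hab])
      · rw [Finset.card_map]
        exact ht.2
  have hlow : ∀ g : S → ℝ, -μ * sq univ g ≤ qf H univ g := by
    intro g
    set g' : V → ℝ := fun v => if hv : v ∈ S then g ⟨v, hv⟩ else 0 with hg'
    have e : (fun u : S => g' u.1) = g := by
      funext u
      simp [hg']
    rw [← e, hq, hs]
    exact psd_restrict G hμ S g'
  have := h S H hfree μ hlow (fun u => f u.1)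
  rw [hq, hs, Fintype.card_coe] at this
  exact this

/-- common neighbourhood of `Q` -/
noncomputable def cnb {V : Type} [Fintype V] [DecidableEq V] (G : SimpleGraph V)
    (Q : Finset V) : Finset V :=
  open Classical in univ.filter fun u => ∀ a ∈ Q, G.Adj a u

theorem mem_cnb {V : Type} [Fintype V] [DecidableEq V] {G : SimpleGraph V} {Q : Finset V}
    {u : V} : u ∈ cnb G Q ↔ ∀ a ∈ Q, G.Adj a u := by
  classical
  simp [cnb]

theorem cnb_cliqueFreeOn {V : Type} [Fintype V] [DecidableEq V] {G : SimpleGraph V}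
    {Q : Finset V} {r j k : ℕ} (hG : G.CliqueFree (r + 1)) (hQ : G.IsNClique j Q)
    (h : r + 1 = k + j) : G.CliqueFreeOn (cnb G Q : Set V) k := by
  intro t ht hk
  apply hG (t ∪ Q)
  have hd : Disjoint t Q := by
    rw [Finset.disjoint_left]
    intro u hu hq
    exact (mem_cnb.1 (ht hu) u hq).ne rfl
  rw [SimpleGraph.isNClique_iff]
  constructor
  · rw [SimpleGraph.isClique_iff]
    intro a ha b hb hab
    rw [Finset.mem_coe, Finset.mem_union] at ha hb
    rcases ha with ha | ha <;> rcases hb with hb | hb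
    · exact hk.1 ha hb hab
    · exact (mem_cnb.1 (ht ha) b hb).symm
    · exact mem_cnb.1 (ht hb) a ha
    · exact hQ.1 ha hb hab
  · rw [Finset.card_union_of_disjoint hd, hk.2, hQ.2, h]

/-- the bound on the common neighbourhood of a clique -/
theorem PB_cnb {r j k : ℕ} {φ : ℝ} (hPB : PB k φ) {V : Type} [Fintype V] [DecidableEq V]
    {G : SimpleGraph V} {Q : Finset V} (hG : G.CliqueFree (r + 1)) (hQ : G.IsNClique j Q)
    (h : r = k + j) {μ : ℝ} (hμ : ∀ f : V → ℝ, -μ * sq univ f ≤ qf G univ f) (f : V → ℝ) :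
    qf G (cnb G Q) f ≤ (φ * ((cnb G Q).card : ℝ) + μ) * sq (cnb G Q) f :=
  PB_on hPB G _ (cnb_cliqueFreeOn hG hQ (by omega)) hμ f

theorem PB_large {r : ℕ} (hr : 60 ≤ r) : PB r (1 - 2 / (r : ℝ)) :=
  PB_of_sum fun _ _ _ G hV hG => sum_le_of_large_r G hV hr hG

theorem PB_explicit {r : ℕ} (hr : 2 ≤ r) :
    PB r (1 - 2 / (r : ℝ) + 3 / (2 * (r : ℝ) ^ 3)) :=
  PB_of_sum fun _ _ _ G hV hG => sum_le_explicit G hV hr hG

/-- trivial bound for edgeless graphs -/
theorem PB_one : PB 1 0 := by
  intro V _ _ G hG μ hμ f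
  have h0 : ∀ u v : V, W G u v = 0 := by
    intro u v
    apply W_of_not_adj
    intro huv
    apply hG {u, v}
    rw [SimpleGraph.isNClique_iff, SimpleGraph.isClique_iff]
    refine ⟨?_, Finset.card_pair huv.ne⟩
    intro a ha b hb hab
    simp only [Finset.coe_insert, Finset.coe_singleton, Set.mem_insert_iff,
      Set.mem_singleton_iff] at ha hb
    rcases ha with rfl | rfl <;> rcases hb with rfl | rfl
    · exact absurd rfl hab
    · exact huv
    · exact huv.symm
    · exact absurd rfl hab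
  have h1 : qf G univ f = 0 := by
    rw [qf_eq]
    exact Finset.sum_eq_zero fun u _ => Finset.sum_eq_zero fun v _ => by rw [h0]; ring
  have h2 := hμ f
  rw [h1] at h2 ⊢
  linarith

/-- final statement: upper bounds for all `r ≥ 4` -/
theorem f_upper_of_PB {r n : ℕ} {φ : ℝ} (h : PB r φ) (hr : 1 ≤ r) (hn : 1 ≤ n) :
    f r n ≤ φ * n := by
  obtain ⟨G, hG, hf⟩ := (f_isGreatest hr n).1
  rw [hf]
  have := sum_of_PB h G ⟨⟨0, hn⟩, Finset.mem_univ _⟩ hG
  rwa [Fintype.card_fin] at this

end Pool.Agent.Work.MP_f94384_co.Red
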