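import Pool.Agent.Work.MP_f94384_co.Flag.Fast

/-!
# Kernel checks: relabelling data and class sums
-/

set_option autoImplicit false

open Finset

namespace Pool.Agent.Work.MP_f94384_co.Flag

namespace Chk

/-- check all numbers below `n` -/
def allB : ℕ → (ℕ → Bool) → Bool
  | 0, _ => true
  | n + 1, f => f n && allB n f

theorem allB_iff (n : ℕ) (f : ℕ → Bool) : allB n f = true ↔ ∀ i < n, f i = true := by
  induction n with
  | zero => simp [allB]
  | succ n ih =>
    rw [allB, Bool.and_eq_true, ih]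
    constructor
    · rintro ⟨h1, h2⟩ i hi
      rcases Nat.lt_succ_iff_lt_or_eq.1 hi with h | rfl
      · exact h2 i h
      · exact h1
    · intro h
      exact ⟨h n (by omega), fun i hi => h i (by omega)⟩

/-- bits, for the kernel -/
def bsF (f : ℕ → Bool) : ℕ → ℕ
  | 0 => 0
  | n + 1 => bsF f n + (bif f n then 2 ^ n else 0)

theorem bsF_eq (f : ℕ → Bool) (n : ℕ) : bsF f n = bs f n := by
  induction n with
  | zero => simp [bsF, bs]
  | succ n ih =>
    rw [bsF, bs_succ, ih]
    cases f n <;> simp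

/-- code, for the kernel -/
def encF (p : ℕ → ℕ → Bool) : ℕ → ℕ
  | 0 => 0
  | k + 1 => 2 ^ tri k * bsF (fun i => p i k) k + encF p k

theorem encF_eq (p : ℕ → ℕ → Bool) (k : ℕ) : encF p k = enc k p := by
  induction k with
  | zero => simp [encF, enc]
  | succ k ih => rw [encF, enc_succ, bsF_eq, ih]

/-- decoding, for the kernel -/
def decF (c i j : ℕ) : Bool := c.testBit (bif Nat.blt i j then tri j + i else tri i + j)

theorem decF_eq (N c i j : ℕ) (hi : i < N) (hj : j < N) (hij : i ≠ j) :
    decF c i j = dec N c i j := by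
  unfold decF dec eid
  rw [if_pos ⟨hi, hj, hij⟩]
  by_cases h : i < j
  · rw [if_pos h]
    have : Nat.blt i j = true := by simpa [Nat.blt_eq] using h
    rw [this]
    rfl
  · rw [if_neg h]
    have : Nat.blt i j = false := by
      rw [Bool.eq_false_iff]
      simpa [Nat.blt_eq] using h
    rw [this]
    rfl

/-- `t` is a permutation of the numbers below `N` -/
def permB (N : ℕ) (t : ℕ → ℕ) : Bool :=
  allB N fun i => Nat.blt (t i) N && allB i fun j => !(Nat.beq (t i) (t j))

theorem permB_spec {N : ℕ} {t : ℕ → ℕ} (h : permB N t = true) :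
    (∀ i < N, t i < N) ∧ ∀ i < N, ∀ j < N, i ≠ j → t i ≠ t j := by
  unfold permB at h
  rw [allB_iff] at h
  have h1 : ∀ i < N, t i < N := fun i hi => by
    have := h i hi
    rw [Bool.and_eq_true] at this
    simpa [Nat.blt_eq] using this.1
  have h2 : ∀ i < N, ∀ j < i, t i ≠ t j := fun i hi j hj => by
    have := h i hi
    rw [Bool.and_eq_true, allB_iff] at this
    have h3 := this.2 j hj
    intro h4
    rw [h4] at h3
    simp at h3
  refine ⟨h1, fun i hi j hj hij => ?_⟩
  rcases lt_or_gt_of_ne hij with h3 | h3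
  · exact fun h4 => h2 j hj i h3 h4.symm
  · exact h2 i hi j h3

theorem permB_permOn {N : ℕ} {t : ℕ → ℕ} (h : permB N t = true) : PermOn N t := by
  obtain ⟨h1, h2⟩ := permB_spec h
  let f : Fin N → Fin N := fun i => ⟨t i, h1 i i.2⟩
  have hf : Function.Injective f := by
    intro i j hij
    by_contra hne
    exact h2 i i.2 j j.2 (fun h => hne (Fin.ext h)) (congrArg Fin.val hij)
  exact ⟨Equiv.ofBijective f (Finite.injective_iff_bijective.1 hf), fun i => rfl⟩

/-- relabelled code, for the kernel -/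
def actF (N : ℕ) (t : ℕ → ℕ) (c : ℕ) : ℕ := encF (fun i j => decF c (t i) (t j)) N

theorem actF_eq {N : ℕ} {t : ℕ → ℕ} (h : permB N t = true) (c : ℕ) :
    actF N t c = act N t c := by
  obtain ⟨h1, h2⟩ := permB_spec h
  rw [actF, encF_eq, act]
  unfold enc
  refine Finset.sum_congr rfl fun j hj => Finset.sum_congr rfl fun i hi => ?_
  rw [Finset.mem_range] at hi hj
  beta_reduce
  rw [decF_eq N c _ _ (h1 i (by omega)) (h1 j hj) (h2 i (by omega) j hj (by omega))]

/-- digits of a packed permutation -/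
def dg (n i : ℕ) : ℕ := (n >>> (3 * i)) % 8

/-- lookup -/
def autOf : List (ℕ × List ℕ) → ℕ → List ℕ
  | [], _ => []
  | x :: r, g => bif Nat.beq x.1 g then x.2 else autOf r g

theorem autOf_mem (L : List (ℕ × List ℕ)) (g : ℕ) (h : autOf L g ≠ []) : (g, autOf L g) ∈ L := by
  induction L with
  | nil => exact absurd rfl h
  | cons x r ih =>
    unfold autOf at h ⊢
    cases hb : Nat.beq x.1 g with
    | true =>
      have hx : x.1 = g := Nat.eq_of_beq_eq_true hb
      rw [cond_true, ← hx]
      exact List.mem_cons_self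
    | false =>
      rw [hb, cond_false] at h
      rw [cond_false]
      exact List.mem_cons_of_mem _ (ih h)

/-- nonempty list -/
def neB {α : Type} : List α → Bool
  | [] => false
  | _ :: _ => true

theorem neB_iff {α : Type} (l : List α) : neB l = true ↔ l ≠ [] := by
  cases l <;> simp [neB]

/-- check of the relabelling data -/
def relB (N : ℕ) (rep : ℕ → ℕ) (tau : ℕ → ℕ → ℕ) (AUT : List (ℕ × List ℕ)) : Bool :=
  allB (2 ^ tri N) (fun c => permB N (tau c) && Nat.beq (actF N (tau c) c) (rep c) &&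
    neB (autOf AUT (rep c))) &&
  AUT.all (fun x => x.2.all fun n => permB N (dg n) && Nat.beq (actF N (dg n) x.1) x.1)

/-- relabelling data from the check -/
def Relab.mk' {N : ℕ} (rep : ℕ → ℕ) (tau : ℕ → ℕ → ℕ) (AUT : List (ℕ × List ℕ))
    (h : relB N rep tau AUT = true) : Relab N where
  rep := rep
  tau := tau
  aut g := (autOf AUT g).map dg
  perm c hc := by
    unfold relB at h
    rw [Bool.and_eq_true, allB_iff] at h
    have := h.1 c hc
    simp only [Bool.and_eq_true] at this
    exact permB_permOn this.1.1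
  act c hc := by
    unfold relB at h
    rw [Bool.and_eq_true, allB_iff] at h
    have := h.1 c hc
    simp only [Bool.and_eq_true] at this
    rw [← actF_eq this.1.1]
    exact Nat.eq_of_beq_eq_true this.1.2
  ne c hc := by
    unfold relB at h
    rw [Bool.and_eq_true, allB_iff] at h
    have := h.1 c hc
    simp only [Bool.and_eq_true] at this
    rw [neB_iff] at this
    simpa using this.2
  aperm c hc t ht := by
    unfold relB at h
    rw [Bool.and_eq_true, allB_iff] at h
    have h1 := h.1 c hc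
    simp only [Bool.and_eq_true] at h1
    rw [neB_iff] at h1
    have h2 := autOf_mem AUT (rep c) h1.2
    have h3 := List.all_eq_true.1 h.2 _ h2
    obtain ⟨n, hn, rfl⟩ := List.mem_map.1 ht
    have h4 := List.all_eq_true.1 h3 n hn
    rw [Bool.and_eq_true] at h4
    exact permB_permOn h4.1
  aact c hc t ht := by
    unfold relB at h
    rw [Bool.and_eq_true, allB_iff] at h
    have h1 := h.1 c hc
    simp only [Bool.and_eq_true] at h1
    rw [neB_iff] at h1
    have h2 := autOf_mem AUT (rep c) h1.2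
    have h3 := List.all_eq_true.1 h.2 _ h2
    obtain ⟨n, hn, rfl⟩ := List.mem_map.1 ht
    have h4 := List.all_eq_true.1 h3 n hn
    rw [Bool.and_eq_true] at h4
    rw [← actF_eq h4.1]
    exact Nat.eq_of_beq_eq_true h4.2

/-- members of a class -/
def memB (rep : ℕ → ℕ) (g : ℕ) : ℕ → List ℕ
  | 0 => []
  | n + 1 => bif Nat.beq (rep n) g then n :: memB rep g n else memB rep g n

/-- sum over a list -/
def sumL (h : ℕ → ℤ) : List ℕ → ℤ
  | [] => 0
  | x :: l => h x + sumL h l

theorem memB_sum (rep : ℕ → ℕ) (g : ℕ) (h : ℕ → ℤ) (n : ℕ) :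
    sumL h (memB rep g n) = ∑ c ∈ range n, if rep c = g then h c else 0 := by
  induction n with
  | zero => simp [memB, sumL]
  | succ n ih =>
    rw [memB, Finset.sum_range_succ]
    cases hb : Nat.beq (rep n) g with
    | true =>
      rw [cond_true, sumL, if_pos (Nat.eq_of_beq_eq_true hb), ih, add_comm]
    | false =>
      have : ¬ rep n = g := fun h' => by
        rw [h'] at hb
        simp at hb
      rw [cond_false, if_neg this, ih, add_zero]

/-- element of a list -/
def nth {α : Type} (d : α) : List α → ℕ → α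
  | [], _ => d
  | x :: _, 0 => x
  | _ :: l, n + 1 => nth d l n

/-- list of values -/
def tabl (h : ℕ → ℤ) : ℕ → ℕ → List ℤ
  | _, 0 => []
  | s, n + 1 => h s :: tabl h (s + 1) n

theorem nth_tabl (h : ℕ → ℤ) (s n q : ℕ) (hq : q < n) : nth 0 (tabl h s n) q = h (s + q) := by
  induction n generalizing s q with
  | zero => omega
  | succ n ih =>
    cases q with
    | zero => rfl
    | succ q =>
      rw [tabl, nth, ih (s + 1) q (by omega)]
      congr 1
      omega

/-- class sums, as a list -/
def KL (N : ℕ) (F : ℕ → ℕ → ℕ → ℤ) (rep : ℕ → ℕ) (tau : ℕ → ℕ → ℕ) (g : ℕ) : List ℤ :=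
  (fun M : List ℕ => tabl (fun q => sumL (fun c => F c (tau c (q / N)) (tau c (q % N))) M) 0 (N * N))
    (memB rep g (2 ^ tri N))

/-- the check of one class -/
def clsB (N : ℕ) (L : List ℤ) (l : List ℕ) : Bool :=
  allB N fun a => allB (a + 1) fun b =>
    decide (sumL (fun n => nth 0 L (N * dg n a + dg n b) + nth 0 L (N * dg n b + dg n a)) l ≤ 0)

theorem Kt_eq {N : ℕ} (D : Relab N) (F : ℕ → ℕ → ℕ → ℤ) (g a b : ℕ) (ha : a < N) (hb : b < N) :
    Kt D F g a b = nth 0 (KL N F D.rep D.tau g) (N * a + b) := by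
  have h1 : N * a + b < N * N := by
    calc N * a + b < N * a + N := by omega
      _ = N * (a + 1) := by ring
      _ ≤ N * N := Nat.mul_le_mul_left _ ha
  unfold KL
  rw [nth_tabl _ _ _ _ h1, memB_sum, Kt, zero_add]
  have hN : 0 < N := by omega
  have h2 : (N * a + b) / N = a := by
    rw [Nat.mul_add_div hN, Nat.div_eq_of_lt hb, add_zero]
  have h3 : (N * a + b) % N = b := by
    rw [Nat.mul_add_mod, Nat.mod_eq_of_lt hb]
  rw [h2, h3]

theorem sumL_map (l : List ℕ) (f : (ℕ → ℕ) → ℤ) :
    ((l.map dg).map f).sum = sumL (fun n => f (dg n)) l := by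
  induction l with
  | nil => rfl
  | cons x l ih => rw [List.map_cons, List.map_cons, List.sum_cons, ih, sumL]

theorem clsB_spec {N : ℕ} (rep : ℕ → ℕ) (tau : ℕ → ℕ → ℕ) (AUT : List (ℕ × List ℕ))
    (h : relB N rep tau AUT = true) (F : ℕ → ℕ → ℕ → ℤ) (c : ℕ) (hc : c < 2 ^ tri N)
    (hK : clsB N (KL N F rep tau (rep c)) (autOf AUT (rep c)) = true) (a b : ℕ) (ha : a < N)
    (hb : b < N) :
    (((Relab.mk' rep tau AUT h).aut ((Relab.mk' rep tau AUT h).rep c)).map fun t =>
      Kt (Relab.mk' rep tau AUT h) F ((Relab.mk' rep tau AUT h).rep c) (t a) (t b) +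
      Kt (Relab.mk' rep tau AUT h) F ((Relab.mk' rep tau AUT h).rep c) (t b) (t a)).sum ≤ 0 := by
  have hperm : ∀ n ∈ autOf AUT (rep c), ∀ i < N, dg n i < N := by
    intro n hn i hi
    have h' := h
    unfold relB at h'
    rw [Bool.and_eq_true, allB_iff] at h'
    have h1 := h'.1 c hc
    simp only [Bool.and_eq_true] at h1
    rw [neB_iff] at h1
    have h2 := autOf_mem AUT (rep c) h1.2
    have h3 := List.all_eq_true.1 h'.2 _ h2
    have h4 := List.all_eq_true.1 h3 n hn
    rw [Bool.and_eq_true] at h4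
    exact (permB_spec h4.1).1 i hi
  have key : ∀ a < N, ∀ b < N,
      (((Relab.mk' rep tau AUT h).aut ((Relab.mk' rep tau AUT h).rep c)).map fun t =>
        Kt (Relab.mk' rep tau AUT h) F ((Relab.mk' rep tau AUT h).rep c) (t a) (t b) +
        Kt (Relab.mk' rep tau AUT h) F ((Relab.mk' rep tau AUT h).rep c) (t b) (t a)).sum =
      sumL (fun n => nth 0 (KL N F rep tau (rep c)) (N * dg n a + dg n b) +
        nth 0 (KL N F rep tau (rep c)) (N * dg n b + dg n a)) (autOf AUT (rep c)) := by
    intro a ha b hb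
    change (((autOf AUT (rep c)).map dg).map _).sum = _
    rw [sumL_map]
    have : ∀ l : List ℕ, (∀ n ∈ l, ∀ i < N, dg n i < N) →
        sumL (fun n => Kt (Relab.mk' rep tau AUT h) F ((Relab.mk' rep tau AUT h).rep c) (dg n a)
          (dg n b) + Kt (Relab.mk' rep tau AUT h) F ((Relab.mk' rep tau AUT h).rep c) (dg n b)
          (dg n a)) l =
        sumL (fun n => nth 0 (KL N F rep tau (rep c)) (N * dg n a + dg n b) +
          nth 0 (KL N F rep tau (rep c)) (N * dg n b + dg n a)) l := by
      intro l hl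
      induction l with
      | nil => rfl
      | cons x l ih =>
        have hx := hl x List.mem_cons_self
        rw [sumL, sumL, ih fun n hn => hl n (List.mem_cons_of_mem _ hn),
          Kt_eq _ F _ _ _ (hx a ha) (hx b hb), Kt_eq _ F _ _ _ (hx b hb) (hx a ha)]
        rfl
    exact this _ hperm
  rw [key a ha b hb]
  unfold clsB at hK
  rw [allB_iff] at hK
  rcases le_total b a with hab | hab
  · have := hK a ha
    rw [allB_iff] at this
    exact of_decide_eq_true (this b (by omega))
  · have := hK b hb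
    rw [allB_iff] at this
    have h1 := of_decide_eq_true (this a (by omega))
    refine le_trans (le_of_eq ?_) h1
    generalize autOf AUT (rep c) = l
    induction l with
    | nil => rfl
    | cons x l ih => rw [sumL, sumL, ih]; ring

/-- list of positions forming a clique -/
def cliqB (N r g : ℕ) (l : List ℕ) : Bool :=
  Nat.beq l.length (r + 1) && l.all (fun i => Nat.blt i N) &&
    l.all (fun i => l.all fun j => Nat.beq i j || decF g i j) &&
    decide l.Nodup

theorem cliqB_spec {N r g : ℕ} {l : List ℕ} (h : cliqB N r g l = true) : HasCl N r g := by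
  unfold cliqB at h
  simp only [Bool.and_eq_true, List.all_eq_true, decide_eq_true_eq] at h
  obtain ⟨⟨⟨h1, h2⟩, h3⟩, h4⟩ := h
  have h1' := Nat.eq_of_beq_eq_true h1
  have h2' : ∀ i ∈ l, i < N := fun i hi => by simpa [Nat.blt_eq] using h2 i hi
  refine ⟨l.toFinset.attachFin (fun i hi => h2' i (List.mem_toFinset.1 hi)), ?_, ?_⟩
  · rw [Finset.card_attachFin, List.toFinset_card_of_nodup h4, h1']
  · intro i hi j hj hij
    rw [Finset.mem_attachFin, List.mem_toFinset] at hi hj
    have h5 := h3 i hi j hj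
    have h6 : (i : ℕ) ≠ j := fun h => hij (Fin.ext h)
    rw [Bool.or_eq_true] at h5
    rcases h5 with h5 | h5
    · exact absurd (Nat.eq_of_beq_eq_true h5) h6
    · rw [← decF_eq N g i j i.2 j.2 h6]
      exact h5

/-- the whole check; `cl g` is a clique of the class `g`, or `[]` -/
def allCls (N r : ℕ) (F : ℕ → ℕ → ℕ → ℤ) (rep : ℕ → ℕ) (tau : ℕ → ℕ → ℕ)
    (AUT : List (ℕ × List ℕ)) (cl : ℕ → List ℕ) : Bool :=
  AUT.all fun x => cliqB N r x.1 (cl x.1) || clsB N (KL N F rep tau x.1) x.2

theorem nonPos_of_chk {N : ℕ} (r : ℕ) (A : (ℕ → ℕ → Bool) → ℕ → ℕ → ℤ)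
    (F : ℕ → ℕ → ℕ → ℤ) (rep : ℕ → ℕ) (tau : ℕ → ℕ → ℕ)
    (AUT : List (ℕ × List ℕ)) (cl : ℕ → List ℕ)
    (hF : ∀ c < 2 ^ tri N, ∀ a < N, ∀ b < N, A (dec N c) a b = F c a b)
    (h : relB N rep tau AUT = true)
    (hK : allCls N r F rep tau AUT cl = true) : NonPos r N A := by
  refine nonPos_of r A (Relab.mk' rep tau AUT h) F hF fun c hc => ?_
  have h' := h
  unfold relB at h'
  rw [Bool.and_eq_true, allB_iff] at h'
  have h1 := h'.1 c hc
  simp only [Bool.and_eq_true] at h1
  rw [neB_iff] at h1
  have h2 := autOf_mem AUT (rep c) h1.2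
  have h3 := List.all_eq_true.1 hK _ h2
  rw [Bool.or_eq_true] at h3
  rcases h3 with h3 | h3
  · exact Or.inl (cliqB_spec h3)
  · exact Or.inr fun a ha b hb => clsB_spec rep tau AUT h F c hc h3 a b ha hb

end Chk

end Pool.Agent.Work.MP_f94384_co.Flag
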