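import Pool.Agent.Work.MP_f94384_co.Flag.Code

/-!
# Soundness of the check on classes of codes
-/

set_option autoImplicit false
set_option linter.unusedSectionVars false
set_option linter.unusedDecidableInType false
set_option linter.unusedFintypeInType false

open Finset

namespace Pool.Agent.Work.MP_f94384_co.Flag

namespace Chk

/-- relabelling data -/
structure Relab (N : ℕ) where
  rep : ℕ → ℕ
  tau : ℕ → ℕ → ℕ
  aut : ℕ → List (ℕ → ℕ)
  perm : ∀ c < 2 ^ tri N, PermOn N (tau c)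
  act : ∀ c < 2 ^ tri N, act N (tau c) c = rep c
  ne : ∀ c < 2 ^ tri N, aut (rep c) ≠ []
  aperm : ∀ c < 2 ^ tri N, ∀ t ∈ aut (rep c), PermOn N t
  aact : ∀ c < 2 ^ tri N, ∀ t ∈ aut (rep c), Chk.act N t (rep c) = rep c

/-- accumulated table of a class -/
def Kt {N : ℕ} (D : Relab N) (F : ℕ → ℕ → ℕ → ℤ) (g a b : ℕ) : ℤ :=
  ∑ c ∈ range (2 ^ tri N), if D.rep c = g then F c (D.tau c a) (D.tau c b) else 0

/-- the pattern `g` has a clique of size `r + 1` -/
def HasCl (N r g : ℕ) : Prop :=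
  ∃ s : Finset (Fin N), s.card = r + 1 ∧ ∀ i ∈ s, ∀ j ∈ s, i ≠ j → dec N g i j = true

variable {V : Type} [Fintype V] [DecidableEq V]

theorem Mom_zero (G : SimpleGraph V) (x : V → ℝ) (N r g : ℕ) (hG : G.CliqueFree (r + 1))
    (hg : HasCl N r g) (a b : Fin N) : Mom G x N g a b = 0 := by
  classical
  obtain ⟨s, hs1, hs2⟩ := hg
  refine Finset.sum_eq_zero fun v hv => ?_
  exfalso
  have hv' := (Finset.mem_filter.1 hv).2
  have hadj : ∀ i ∈ s, ∀ j ∈ s, i ≠ j → G.Adj (v i) (v j) := by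
    intro i hi j hj hij
    rw [← pat_apply, pat_eq_dec, hv']
    exact hs2 i hi j hj hij
  have hinj : Set.InjOn v s := by
    intro i hi j hj hij
    by_contra hne
    have := hadj i hi j hj hne
    rw [hij] at this
    exact G.loopless.irrefl _ this
  refine hG (s.image v) ⟨?_, ?_⟩
  · rw [SimpleGraph.isClique_iff]
    intro u hu w hw huw
    simp only [Finset.coe_image, Set.mem_image, Finset.mem_coe] at hu hw
    obtain ⟨i, hi, rfl⟩ := hu
    obtain ⟨j, hj, rfl⟩ := hw
    exact hadj i hi j hj (fun h => huw (by rw [h]))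
  · rw [Finset.card_image_of_injOn hinj, hs1]

theorem sum_perm (N : ℕ) (σ : Equiv.Perm (Fin N)) (f : Fin N → Fin N → ℝ) :
    ∑ a, ∑ b, f (σ a) (σ b) = ∑ a, ∑ b, f a b := by
  rw [← Equiv.sum_comp σ (fun a => ∑ b, f a b)]
  refine Finset.sum_congr rfl fun a _ => ?_
  exact Equiv.sum_comp σ (fun b => f (σ a) b)

/-- averaging over a list of automorphisms -/
theorem aut_sum (N : ℕ) (K : ℕ → ℕ → ℤ) (M : Fin N → Fin N → ℝ) (hM : ∀ a b, M a b = M b a)
    (L : List (ℕ → ℕ))
    (hL : ∀ t ∈ L, ∃ σ : Equiv.Perm (Fin N), (∀ i : Fin N, t i = σ i) ∧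
      ∀ a b, M (σ a) (σ b) = M a b) :
    ∑ a : Fin N, ∑ b : Fin N, (((L.map fun t => K (t a) (t b) + K (t b) (t a)).sum : ℤ) : ℝ) *
      M a b = 2 * L.length * ∑ a : Fin N, ∑ b : Fin N, (K a b : ℝ) * M a b := by
  induction L with
  | nil => simp
  | cons t L ih =>
    have ih' := ih fun t' ht' => hL t' (List.mem_cons_of_mem _ ht')
    obtain ⟨σ, h1, h2⟩ := hL t List.mem_cons_self
    have h3 : ∑ a : Fin N, ∑ b : Fin N, (K (t a) (t b) : ℝ) * M a b =
        ∑ a : Fin N, ∑ b : Fin N, (K a b : ℝ) * M a b := by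
      rw [← sum_perm N σ (fun a b => (K a b : ℝ) * M a b)]
      refine Finset.sum_congr rfl fun a _ => Finset.sum_congr rfl fun b _ => ?_
      rw [h1, h1, h2]
    have h4 : ∑ a : Fin N, ∑ b : Fin N, (K (t b) (t a) : ℝ) * M a b =
        ∑ a : Fin N, ∑ b : Fin N, (K a b : ℝ) * M a b := by
      rw [Finset.sum_comm, ← h3]
      refine Finset.sum_congr rfl fun a _ => Finset.sum_congr rfl fun b _ => ?_
      rw [hM]
    have h5 : ∀ a b : Fin N, ((((t :: L).map fun t => K (t a) (t b) + K (t b) (t a)).sum : ℤ) : ℝ) *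
        M a b = (K (t a) (t b) : ℝ) * M a b + (K (t b) (t a) : ℝ) * M a b +
        (((L.map fun t => K (t a) (t b) + K (t b) (t a)).sum : ℤ) : ℝ) * M a b := by
      intro a b
      rw [List.map_cons, List.sum_cons]
      push_cast
      ring
    simp only [h5, Finset.sum_add_distrib]
    rw [h3, h4, ih', List.length_cons]
    push_cast
    ring

theorem nonPos_of {N : ℕ} (r : ℕ) (A : (ℕ → ℕ → Bool) → ℕ → ℕ → ℤ) (D : Relab N)
    (F : ℕ → ℕ → ℕ → ℤ)
    (hF : ∀ c < 2 ^ tri N, ∀ a < N, ∀ b < N, A (dec N c) a b = F c a b)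
    (hK : ∀ c < 2 ^ tri N, HasCl N r (D.rep c) ∨ ∀ a < N, ∀ b < N,
      ((D.aut (D.rep c)).map fun t => Kt D F (D.rep c) (t a) (t b) +
        Kt D F (D.rep c) (t b) (t a)).sum ≤ 0) :
    NonPos r N A := by
  intro V _ _ G x hx hG
  rw [Phi_eq]
  have hrep : ∀ c < 2 ^ tri N, D.rep c < 2 ^ tri N := by
    intro c hc
    rw [← D.act c hc]
    exact enc_lt _ _
  have h1 : ∀ c ∈ range (2 ^ tri N), ∑ a : Fin N, ∑ b : Fin N,
      (A (dec N c) a b : ℝ) * Mom G x N c a b =
      ∑ a : Fin N, ∑ b : Fin N, (F c (D.tau c a) (D.tau c b) : ℝ) * Mom G x N (D.rep c) a b := by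
    intro c hc
    rw [Finset.mem_range] at hc
    obtain ⟨σ, hσ⟩ := D.perm c hc
    rw [← sum_perm N σ]
    refine Finset.sum_congr rfl fun a _ => Finset.sum_congr rfl fun b _ => ?_
    rw [Mom_perm G x N c _ hc (D.tau c) σ hσ (D.act c hc) a b, hσ, hσ,
      hF c hc _ (σ a).2 _ (σ b).2]
  rw [Finset.sum_congr rfl h1]
  have h2 : ∑ c ∈ range (2 ^ tri N), ∑ a : Fin N, ∑ b : Fin N,
      (F c (D.tau c a) (D.tau c b) : ℝ) * Mom G x N (D.rep c) a b =
      ∑ g ∈ range (2 ^ tri N), ∑ a : Fin N, ∑ b : Fin N,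
        (Kt D F g a b : ℝ) * Mom G x N g a b := by
    rw [← Finset.sum_fiberwise_of_maps_to (s := range (2 ^ tri N)) (t := range (2 ^ tri N))
      (g := D.rep) (fun c hc => Finset.mem_range.2 (hrep c (Finset.mem_range.1 hc)))]
    refine Finset.sum_congr rfl fun g _ => ?_
    rw [Finset.sum_comm]
    refine Finset.sum_congr rfl fun a _ => ?_
    rw [Finset.sum_comm]
    refine Finset.sum_congr rfl fun b _ => ?_
    rw [Kt, Int.cast_sum, Finset.sum_mul, Finset.sum_filter]
    refine Finset.sum_congr rfl fun c _ => ?_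
    by_cases h : D.rep c = g
    · rw [if_pos h, if_pos h, h]
    · rw [if_neg h, if_neg h]
      simp
  rw [h2]
  refine Finset.sum_nonpos fun g _ => ?_
  by_cases hg : ∃ c < 2 ^ tri N, D.rep c = g
  · obtain ⟨c, hc, rfl⟩ := hg
    rcases hK c hc with h | h
    · refine le_of_eq (Finset.sum_eq_zero fun a _ => Finset.sum_eq_zero fun b _ => ?_)
      rw [Mom_zero G x N r _ hG h a b, mul_zero]
    · have h3 := aut_sum N (Kt D F (D.rep c)) (Mom G x N (D.rep c)) (Mom_symm G x N _)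
        (D.aut (D.rep c)) (by
          intro t ht
          obtain ⟨σ, hσ⟩ := D.aperm c hc t ht
          refine ⟨σ, hσ, fun a b => ?_⟩
          exact (Mom_perm G x N (D.rep c) _ (hrep c hc) t σ hσ (D.aact c hc t ht) a b).symm)
      have h4 : ∑ a : Fin N, ∑ b : Fin N, ((((D.aut (D.rep c)).map fun t =>
          Kt D F (D.rep c) (t a) (t b) + Kt D F (D.rep c) (t b) (t a)).sum : ℤ) : ℝ) *
          Mom G x N (D.rep c) a b ≤ 0 :=
        Finset.sum_nonpos fun a _ => Finset.sum_nonpos fun b _ =>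
          mul_nonpos_of_nonpos_of_nonneg (by exact_mod_cast h a a.2 b b.2)
            (Mom_nonneg G x hx N _ a b)
      rw [h3] at h4
      have h5 : (0 : ℝ) < 2 * (D.aut (D.rep c)).length := by
        have : 0 < (D.aut (D.rep c)).length := List.length_pos_of_ne_nil (D.ne c hc)
        have : (0 : ℝ) < ((D.aut (D.rep c)).length : ℝ) := by exact_mod_cast this
        positivity
      exact nonpos_of_mul_nonpos_right h4 h5
  · refine le_of_eq (Finset.sum_eq_zero fun a _ => Finset.sum_eq_zero fun b _ => ?_)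
    have h6 : Kt D F g a b = 0 := by
      refine Finset.sum_eq_zero fun c hc => ?_
      rw [if_neg]
      exact fun h => hg ⟨c, Finset.mem_range.1 hc, h⟩
    rw [h6]
    simp

end Chk

end Pool.Agent.Work.MP_f94384_co.Flag
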