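import Pool.Agent.Work.MP_f94384_co.Flag.Defs

/-!
# Pattern sum certificates with Perron weights: items of the soundness theorem
-/

set_option autoImplicit false

open Finset

namespace Pool.Agent.Work.MP_f94384_co.Flag

section aux

variable {V : Type} [Fintype V] [DecidableEq V]

/-- the tuple of the roots `ρ` and the two further points -/
def ext {k : ℕ} (ρ : Fin k → V) (w w' : V) : Fin (k + 2) → V :=
  Fin.snoc (α := fun _ => V) (Fin.snoc (α := fun _ => V) ρ w : Fin (k + 1) → V) w'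

open Classical in
/-- adjacency mask of a vertex to the roots -/
noncomputable def cdm (G : SimpleGraph V) {k : ℕ} (ρ : Fin k → V) (w : V) : ℕ :=
  ∑ j : Fin k, if G.Adj w (ρ j) then 2 ^ (j : ℕ) else 0

/-- the weight `c` of the vertex `w` -/
def X (x : V → ℝ) {k : ℕ} (ρ : Fin k → V) (w : V) (c : ℕ) : ℝ :=
  if h : c < k then x (ρ ⟨c, h⟩) else x w

/-- the kernel on `V` given by a matrix and the roots -/
noncomputable def Bk (G : SimpleGraph V) (x : V → ℝ) {k : ℕ} (Y : ℕ → ℕ → ℝ) (ρ : Fin k → V)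
    (w w' : V) : ℝ :=
  ∑ c ∈ range (k + 1), ∑ c' ∈ range (k + 1),
    Y (2 ^ k * c + cdm G ρ w) (2 ^ k * c' + cdm G ρ w') * X x ρ w c * X x ρ w' c'

/-- a kernel that is a sum of squares -/
def PK (B : V → V → ℝ) : Prop :=
  ∃ (s : ℕ) (F : ℕ → V → ℝ), ∀ w w', B w w' = ∑ a ∈ range s, F a w * F a w'

/-- `x` is an eigenvector of the adjacency matrix with eigenvalue `l` -/
def Eig (G : SimpleGraph V) (x : V → ℝ) (l : ℝ) : Prop := ∀ v, deg G x v univ = l * x v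

open Classical in
/-- neighbourhood -/
noncomputable def nbh (G : SimpleGraph V) (u : V) : Finset V := univ.filter fun v => G.Adj u v

open Classical in
/-- mask of `row1` for vertices -/
noncomputable def mk1 (G : SimpleGraph V) (u w z : V) : ℕ :=
  (if G.Adj w u then 1 else 0) + (if G.Adj z u then 2 else 0) + (if G.Adj w z then 4 else 0)

/-- weight `c` in `row1` -/
def X1 (x : V → ℝ) (u w z : V) (c : ℕ) : ℝ := if c = 0 then x u else if c = 1 then x w else x z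

/-- the kernel of the additional square -/
noncomputable def Bk1 (G : SimpleGraph V) (x : V → ℝ) (Y : ℕ → ℕ → ℝ) (u w w' : V) : ℝ :=
  ∑ z, ∑ z', ∑ c ∈ range 3, ∑ c' ∈ range 3,
    Y (8 * c + mk1 G u w z) (8 * c' + mk1 G u w' z') * X1 x u w z c * X1 x u w' z' c'

end aux

/-- Item SPLIT: sum over tuples. -/
def SPLIT : Prop := ∀ (k : ℕ) (V : Type) [Fintype V] [DecidableEq V] (F : (Fin (k + 2) → V) → ℝ),
  ∑ v, F v = ∑ ρ : Fin k → V, ∑ w, ∑ w', F (ext ρ w w')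

/-- Item PAT: pattern of an extended tuple. -/
def PAT : Prop := ∀ (k : ℕ) (V : Type) [Fintype V] [DecidableEq V] (G : SimpleGraph V)
  (ρ : Fin k → V) (w w' : V),
  msk k (pat G (ext ρ w w')) k = cdm G ρ w ∧ msk k (pat G (ext ρ w w')) (k + 1) = cdm G ρ w' ∧
  enc k (pat G (ext ρ w w')) = enc k (pat G ρ) ∧
  enc (k + 1) (pat G (ext ρ w w')) =
    enc (k + 1) (pat G (Fin.snoc (α := fun _ => V) ρ w : Fin (k + 1) → V)) ∧
  (pat G (ext ρ w w') k (k + 1) = true ↔ G.Adj w w') ∧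
  (∀ a : Fin k, (pat G (ext ρ w w') k a = true ↔ G.Adj w (ρ a)) ∧
    (pat G (ext ρ w w') (k + 1) a = true ↔ G.Adj w' (ρ a)) ∧
    (pat G (ext ρ w w') a (k + 1) = true ↔ G.Adj (ρ a) w'))

/-- Item TBF: evaluation of the bilinear part. -/
def TBF : Prop := ∀ (k : ℕ) (V : Type) [Fintype V] [DecidableEq V] (G : SimpleGraph V)
  (x : V → ℝ) (Y : ℕ → ℕ → ℝ) (ρ : Fin k → V) (w w' : V),
  (∑ i : Fin (k + 2), ∑ j : Fin (k + 2), TB k k (k + 1) Y (pat G (ext ρ w w')) i j *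
    x (ext ρ w w' i) * x (ext ρ w w' j) = Bk G x Y ρ w w') ∧
  (∑ i : Fin (k + 2), ∑ j : Fin (k + 2), TB k k k Y (pat G (ext ρ w w')) i j *
    x (ext ρ w w' i) * x (ext ρ w w' j) = Bk G x Y ρ w w)

/-- Item TLF: evaluation of the part with the eigenvalue. -/
def TLF : Prop := ∀ (k : ℕ) (V : Type) [Fintype V] [DecidableEq V] (G : SimpleGraph V)
  (x : V → ℝ) (l : ℝ), Eig G x l → ∀ (Y : ℕ → ℕ → ℝ) (ρ : Fin k → V) (w : V),
  ∑ w', ∑ i : Fin (k + 2), ∑ j : Fin (k + 2), TL k Y (pat G (ext ρ w w')) i j *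
    x (ext ρ w w' i) * x (ext ρ w w' j) = l * Bk G x Y ρ w w

/-- Item TZF: the Perron equalities. -/
def TZF : Prop := ∀ (k : ℕ) (V : Type) [Fintype V] [DecidableEq V] (G : SimpleGraph V)
  (x : V → ℝ) (l : ℝ), Eig G x l → ∀ (z : ℕ → ℕ → ℝ), (∀ a b, z a b = -z b a) →
  ∀ (ρ : Fin k → V) (w : V),
  ∑ w', ∑ i : Fin (k + 2), ∑ j : Fin (k + 2), TZ k z (pat G (ext ρ w w')) i j *
    x (ext ρ w w' i) * x (ext ρ w w' j) = 0

/-- Item FU: pattern sum of the usual squares. -/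
def FU : Prop := ∀ (k : ℕ) (V : Type) [Fintype V] [DecidableEq V] (G : SimpleGraph V)
  (x : V → ℝ) (Y : ℕ → ℕ → ℕ → ℝ),
  Phi G x (k + 2) (fun p i j => TU k (Y (enc k p)) p i j) =
    ∑ ρ : Fin k → V, ∑ w, ∑ w', Bk G x (Y (enc k (pat G ρ))) ρ w w'

/-- Item FE: pattern sum of the eigenvalue squares. -/
def FE : Prop := ∀ (k : ℕ) (V : Type) [Fintype V] [DecidableEq V] (G : SimpleGraph V)
  (x : V → ℝ) (l : ℝ), Eig G x l → ∀ (m q : ℝ) (Y : ℕ → ℕ → ℕ → ℝ),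
  Phi G x (k + 2) (fun p i j => TE k m q (Y (enc k p)) p i j) =
    ∑ ρ : Fin k → V, (m * (∑ w, ∑ w', W G w w' * Bk G x (Y (enc k (pat G ρ))) ρ w w') +
      (m * l - q * (Fintype.card V : ℝ)) * ∑ w, Bk G x (Y (enc k (pat G ρ))) ρ w w)

/-- Item FQ: pattern sum of the induction squares. -/
def FQ : Prop := ∀ (k : ℕ) (V : Type) [Fintype V] [DecidableEq V] (G : SimpleGraph V)
  (x : V → ℝ) (l : ℝ), Eig G x l → ∀ (m q f : ℝ) (a : Fin k) (Y : ℕ → ℕ → ℕ → ℝ),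
  Phi G x (k + 2) (fun p i j => TQ k m q f a (Y (enc k p)) p i j) =
    ∑ ρ : Fin k → V, (-(m * ∑ w ∈ nbh G (ρ a), ∑ w' ∈ nbh G (ρ a),
        W G w w' * Bk G x (Y (enc k (pat G ρ))) ρ w w') +
      (m * l - q * (Fintype.card V : ℝ) + f * ((nbh G (ρ a)).card : ℝ)) *
        ∑ w ∈ nbh G (ρ a), Bk G x (Y (enc k (pat G ρ))) ρ w w)

/-- Item FZ: pattern sum of the Perron equalities. -/
def FZ : Prop := ∀ (k : ℕ) (V : Type) [Fintype V] [DecidableEq V] (G : SimpleGraph V)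
  (x : V → ℝ) (l : ℝ), Eig G x l → ∀ (z : ℕ → ℕ → ℕ → ℝ), (∀ h a b, z h a b = -z h b a) →
  Phi G x (k + 2) (fun p i j => TZ k (z (enc (k + 1) p)) p i j) = 0

/-- Item FT1: pattern sum of the additional square. -/
def FT1 : Prop := ∀ (V : Type) [Fintype V] [DecidableEq V] (G : SimpleGraph V)
  (x : V → ℝ) (l : ℝ), Eig G x l → ∀ (m q : ℝ) (Y : ℕ → ℕ → ℝ),
  Phi G x 5 (fun p i j => T1 m q Y p i j) =
    ∑ u, (m * (∑ w, ∑ w', W G w w' * Bk1 G x Y u w w') +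
      (m * l - q * (Fintype.card V : ℝ)) * ∑ w, Bk1 G x Y u w w)

/-- Item PKB: the kernel of a positive semidefinite matrix. -/
def PKB : Prop := ∀ (k : ℕ) (V : Type) [Fintype V] [DecidableEq V] (G : SimpleGraph V)
  (x : V → ℝ) (Y : ℕ → ℕ → ℤ), PSDn ((k + 1) * 2 ^ k) Y → ∀ ρ : Fin k → V,
  PK (Bk G x (fun a b => (Y a b : ℝ)) ρ)

/-- Item PKB1: the same for the additional square. -/
def PKB1 : Prop := ∀ (V : Type) [Fintype V] [DecidableEq V] (G : SimpleGraph V)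
  (x : V → ℝ) (Y : ℕ → ℕ → ℤ), PSDn 24 Y → ∀ u : V,
  PK (Bk1 G x (fun a b => (Y a b : ℝ)) u)

/-- Item LPK: consequences of being a sum of squares. -/
def LPK : Prop := ∀ (V : Type) [Fintype V] [DecidableEq V] (G : SimpleGraph V)
  (B : V → V → ℝ), PK B → (0 ≤ ∑ w, ∑ w', B w w') ∧ (∀ w, 0 ≤ B w w) ∧
  (∀ (S : Finset V) (c : ℝ), (∀ g, c * sq S g ≤ qf G S g) →
    c * ∑ w ∈ S, B w w ≤ ∑ w ∈ S, ∑ w' ∈ S, W G w w' * B w w') ∧
  (∀ (S : Finset V) (c : ℝ), (∀ g, qf G S g ≤ c * sq S g) →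
    ∑ w ∈ S, ∑ w' ∈ S, W G w w' * B w w' ≤ c * ∑ w ∈ S, B w w)

/-- Item STR: the kernel at a constant tuple. -/
def STR : Prop := ∀ (k : ℕ) (V : Type) [Fintype V] [DecidableEq V] (G : SimpleGraph V)
  (x : V → ℝ) (Y : ℕ → ℕ → ℝ) (v : V),
  enc k (pat G (fun _ : Fin k => v)) = 0 ∧
  Bk G x Y (fun _ : Fin k => v) v v =
    x v ^ 2 * ∑ c ∈ range (k + 1), ∑ c' ∈ range (k + 1), Y (2 ^ k * c) (2 ^ k * c')

/-- Item CAST: the table of a certificate with integer entries, as a real table. -/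
def CAST : Prop := ∀ (k : ℕ) (C : Cert ℤ) (p : ℕ → ℕ → Bool) (i j : ℕ),
  ((T k C p i j : ℤ) : ℝ) =
    TU k (fun a b => (C.U (enc k p) a b : ℝ)) p i j +
    TE k (C.m : ℝ) (C.q : ℝ) (fun a b => (C.E (enc k p) a b : ℝ)) p i j +
    ∑ a ∈ range k, TQ k (C.m : ℝ) (C.q : ℝ) (C.f : ℝ) a
      (fun c d => (C.Q (enc k p) a c d : ℝ)) p i j +
    TZ k (fun a b => (C.Z (enc (k + 1) p) a b : ℝ)) p i j

/-- Item CAST1. -/
def CAST1 : Prop := ∀ (m q : ℤ) (Y : ℕ → ℕ → ℤ) (p : ℕ → ℕ → Bool) (i j : ℕ),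
  ((T1 m q Y p i j : ℤ) : ℝ) = T1 (m : ℝ) (q : ℝ) (fun a b => (Y a b : ℝ)) p i j

/-- the induction predicate on a whole vertex set -/
def PBu (r : ℕ) (f : ℝ) : Prop :=
  ∀ (V : Type) [Fintype V] [DecidableEq V] (G : SimpleGraph V) (μ : ℝ),
    G.CliqueFree (r + 1) → (∀ g, -μ * sq univ g ≤ qf G univ g) →
    ∀ g, qf G univ g ≤ (f * (Fintype.card V : ℝ) + μ) * sq univ g

/-- Item RED: restriction to a subset of the vertices. -/
def RED : Prop := ∀ (r : ℕ) (f : ℝ), PBu r f → PB r f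

/-- Item MAINU: soundness. -/
def MAINU : Prop := ∀ (k r : ℕ) (C : Cert ℤ), 1 ≤ k → 1 ≤ r → Good k C →
  NonPos r (k + 2) (T k C) → PB (r - 1) ((C.f : ℝ) / C.m) → PBu r ((C.q : ℝ) / C.m)

/-- Item MAINU1: soundness with the additional square. -/
def MAINU1 : Prop := ∀ (r : ℕ) (C : Cert ℤ) (Y : ℕ → ℕ → ℤ), 1 ≤ r → Good 3 C → PSDn 24 Y →
  NonPos r 5 (fun p i j => T 3 C p i j + T1 C.m C.q Y p i j) →
  PB (r - 1) ((C.f : ℝ) / C.m) → PBu r ((C.q : ℝ) / C.m)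

end Pool.Agent.Work.MP_f94384_co.Flag
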