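import Pool.Agent.Work.MP_f94384_co.Flag.Stmts

/-!
# Pattern sum certificates: symmetrisation over the permutations of the positions, and positive
semidefinite matrices given by a triangular matrix and a diagonally dominant remainder
-/

set_option autoImplicit false

open Finset

namespace Pool.Agent.Work.MP_f94384_co.Flag

/-- the pattern with code `g`: the pair `i < j` is the bit `j (j-1) / 2 + i` -/
def dec (g i j : ℕ) : Bool :=
  if i < j then g.testBit (j * (j - 1) / 2 + i)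
  else if j < i then g.testBit (i * (i - 1) / 2 + j) else false

/-- a permutation of the positions as a function on the natural numbers -/
def px {N : ℕ} (π : Equiv.Perm (Fin N)) (a : ℕ) : ℕ := if h : a < N then (π ⟨a, h⟩ : ℕ) else a

/-- code of the permuted pattern -/
def pcp (N : ℕ) (π : Equiv.Perm (Fin N)) (g : ℕ) : ℕ :=
  enc N (fun a b => dec g (px π a) (px π b))

/-- the symmetrised table -/
def SA (N : ℕ) (A : (ℕ → ℕ → Bool) → ℕ → ℕ → ℤ) (g : ℕ) (i j : Fin N) : ℤ :=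
  ∑ π : Equiv.Perm (Fin N), A (dec (pcp N π g)) ((π⁻¹ i : Fin N) : ℕ) ((π⁻¹ j : Fin N) : ℕ)

/-- the pattern with code `g` has no clique with `s` elements -/
def NoCl (s N g : ℕ) : Prop := ∀ t : Finset (Fin N), t.card = s →
  ∃ a ∈ t, ∃ b ∈ t, a ≠ b ∧ dec g a b = false

/-- Item DEC: the code of the pattern of a tuple. -/
def DEC : Prop := ∀ (N : ℕ) (V : Type) [Fintype V] [DecidableEq V] (G : SimpleGraph V)
  (v : Fin N → V), dec (enc N (pat G v)) = pat G v ∧ enc N (pat G v) < 2 ^ (N * (N - 1) / 2)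

/-- Item NCL: tuples in `K_s`-free graphs. -/
def NCL : Prop := ∀ (s N : ℕ) (V : Type) [Fintype V] [DecidableEq V] (G : SimpleGraph V)
  (v : Fin N → V), G.CliqueFree s → NoCl s N (enc N (pat G v))

/-- Item PPC: permuting a tuple. -/
def PPC : Prop := ∀ (N : ℕ) (V : Type) [Fintype V] [DecidableEq V] (G : SimpleGraph V)
  (v : Fin N → V) (π : Equiv.Perm (Fin N)),
  enc N (pat G (fun i => v (π i))) = pcp N π (enc N (pat G v))

/-- Item SYM1: symmetrisation of a pattern sum. -/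
def SYM1 : Prop := ∀ (N : ℕ) (A : (ℕ → ℕ → Bool) → ℕ → ℕ → ℤ) (V : Type) [Fintype V]
  [DecidableEq V] (G : SimpleGraph V) (x : V → ℝ),
  (N.factorial : ℝ) * Phi G x N (fun p i j => (A p i j : ℝ)) =
    ∑ v : Fin N → V, ∑ i : Fin N, ∑ j : Fin N,
      (SA N A (enc N (pat G v)) i j : ℝ) * x (v i) * x (v j)

/-- Item SYM: the sign condition on the symmetrised table. -/
def SYM : Prop := ∀ (r N : ℕ) (A : (ℕ → ℕ → Bool) → ℕ → ℕ → ℤ),
  (∀ g < 2 ^ (N * (N - 1) / 2), NoCl (r + 1) N g → ∀ i j : Fin N, SA N A g i j + SA N A g j i ≤ 0) →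
  NonPos r N A

/-- Item PP2: composition of permutations. -/
def PP2 : Prop := ∀ (N g : ℕ) (π σ : Equiv.Perm (Fin N)), g < 2 ^ (N * (N - 1) / 2) →
  pcp N π (pcp N σ g) = pcp N (σ * π) g ∧ pcp N π g < 2 ^ (N * (N - 1) / 2) ∧
  ∀ a b : Fin N, dec (pcp N π g) a b = dec g (π a) (π b)

/-- Item ORB: the symmetrised table on an orbit. -/
def ORB : Prop := ∀ (N g : ℕ) (A : (ℕ → ℕ → Bool) → ℕ → ℕ → ℤ) (σ : Equiv.Perm (Fin N))
  (i j : Fin N), g < 2 ^ (N * (N - 1) / 2) → SA N A (pcp N σ g) i j = SA N A g (σ i) (σ j)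

/-- Item REP: representatives suffice. -/
def REP : Prop := ∀ (r N : ℕ) (A : (ℕ → ℕ → Bool) → ℕ → ℕ → ℤ) (L : List ℕ),
  (∀ g ∈ L, g < 2 ^ (N * (N - 1) / 2)) →
  (∀ g < 2 ^ (N * (N - 1) / 2), ∃ g0 ∈ L, ∃ σ : Equiv.Perm (Fin N), pcp N σ g0 = g) →
  (∀ g ∈ L, NoCl (r + 1) N g → ∀ i j : Fin N, SA N A g i j + SA N A g j i ≤ 0) →
  NonPos r N A

/-! ### lists of permutations -/

/-- all lists obtained by inserting `a` in `l` -/
def ins (a : ℕ) : List ℕ → List (List ℕ)
  | [] => [[a]]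
  | b :: l => (a :: b :: l) :: (ins a l).map (b :: ·)

/-- the permutations of `[0, ..., n-1]` as lists -/
def pl : ℕ → List (List ℕ)
  | 0 => [[]]
  | n + 1 => (pl n).flatMap (ins n)

/-- the list of the values of a permutation -/
def lst {N : ℕ} (π : Equiv.Perm (Fin N)) : List ℕ := List.ofFn fun i => (π i : ℕ)

/-- Item PL: sums over permutations as sums over lists. -/
def PL : Prop := ∀ (N : ℕ) (F : List ℕ → ℤ), N ≤ 5 →
  ∑ π : Equiv.Perm (Fin N), F (lst π) = ((pl N).map F).sum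

/-- code of the permuted pattern, from the list of the values -/
def pcl (N : ℕ) (l : List ℕ) (g : ℕ) : ℕ :=
  enc N (fun a b => dec g (l.getD a a) (l.getD b b))

/-- Item PCL: list version of the permuted code and of the inverse permutation. -/
def PCL : Prop := ∀ (N g : ℕ) (π : Equiv.Perm (Fin N)),
  pcp N π g = pcl N (lst π) g ∧ ∀ i : Fin N, ((π⁻¹ i : Fin N) : ℕ) = (lst π).idxOf (i : ℕ)

/-! ### positive semidefinite matrices -/

/-- Item PADD: sum of positive semidefinite matrices. -/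
def PADD : Prop := ∀ (n : ℕ) (Y Y' : ℕ → ℕ → ℤ), PSDn n Y → PSDn n Y' →
  PSDn n (fun p q => Y p q + Y' p q)

/-- Item PCON: congruence. -/
def PCON : Prop := ∀ (n m : ℕ) (B : ℕ → ℕ → ℤ) (Z : ℕ → ℕ → ℤ), PSDn m Z →
  PSDn n (fun p q => ∑ i ∈ range m, ∑ j ∈ range m, B i p * Z i j * B j q)

/-- Item PDD: diagonally dominant symmetric matrices. -/
def PDD : Prop := ∀ (n : ℕ) (R : ℕ → ℕ → ℤ), (∀ i < n, ∀ j < n, R i j = R j i) →
  (∀ i < n, ∑ j ∈ (range n).erase i, |R i j| ≤ R i i) → PSDn n R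

/-- Item PLL: a Gram matrix plus a diagonally dominant matrix, transformed by `B`. -/
def PLL : Prop := ∀ (n m : ℕ) (B L R : ℕ → ℕ → ℤ), (∀ i < m, ∀ j < m, R i j = R j i) →
  (∀ i < m, ∑ j ∈ (range m).erase i, |R i j| ≤ R i i) →
  PSDn n (fun p q => ∑ i ∈ range m, ∑ j ∈ range m,
    B i p * ((∑ a ∈ range m, L i a * L j a) + R i j) * B j q)

end Pool.Agent.Work.MP_f94384_co.Flag
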